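import Mathlib
import Pool.Agent.Helper112.LS

/-!
# Palindromes with digits from prescribed digit sets: distance to the nearest integer and the
exponential sum of one digit
-/

set_option autoImplicit false

namespace Pool.Agent.L5helper11.PD

open Finset Pool.Agent.Helper112

/-- distance to the nearest integer -/
noncomputable def dn (x : ℝ) : ℝ := |x - round x|

lemma dn_nonneg (x : ℝ) : 0 ≤ dn x := abs_nonneg _

lemma dn_le_half (x : ℝ) : dn x ≤ 1 / 2 := abs_sub_round x

lemma dn_le (x : ℝ) (k : ℤ) : dn x ≤ |x - k| := round_le x k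

lemma dn_add_int (x : ℝ) (k : ℤ) : dn (x + k) = dn x := by
  unfold dn
  rw [round_add_intCast]
  congr 1
  push_cast
  ring

lemma dn_neg (x : ℝ) : dn (-x) = dn x := by
  apply le_antisymm
  · refine (dn_le (-x) (-round x)).trans (le_of_eq ?_)
    unfold dn
    rw [← abs_neg]
    congr 1
    push_cast
    ring
  · refine (dn_le x (-round (-x))).trans (le_of_eq ?_)
    unfold dn
    rw [← abs_neg]
    congr 1
    push_cast
    ring

lemma dn_add_le (x y : ℝ) : dn (x + y) ≤ dn x + dn y := by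
  refine (dn_le (x + y) (round x + round y)).trans ?_
  have e : x + y - ((round x + round y : ℤ) : ℝ) = (x - round x) + (y - round y) := by
    push_cast; ring
  rw [e]
  exact abs_add_le _ _

lemma dn_sub_le (x y : ℝ) : dn (x - y) ≤ dn x + dn y := by
  rw [sub_eq_add_neg]
  refine (dn_add_le _ _).trans ?_
  rw [dn_neg]

lemma dn_mul_le (n : ℕ) (x : ℝ) : dn (n * x) ≤ n * dn x := by
  refine (dn_le (n * x) (n * round x)).trans (le_of_eq ?_)
  unfold dn
  have e : (n : ℝ) * x - (((n : ℤ) * round x : ℤ) : ℝ) = n * (x - round x) := by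
    push_cast; ring
  rw [e, abs_mul, abs_of_nonneg (Nat.cast_nonneg n)]

lemma dn_int (k : ℤ) : dn (k : ℝ) = 0 := by
  unfold dn
  rw [round_intCast, sub_self, abs_zero]

lemma dn_eq_of_lt {x : ℝ} {k : ℤ} (h : |x - k| < 1 / 2) : dn x = |x - k| := by
  have h1 : round x = k := by
    have h2 : |x - round x| ≤ 1 / 2 := abs_sub_round x
    have h3 : |((round x - k : ℤ) : ℝ)| < 1 := by
      have e : ((round x - k : ℤ) : ℝ) = (x - k) - (x - round x) := by push_cast; ring
      rw [e]
      calc |x - k - (x - round x)| ≤ |x - k| + |x - round x| := abs_sub _ _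
        _ < 1 := by linarith
    have h4 : |round x - k| < 1 := by exact_mod_cast h3
    have h5 := Int.abs_lt_one_iff.1 h4
    omega
  unfold dn
  rw [h1]

/-- exact multiplication -/
lemma dn_mul_eq (n : ℕ) (x : ℝ) (h : n * dn x < 1 / 2) : dn (n * x) = n * dn x := by
  have e : |(n : ℝ) * x - (((n : ℤ) * round x : ℤ) : ℝ)| = n * dn x := by
    have e : (n : ℝ) * x - (((n : ℤ) * round x : ℤ) : ℝ) = n * (x - round x) := by
      push_cast; ring
    rw [e, abs_mul, abs_of_nonneg (Nat.cast_nonneg n)]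
    rfl
  rw [← e]
  exact dn_eq_of_lt (by rw [e]; exact h)

/-- rational numbers which are very close to an integer are integers -/
lemma dvd_of_dn_lt {c : ℤ} {q : ℕ} (hq : 0 < q) (h : dn ((c : ℝ) / q) < 1 / q) : (q : ℤ) ∣ c := by
  have hq0 : (0 : ℝ) < q := by exact_mod_cast hq
  unfold dn at h
  have e : (c : ℝ) / q - round ((c : ℝ) / q) = ((c - q * round ((c : ℝ) / q) : ℤ) : ℝ) / q := by
    push_cast
    field_simp
  rw [e, abs_div, abs_of_pos hq0, div_lt_div_iff_of_pos_right hq0] at h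
  have h1 : |c - q * round ((c : ℝ) / q)| < 1 := by exact_mod_cast h
  have h2 := Int.abs_lt_one_iff.1 h1
  exact ⟨round ((c : ℝ) / q), by omega⟩

lemma le_dn_of_not_dvd {c : ℤ} {q : ℕ} (hq : 0 < q) (h : ¬ (q : ℤ) ∣ c) : 1 / (q : ℝ) ≤ dn ((c : ℝ) / q) := by
  by_contra h1
  push Not at h1
  exact h (dvd_of_dn_lt hq h1)

/-! ### one digit -/

lemma norm_one_add_ee (y : ℝ) : ‖1 + ee y‖ ≤ 2 - 4 * dn y ^ 2 := by
  have h1 : ‖(1 : ℂ) + ee y‖ ^ 2 + ‖ee y - 1‖ ^ 2 = 4 := by
    have h2 := parallelogram_law_with_norm ℝ (ee y) (1 : ℂ)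
    rw [ls_norm_ee, norm_one, add_comm (ee y) 1] at h2
    nlinarith
  have h3 : 2 * dn y ≤ |Real.sin (Real.pi * y)| := by
    set t := y - round y with ht
    have h4 : |Real.sin (Real.pi * y)| = |Real.sin (Real.pi * t)| := by
      have e : Real.pi * y = Real.pi * t + (round y : ℤ) * Real.pi := by rw [ht]; ring
      rw [e, Real.sin_add_int_mul_pi, abs_mul]
      have : |((-1 : ℝ)) ^ (round y)| = 1 := by
        rw [abs_zpow, abs_neg, abs_one, one_zpow]
      rw [this, one_mul]
    rw [h4]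
    have h5 : |t| ≤ 1 / 2 := abs_sub_round y
    have h6 : dn y = |t| := rfl
    rw [h6]
    have h7 : |Real.sin (Real.pi * t)| = Real.sin (Real.pi * |t|) := by
      rcases le_total 0 t with h | h
      · rw [abs_of_nonneg h, abs_of_nonneg]
        apply Real.sin_nonneg_of_nonneg_of_le_pi
        · positivity
        · rw [abs_of_nonneg h] at h5
          nlinarith [Real.pi_pos]
      · rw [abs_of_nonpos h, mul_neg, Real.sin_neg, abs_of_nonpos]
        rw [← neg_neg (Real.sin (Real.pi * t)), ← Real.sin_neg, neg_nonpos, ← mul_neg]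
        apply Real.sin_nonneg_of_nonneg_of_le_pi
        · have : 0 ≤ -t := by linarith
          positivity
        · rw [abs_of_nonpos h] at h5
          nlinarith [Real.pi_pos]
    rw [h7]
    have h8 := Real.mul_le_sin (x := Real.pi * |t|) (by positivity) (by nlinarith [Real.pi_pos])
    have h9 : 2 / Real.pi * (Real.pi * |t|) = 2 * |t| := by
      field_simp
    linarith
  rw [ls_norm_ee_sub_one, sq_abs] at h1
  have h4 : (2 * dn y) ^ 2 ≤ Real.sin (Real.pi * y) ^ 2 := by
    rw [← sq_abs (Real.sin _)]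
    exact pow_le_pow_left₀ (by have := dn_nonneg y; linarith) h3 2
  have h5 := dn_le_half y
  have h6 := dn_nonneg y
  have h7 : ‖(1 : ℂ) + ee y‖ ^ 2 ≤ (2 - 4 * dn y ^ 2) ^ 2 := by nlinarith
  have h8 : 0 ≤ 2 - 4 * dn y ^ 2 := by nlinarith
  exact (pow_le_pow_iff_left₀ (norm_nonneg _) h8 (by norm_num)).1 h7

/-- the normalised exponential sum over a digit set -/
noncomputable def sd (D : Finset ℕ) (x : ℝ) : ℝ := ‖∑ m ∈ D, ee (m * x)‖ / D.card

lemma sd_nonneg (D : Finset ℕ) (x : ℝ) : 0 ≤ sd D x := by unfold sd; positivity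

lemma sd_le_one (D : Finset ℕ) (x : ℝ) : sd D x ≤ 1 := by
  unfold sd
  rcases Nat.eq_zero_or_pos D.card with h | h
  · rw [h]; simp
  · rw [div_le_one (by exact_mod_cast h)]
    refine (norm_sum_le _ _).trans ?_
    simp [ls_norm_ee]

lemma sd_add_int (D : Finset ℕ) (x : ℝ) (k : ℤ) : sd D (x + k) = sd D x := by
  unfold sd
  congr 2
  refine sum_congr rfl fun m _ => ?_
  have e : (m : ℝ) * (x + k) = m * x + ((m * k : ℤ) : ℝ) := by push_cast; ring
  rw [e, ls_ee_add, ls_ee_int, mul_one]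

/-- the saving at a bad index -/
noncomputable def rho (η : ℝ) : ℝ := 1 - 2 / 5 * (η / 2520) ^ 2

lemma rho_lt_one {η : ℝ} (h : 0 < η) : rho η < 1 := by
  unfold rho
  have : 0 < 2 / 5 * (η / 2520) ^ 2 := by positivity
  linarith

lemma rho_pos {η : ℝ} (h0 : 0 < η) (h : η ≤ 1) : 0 < rho η := by
  unfold rho
  have : 2 / 5 * (η / 2520) ^ 2 < 1 := by nlinarith
  linarith

lemma dvd_2520 {d : ℕ} (h1 : 1 ≤ d) (h2 : d < 10) : d ∣ 2520 := by
  interval_cases d <;> decide

lemma sd_bad {D : Finset ℕ} (hD : D ⊆ range 10) (h2 : 2 ≤ D.card) {η x : ℝ} (hη : 0 < η)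
    (hx : η ≤ dn (2520 * x)) : sd D x ≤ rho η := by
  obtain ⟨a, ha, b, hb, hab⟩ : ∃ a ∈ D, ∃ b ∈ D, a < b := by
    obtain ⟨a, ha, b, hb, hne⟩ := Finset.one_lt_card.1 (by omega : 1 < D.card)
    rcases lt_or_gt_of_ne hne with h | h
    · exact ⟨a, ha, b, hb, h⟩
    · exact ⟨b, hb, a, ha, h⟩
  have hb10 := mem_range.1 (hD hb)
  obtain ⟨e, he⟩ := dvd_2520 (d := b - a) (by omega) (by omega)
  have he0 : e ≤ 2520 := by
    have : 1 ≤ b - a := by omega
    calc e = 1 * e := by ring
      _ ≤ (b - a) * e := Nat.mul_le_mul_right _ this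
      _ = 2520 := he.symm
  have h3 : η / 2520 ≤ dn ((b - a : ℕ) * x) := by
    have h4 : (2520 : ℝ) * x = e * ((b - a : ℕ) * x) := by
      have : ((2520 : ℕ) : ℝ) = ((b - a : ℕ) : ℝ) * e := by exact_mod_cast he
      push_cast at this
      rw [this]; ring
    rw [h4] at hx
    have h5 := hx.trans (dn_mul_le e _)
    have h6 : (e : ℝ) * dn (((b - a : ℕ) : ℝ) * x) ≤ 2520 * dn (((b - a : ℕ) : ℝ) * x) :=
      mul_le_mul_of_nonneg_right (by exact_mod_cast he0) (dn_nonneg _)
    rw [div_le_iff₀ (by norm_num)]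
    linarith
  have hcard : D.card ≤ 10 := by
    have := card_le_card hD
    rwa [card_range] at this
  have hc0 : (0 : ℝ) < D.card := by exact_mod_cast (by omega : 0 < D.card)
  have hc10 : (D.card : ℝ) ≤ 10 := by exact_mod_cast hcard
  -- the sum of two terms
  have h7 : ‖ee (a * x) + ee (b * x)‖ ≤ 2 - 4 * (η / 2520) ^ 2 := by
    have e1 : ee (a * x) + ee (b * x) = ee (a * x) * (1 + ee ((b - a : ℕ) * x)) := by
      rw [mul_add, mul_one, ← ls_ee_add]
      congr 2
      rw [Nat.cast_sub hab.le]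
      ring
    rw [e1, norm_mul, ls_norm_ee, one_mul]
    refine (norm_one_add_ee _).trans ?_
    have := pow_le_pow_left₀ (by positivity) h3 2
    linarith
  have h8 : ‖∑ m ∈ D, ee (m * x)‖ ≤ D.card - 4 * (η / 2520) ^ 2 := by
    have hb' : b ∈ D.erase a := mem_erase.2 ⟨by omega, hb⟩
    rw [← Finset.add_sum_erase D _ ha, ← Finset.add_sum_erase (D.erase a) _ hb', ← add_assoc]
    refine (norm_add_le _ _).trans ?_
    have h9 : ‖∑ m ∈ (D.erase a).erase b, ee (m * x)‖ ≤ (D.card : ℝ) - 2 := by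
      refine (norm_sum_le _ _).trans ?_
      simp only [ls_norm_ee, sum_const, nsmul_eq_mul, mul_one]
      rw [card_erase_of_mem hb', card_erase_of_mem ha]
      have : D.card - 1 - 1 = D.card - 2 := by omega
      rw [this, Nat.cast_sub h2]
      norm_num
    linarith
  unfold sd rho
  rw [div_le_iff₀ hc0]
  have h9 : 0 ≤ (η / 2520) ^ 2 := by positivity
  nlinarith

end Pool.Agent.L5helper11.PD
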