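import Pool.Agent.L5helper11.PD.BigC

/-!
# Palindromes with digits from prescribed digit sets: all denominators; single denominators
-/

set_option autoImplicit false

namespace Pool.Agent.L5helper11.PD

open Finset Pool.Agent.Helper112

/-- all denominators up to the square root of the number of palindromes -/
theorem big {κ κX : ℝ} (hκ : 0 < κ) (hκX : 2 * κ < κX) (hX1 : κX ≤ 1) :
    ∃ C δ : ℝ, 0 < C ∧ 0 < δ ∧ δ ≤ 1 / 2 ∧ ∀ (N : ℕ) (D : ℕ → Finset ℕ), Good N D →
      (10 : ℝ) ^ (κX * N) ≤ (XX N D : ℝ) → ∀ Q : ℕ, 1 ≤ Q → (Q : ℝ) ≤ (10 : ℝ) ^ (κ * N) →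
      ∑ x ∈ PQ Q, FF N D (range (N + 1)) (fra x) ≤ C * (Q : ℝ) ^ (1 - δ) := by
  classical
  obtain ⟨CB, ν, hCB, hB⟩ := regB
  set ε4 : ℝ := 1 / (2 * ν + 2) with hε4
  have hε40 : 0 < ε4 := by rw [hε4]; positivity
  obtain ⟨CC, δ, N0, hCC, hδ, hδ1, hC⟩ := regC hκ hκX hX1 hε40
  set N1 : ℕ := N0 + 2 * (1 + 4 * ν) + 2 with hN1
  refine ⟨CB + CC + 42 * (10 : ℝ) ^ (N1 * 2), δ, by positivity, hδ, hδ1, fun N D hD hX Q hQ hQ2 => ?_⟩
  have hQ0 : (0 : ℝ) < Q := by exact_mod_cast hQ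
  have hQ1 : (1 : ℝ) ≤ Q := by exact_mod_cast hQ
  have hQδ : (1 : ℝ) ≤ (Q : ℝ) ^ (1 - δ) := Real.one_le_rpow hQ1 (by linarith)
  have hB0 : 0 ≤ CB * (Q : ℝ) ^ (1 - δ) := by positivity
  have hC0 : 0 ≤ CC * (Q : ℝ) ^ (1 - δ) := by positivity
  have hN0 : (0 : ℝ) ≤ N := Nat.cast_nonneg _
  rcases lt_or_ge N N1 with h | h
  · -- small `N`
    have h1 : ∑ x ∈ PQ Q, FF N D (range (N + 1)) (fra x) ≤ 42 * (Q : ℝ) ^ 2 := by
      refine (Finset.sum_le_sum fun x _ => FF_le_one N D (range (N + 1)) (fra x)).trans ?_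
      rw [Finset.sum_const, nsmul_eq_mul, mul_one]
      exact_mod_cast card_PQ Q
    have h2 : (Q : ℝ) ≤ (10 : ℝ) ^ N1 := by
      refine hQ2.trans ?_
      rw [← Real.rpow_natCast]
      apply Real.rpow_le_rpow_of_exponent_le (by norm_num)
      have h3 : (N : ℝ) ≤ N1 := by exact_mod_cast h.le
      calc κ * N ≤ 1 * N := mul_le_mul_of_nonneg_right (by linarith) hN0
        _ ≤ N1 := by linarith
    have h3 : (Q : ℝ) ^ 2 ≤ (10 : ℝ) ^ (N1 * 2) := by
      rw [pow_mul]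
      exact pow_le_pow_left₀ hQ0.le h2 2
    have h4 : 42 * (10 : ℝ) ^ (N1 * 2) * 1 ≤ 42 * (10 : ℝ) ^ (N1 * 2) * (Q : ℝ) ^ (1 - δ) :=
      mul_le_mul_of_nonneg_left hQδ (by positivity)
    nlinarith
  · rcases lt_or_ge (Real.exp (ε4 * N)) (Q : ℝ) with h5 | h5
    · have h1 := hC N D (by omega) hD hX Q hQ h5.le hQ2
      have h4 : 0 ≤ 42 * (10 : ℝ) ^ (N1 * 2) * (Q : ℝ) ^ (1 - δ) := by positivity
      nlinarith
    · have h6 : Real.log Q ≤ ε4 * N := by
        rw [← Real.log_exp (ε4 * N)]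
        exact Real.log_le_log hQ0 h5
      have h7 := len_le hQ
      have h8 : ((1 + (len Q + 2) * ν : ℕ) : ℝ) ≤ N := by
        have h9 : (N1 : ℝ) ≤ N := by exact_mod_cast h
        rw [hN1] at h9
        push_cast at h9 ⊢
        have h10 : ((len Q : ℝ) + 2) * ν ≤ (4 + ε4 * N) * ν :=
          mul_le_mul_of_nonneg_right (by linarith) (Nat.cast_nonneg _)
        have h11 : ε4 * N * ν ≤ N / 2 := by
          rw [hε4]
          have e : 1 / (2 * (ν : ℝ) + 2) * N * ν = N * (ν / (2 * ν + 2)) := by ring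
          rw [e]
          have : (ν : ℝ) / (2 * ν + 2) ≤ 1 / 2 := by
            rw [div_le_div_iff₀ (by positivity) (by norm_num)]
            linarith
          have := mul_le_mul_of_nonneg_left this hN0
          linarith
        have h12 : (0 : ℝ) ≤ N0 := Nat.cast_nonneg _
        nlinarith
      have h1 := hB N Q D hD hQ (by exact_mod_cast h8)
      have h2 : (Q : ℝ) ^ (1 / 2 : ℝ) ≤ (Q : ℝ) ^ (1 - δ) :=
        Real.rpow_le_rpow_of_exponent_le hQ1 (by linarith)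
      have h3 := mul_le_mul_of_nonneg_left h2 hCB.le
      have h4 : 0 ≤ 42 * (10 : ℝ) ^ (N1 * 2) * (Q : ℝ) ^ (1 - δ) := by positivity
      nlinarith

/-! ### single denominators -/

lemma eleven_wt {N i : ℕ} (h : i < N) : ¬ 11 ∣ wt N i := by
  have h1 : (wt N i : ZMod 11) ≠ 0 := by
    unfold wt
    rw [if_pos h]
    push_cast
    have e10 : (10 : ZMod 11) = -1 := by decide
    have e : (10 : ZMod 11) ^ (2 * N - i) = (10 : ZMod 11) ^ i := by
      obtain ⟨k, hk⟩ : ∃ k, 2 * N - i = i + 2 * k := ⟨N - i, by omega⟩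
      rw [hk, pow_add, pow_mul, e10]
      simp
    rw [e, e10]
    rcases neg_one_pow_eq_or (ZMod 11) i with h2 | h2
    · rw [h2]; decide
    · rw [h2]; decide
  intro h2
  exact h1 ((ZMod.natCast_eq_zero_iff _ _).2 h2)

/-- every long block contains a bad index -/
lemma window {N i n q h : ℕ} (hq : 1 < q) (hc : q.Coprime 210) (hh : h.Coprime q) (hqn : q ≤ 10 ^ n)
    (hN : i + (n + 1) < N) : 1 ≤ (bad N i 1 (n + 2) (1 / mm 1) (fra (q, h))).card := by
  classical
  by_contra hcon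
  have h0 : bad N i 1 (n + 2) (1 / mm 1) (fra (q, h)) = ∅ := card_eq_zero.1 (by omega)
  have hgood : ∀ j : ℕ, j ≤ n + 1 → dn (phs N (i + 1 * j) (fra (q, h))) < 1 / mm 1 := by
    intro j hj
    by_contra h1
    rw [not_lt] at h1
    have : (⟨j, by omega⟩ : Fin (n + 2)) ∈ bad N i 1 (n + 2) (1 / mm 1) (fra (q, h)) := by
      unfold bad
      rw [mem_filter]
      exact ⟨mem_univ _, h1⟩
    rw [h0] at this
    simp at this
  have hq0 : 0 < q := by omega
  have hqR : (0 : ℝ) < q := by exact_mod_cast hq0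
  have hmm1 : (mm 1 : ℝ) = 484 := by unfold mm; norm_num
  rw [hmm1] at hgood
  -- rigidity
  have h1 := rigid (N := N) (i := i) (s := 1) (n := n) (ε := 1 / 484) (by omega) (2520 * fra (q, h))
    (by norm_num) (fun j hj => by
      have h2 := (hgood j hj).le
      have e : phs N (i + 1 * j) (fra (q, h)) = wt N (i + 1 * j) * (2520 * fra (q, h)) := by
        unfold phs; ring
      rw [e] at h2
      exact h2)
  have e1 : (((10 ^ (2 * 1) - 1 : ℕ) : ℝ) * 10 ^ i) * (2520 * fra (q, h)) =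
      ((((10 ^ i : ℕ) : ℤ) * (((99 * 120 : ℕ) : ℤ) * (h : ℤ)) : ℤ) : ℝ) / (q : ℝ) := by
    unfold fra
    push_cast
    field_simp
    norm_num
    ring
  rw [e1] at h1
  have h2 := dvd_of_dn_lt hq0 (c := ((10 ^ i : ℕ) : ℤ) * (((99 * 120 : ℕ) : ℤ) * (h : ℤ))) (by
    rw [lt_div_iff₀ hqR, mul_comm]
    have hqn' : (q : ℝ) ≤ ((10 ^ 1 : ℕ) : ℝ) ^ n := by
      push_cast
      norm_num
      exact_mod_cast hqn
    refine lt_of_le_of_lt (mul_le_mul_of_nonneg_right hqn' (dn_nonneg _)) ?_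
    refine lt_of_le_of_lt h1 ?_
    norm_num)
  have h3 : q ∣ 10 ^ i * ((99 * 120) * h) := by
    have : (q : ℤ) ∣ ((10 ^ i * ((99 * 120) * h) : ℕ) : ℤ) := by
      push_cast
      push_cast at h2
      exact h2
    exact_mod_cast this
  have h4 : q ∣ (99 * 120) * h := (Nat.Coprime.pow_right i (coprime_ten hc)).dvd_of_dvd_mul_left h3
  have h5 : q ∣ 99 * 120 := hh.symm.dvd_of_dvd_mul_right h4
  have h6 : q ∣ 11 := by
    have e : 99 * 120 = 11 * 1080 := by norm_num
    rw [e] at h5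
    have hc2 : q.Coprime 1080 := by
      have h7 : q.Coprime 2 := Nat.Coprime.coprime_dvd_right ⟨105, by norm_num⟩ hc
      have h8 : q.Coprime 3 := Nat.Coprime.coprime_dvd_right ⟨70, by norm_num⟩ hc
      have h9 : q.Coprime 5 := Nat.Coprime.coprime_dvd_right ⟨42, by norm_num⟩ hc
      have e2 : 1080 = 2 ^ 3 * 3 ^ 3 * 5 := by norm_num
      rw [e2]
      exact Nat.Coprime.mul_right (Nat.Coprime.mul_right (h7.pow_right 3) (h8.pow_right 3)) h9
    exact hc2.dvd_of_dvd_mul_right h5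
  have h7 : q = 11 := by
    rcases (Nat.dvd_prime (by norm_num : Nat.Prime 11)).1 h6 with h8 | h8
    · omega
    · exact h8
  subst h7
  -- the denominator `11`
  have h8 := hgood 0 (by omega)
  have e2 : phs N (i + 1 * 0) (fra (11, h)) = (((wt N i * (120 * h) : ℕ) : ℤ) : ℝ) / ((11 : ℕ) : ℝ) := by
    unfold phs fra
    push_cast
    rw [add_zero]
    ring
  rw [e2] at h8
  have h9 : ¬ (((11 : ℕ) : ℤ)) ∣ ((wt N i * (120 * h) : ℕ) : ℤ) := by
    intro h10
    have h11 : 11 ∣ wt N i * (120 * h) := by exact_mod_cast h10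
    rcases (Nat.Prime.dvd_mul (by norm_num)).1 h11 with h12 | h12
    · exact eleven_wt (by omega) h12
    · rcases (Nat.Prime.dvd_mul (by norm_num)).1 h12 with h13 | h13
      · norm_num at h13
      · have := Nat.dvd_gcd h13 (dvd_refl 11)
        rw [hh] at this
        norm_num at this
  have h10 := le_dn_of_not_dvd (by norm_num : 0 < 11) h9
  have h11 : (1 : ℝ) / ((11 : ℕ) : ℝ) < 1 / 484 := lt_of_le_of_lt h10 h8
  norm_num at h11

/-- the saving for a single denominator -/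
noncomputable def rh : ℝ := rho (1 / mm 1)

lemma rh_pos : 0 < rh := by
  have hmm : (1 : ℝ) ≤ (mm 1 : ℝ) := by exact_mod_cast mm_pos 1
  exact rho_pos (by positivity) (by rw [div_le_one (by linarith)]; exact hmm)

lemma rh_lt_one : rh < 1 := by
  have hmm : (1 : ℝ) ≤ (mm 1 : ℝ) := by exact_mod_cast mm_pos 1
  exact rho_lt_one (by positivity)

/-- the bound for a single denominator -/
theorem single {N q h n : ℕ} {D : ℕ → Finset ℕ} (hD : Good N D) (hq : 1 < q) (hc : q.Coprime 210)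
    (hh : h.Coprime q) (hqn : q ≤ 10 ^ n) :
    FF N D (range (N + 1)) (fra (q, h)) ≤ rh ^ ((N - 1) / (n + 2)) := by
  set ν := (N - 1) / (n + 2) with hν
  have h1 : (n + 2) * ν ≤ N - 1 := Nat.mul_div_le _ _
  rcases Nat.eq_zero_or_pos ν with h0 | h0
  · rw [h0, pow_zero]
    exact FF_le_one _ _ _ _
  have h2 : (n + 2) * ν ≥ n + 2 := Nat.le_mul_of_pos_right _ h0
  have h3 : FF N D (range (N + 1)) (fra (q, h)) ≤ FF N D (Ico 1 (1 + (n + 2) * ν)) (fra (q, h)) := by
    apply FF_anti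
    intro i hi
    rw [mem_Ico] at hi
    rw [mem_range]
    omega
  refine h3.trans ?_
  rw [FF_blocks]
  refine (Finset.prod_le_prod (fun _ _ => FF_nonneg _ _ _ _) fun b hb => ?_).trans
    (le_of_eq (by rw [Finset.prod_const, card_range]))
  have hbν := mem_range.1 hb
  have hblk : 1 + (n + 2) * (b + 1) ≤ N := by
    have : (n + 2) * (b + 1) ≤ (n + 2) * ν := Nat.mul_le_mul_left _ (by omega)
    omega
  have e : (n + 2) * (b + 1) = (n + 2) * b + (n + 2) := by ring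
  have hmm : (1 : ℝ) ≤ (mm 1 : ℝ) := by exact_mod_cast mm_pos 1
  have h4 := FF_bad (N := N) (i := 1 + (n + 2) * b) (s := 1) (l := n + 2) hD le_rfl (by omega)
    (Ico (1 + (n + 2) * b) (1 + (n + 2) * (b + 1)))
    (by intro j hj; rw [mem_Ico]; omega)
    (by intro j hj; omega) (η := 1 / mm 1) (by positivity) (fra (q, h))
  refine h4.trans ?_
  have h5 := window (N := N) (i := 1 + (n + 2) * b) hq hc hh hqn (by omega)
  calc rho (1 / mm 1) ^ (bad N (1 + (n + 2) * b) 1 (n + 2) (1 / mm 1) (fra (q, h))).card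
      ≤ rh ^ 1 := pow_le_pow_of_le_one rh_pos.le rh_lt_one.le h5
    _ = rh := pow_one _

end Pool.Agent.L5helper11.PD
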