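import Pool.Agent.L5helper11.PD.L2

/-!
# Palindromes with digits from prescribed digit sets: the product bound and small denominators
-/

set_option autoImplicit false

namespace Pool.Agent.L5helper11.PD

open Finset

/-- the digit sets: at least two digits in every inner place -/
structure Good (N : ℕ) (D : ℕ → Finset ℕ) : Prop where
  sub : ∀ i, D i ⊆ range 10
  ne : ∀ i, i ≤ N → (D i).Nonempty
  two : ∀ i, 1 ≤ i → i < N → 2 ≤ (D i).card

/-- the product bound -/
lemma FF_bad {N i s l : ℕ} {D : ℕ → Finset ℕ} (hD : Good N D) (hs : 1 ≤ s) (hi : 1 ≤ i) (B : Finset ℕ)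
    (hB : ∀ j < l, i + s * j ∈ B) (hN : ∀ j < l, i + s * j < N) {η : ℝ} (hη : 0 < η) (θ : ℝ) :
    FF N D B θ ≤ rho η ^ (bad N i s l η θ).card := by
  classical
  have hinj : Function.Injective (fun j : Fin l => i + s * (j : ℕ)) := by
    intro a b hab
    simp only at hab
    have h1 : s * (a : ℕ) = s * (b : ℕ) := by omega
    exact Fin.ext (Nat.eq_of_mul_eq_mul_left (by omega) h1)
  have h1 : (bad N i s l η θ).map ⟨_, hinj⟩ ⊆ B := by
    intro x hx
    rw [mem_map] at hx
    obtain ⟨j, _, rfl⟩ := hx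
    exact hB j j.2
  refine (FF_anti h1 θ).trans ?_
  unfold FF
  rw [Finset.prod_map]
  refine (Finset.prod_le_prod (fun _ _ => sd_nonneg _ _) fun j hj => ?_).trans
    (le_of_eq (Finset.prod_const (rho η)))
  have h2 : η ≤ dn (phs N (i + s * (j : ℕ)) θ) := by
    unfold bad at hj
    exact (mem_filter.1 hj).2
  exact sd_bad (hD.sub _) (hD.two _ (by
    change 1 ≤ i + s * (j : ℕ)
    omega) (hN j j.2)) hη h2

/-- blocks -/
lemma FF_blocks {N : ℕ} {D : ℕ → Finset ℕ} (l ν : ℕ) (θ : ℝ) :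
    FF N D (Ico 1 (1 + l * ν)) θ = ∏ b ∈ range ν, FF N D (Ico (1 + l * b) (1 + l * (b + 1))) θ := by
  induction ν with
  | zero => simp [FF]
  | succ ν ih =>
    rw [Finset.prod_range_succ, ← ih]
    unfold FF
    exact (Finset.prod_Ico_consecutive _ (by omega) (by
      have : l * ν ≤ l * (ν + 1) := Nat.mul_le_mul_left _ (by omega)
      omega)).symm

/-- the number of patterns with few non-zero entries -/
lemma few_bound (m : ℕ) {a : ℝ} (ha : 0 < a) : ∃ y ε : ℝ, 0 < y ∧ y ≤ 1 ∧ 0 < ε ∧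
    ∀ l R : ℕ, (R : ℝ) ≤ ε * l → (1 + m * y) ^ l / y ^ R ≤ Real.exp (a * l) := by
  set y : ℝ := min (1 / 2) (a / (2 * (m + 1))) with hy
  have hy0 : 0 < y := by rw [hy]; positivity
  have hy1 : y ≤ 1 / 2 := min_le_left _ _
  have hy2 : y ≤ a / (2 * (m + 1)) := min_le_right _ _
  have hlog : 0 < -Real.log y := by
    have := Real.log_neg hy0 (by linarith)
    linarith
  refine ⟨y, a / (2 * (-Real.log y)), hy0, by linarith, by positivity, fun l R hR => ?_⟩
  have h1 : (1 + m * y) ^ l ≤ Real.exp (a / 2 * l) := by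
    have h2 : m * y ≤ a / 2 := by
      rw [le_div_iff₀ (by positivity)] at hy2
      have : 0 ≤ y := hy0.le
      nlinarith
    have h3 : 1 + m * y ≤ Real.exp (a / 2) := by
      have := Real.add_one_le_exp (a / 2)
      linarith
    calc (1 + m * y) ^ l ≤ (Real.exp (a / 2)) ^ l := pow_le_pow_left₀ (by positivity) h3 l
      _ = _ := by rw [← Real.exp_nat_mul]; congr 1; ring
  have h2 : Real.exp (-(a / 2 * l)) ≤ y ^ R := by
    have e : y ^ R = Real.exp (R * Real.log y) := by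
      rw [mul_comm, Real.exp_mul, Real.exp_log hy0, Real.rpow_natCast]
    rw [e]
    apply Real.exp_le_exp.2
    have h3 : (R : ℝ) * (-Real.log y) ≤ a / (2 * (-Real.log y)) * l * (-Real.log y) :=
      mul_le_mul_of_nonneg_right hR hlog.le
    have h4 : a / (2 * (-Real.log y)) * l * (-Real.log y) = a / 2 * l := by
      have hne : -Real.log y ≠ 0 := hlog.ne'
      generalize -Real.log y = z at hne
      field_simp
    linarith
  rw [div_le_iff₀ (by positivity)]
  calc (1 + m * y) ^ l ≤ Real.exp (a / 2 * l) := h1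
    _ = Real.exp (a * l) * Real.exp (-(a / 2 * l)) := by rw [← Real.exp_add]; congr 1; ring
    _ ≤ Real.exp (a * l) * y ^ R := mul_le_mul_of_nonneg_left h2 (Real.exp_pos _).le

lemma log_ten : (2 : ℝ) < Real.log 10 := by
  have h : (10 : ℝ) = 2 * 5 := by norm_num
  rw [Real.lt_log_iff_exp_lt (by norm_num)]
  have h1 := Real.exp_one_lt_d9
  have h2 : Real.exp 2 = Real.exp 1 * Real.exp 1 := by rw [← Real.exp_add]; norm_num
  rw [h2]
  have h3 := Real.exp_pos 1
  nlinarith

lemma log_ten_lt : Real.log 10 < 3 := by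
  rw [Real.log_lt_iff_lt_exp (by norm_num)]
  have h1 := Real.exp_one_gt_d9
  have h2 : Real.exp 3 = Real.exp 1 * Real.exp 1 * Real.exp 1 := by rw [← Real.exp_add, ← Real.exp_add]; norm_num
  rw [h2]
  have h3 : (2.7 : ℝ) * 2.7 ≤ Real.exp 1 * Real.exp 1 := by nlinarith
  nlinarith

/-- the length of a block -/
def len (Q : ℕ) : ℕ := Nat.clog 10 (4 * Q ^ 2)

lemma len_spec (Q : ℕ) : 4 * Q ^ 2 ≤ (10 ^ 1) ^ len Q := by
  rw [pow_one]
  exact Nat.le_pow_clog (by norm_num) _

lemma len_le {Q : ℕ} (hQ : 1 ≤ Q) : (len Q : ℝ) ≤ 2 + Real.log Q := by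
  have hQ2 : 1 ≤ Q ^ 2 := Nat.one_le_pow _ _ hQ
  have h1 : 10 ^ (len Q).pred < 4 * Q ^ 2 := Nat.pow_pred_clog_lt_self (by norm_num) (by omega)
  have h2 : (10 : ℝ) ^ (len Q).pred < 4 * (Q : ℝ) ^ 2 := by exact_mod_cast h1
  have hQ0 : (0 : ℝ) < Q := by exact_mod_cast hQ
  have h3 := Real.log_lt_log (by positivity) h2
  rw [Real.log_pow, Real.log_mul (by norm_num) (by positivity), Real.log_pow] at h3
  have h4 : (len Q : ℝ) ≤ (len Q).pred + 1 := by
    have : len Q ≤ (len Q).pred + 1 := by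
      rw [Nat.pred_eq_sub_one]
      omega
    exact_mod_cast this
  have h5 : Real.log 4 ≤ 2 := by
    have : Real.log 4 ≤ Real.log 10 := Real.log_le_log (by norm_num) (by norm_num)
    have h6 : Real.log 4 = 2 * Real.log 2 := by
      have : (4 : ℝ) = 2 ^ 2 := by norm_num
      rw [this, Real.log_pow]
      norm_num
    have := Real.log_two_lt_d9
    linarith
  have h6 : 0 ≤ Real.log Q := Real.log_natCast_nonneg Q
  have h7 := log_ten
  have h8 : (0 : ℝ) ≤ ((len Q).pred : ℝ) := Nat.cast_nonneg _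
  push_cast at h3
  nlinarith

lemma le_len {Q : ℕ} (hQ : 1 ≤ Q) : 2 * Real.log Q ≤ Real.log 10 * len Q := by
  have h1 := len_spec Q
  rw [pow_one] at h1
  have h2 : 4 * (Q : ℝ) ^ 2 ≤ (10 : ℝ) ^ len Q := by exact_mod_cast h1
  have hQ0 : (0 : ℝ) < Q := by exact_mod_cast hQ
  have h3 := Real.log_le_log (by positivity) h2
  rw [Real.log_pow, Real.log_mul (by norm_num) (by positivity), Real.log_pow] at h3
  have h4 : 0 ≤ Real.log 4 := Real.log_nonneg (by norm_num)
  push_cast at h3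
  linarith

/-- small denominators -/
theorem regB : ∃ (C : ℝ) (ν : ℕ), 0 < C ∧ ∀ (N Q : ℕ) (D : ℕ → Finset ℕ), Good N D → 1 ≤ Q →
    1 + (len Q + 2) * ν ≤ N →
    ∑ x ∈ PQ Q, FF N D (range (N + 1)) (fra x) ≤ C * (Q : ℝ) ^ (1 / 2 : ℝ) := by
  classical
  obtain ⟨y, ε, hy0, hy1, hε, hfew⟩ := few_bound (mm 1) (a := 1 / 2) (by norm_num)
  set η : ℝ := 1 / mm 1 with hη
  have hmm : (1 : ℝ) ≤ (mm 1 : ℝ) := by exact_mod_cast mm_pos 1
  have hη0 : 0 < η := by rw [hη]; positivity
  have hη1 : η ≤ 1 := by rw [hη, div_le_one (by linarith)]; exact hmm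
  have hρ0 := rho_pos hη0 hη1
  have hρ1 := rho_lt_one hη0
  set Λ : ℝ := -Real.log (rho η) with hΛ
  have hΛ0 : 0 < Λ := by
    have := Real.log_neg hρ0 hρ1
    rw [hΛ]; linarith
  obtain ⟨ν, hν⟩ := exists_nat_ge (Real.log 10 / (ε * Λ))
  set C1 : ℝ := ((42 * (120 * (10 ^ (2 * 1) - 1)) + 1 : ℕ) : ℝ) with hC1
  refine ⟨ν * (C1 * Real.exp 2) + 42, ν, by positivity, fun N Q D hD hQ hN => ?_⟩
  have hQ0 : (0 : ℝ) < Q := by exact_mod_cast hQ
  have hQ1 : (1 : ℝ) ≤ Q := by exact_mod_cast hQ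
  have hlQ : 0 ≤ Real.log Q := Real.log_natCast_nonneg Q
  set n := len Q with hn
  set R : ℕ := ⌊ε * ((n + 2 : ℕ) : ℝ)⌋₊ with hR
  have hRle : (R : ℝ) ≤ ε * ((n + 2 : ℕ) : ℝ) := Nat.floor_le (by positivity)
  have hRlt : ε * ((n + 2 : ℕ) : ℝ) < R + 1 := Nat.lt_floor_add_one _
  have hblk : ∀ b < ν, 1 + (n + 2) * (b + 1) ≤ N := by
    intro b hb
    have : (n + 2) * (b + 1) ≤ (n + 2) * ν := Nat.mul_le_mul_left _ (by omega)
    omega
  -- pointwise bound
  have hpt : ∀ x ∈ PQ Q, FF N D (range (N + 1)) (fra x) ≤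
      ∑ b ∈ range ν, (if (bad N (1 + (n + 2) * b) 1 (n + 2) η (fra x)).card ≤ R then (1 : ℝ) else 0) +
        1 / (Q : ℝ) ^ 2 := by
    intro x _
    by_cases hex : ∃ b ∈ range ν, (bad N (1 + (n + 2) * b) 1 (n + 2) η (fra x)).card ≤ R
    · obtain ⟨b, hb, hb2⟩ := hex
      have h1 := FF_le_one N D (range (N + 1)) (fra x)
      have h2 : (1 : ℝ) ≤ ∑ b ∈ range ν,
          (if (bad N (1 + (n + 2) * b) 1 (n + 2) η (fra x)).card ≤ R then (1 : ℝ) else 0) := by
        refine le_trans (le_of_eq ?_) (Finset.single_le_sum (f := fun b =>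
          (if (bad N (1 + (n + 2) * b) 1 (n + 2) η (fra x)).card ≤ R then (1 : ℝ) else 0))
          (fun b _ => by positivity) hb)
        rw [if_pos hb2]
      have h3 : 0 ≤ 1 / (Q : ℝ) ^ 2 := by positivity
      linarith
    · push Not at hex
      have h1 : FF N D (range (N + 1)) (fra x) ≤ FF N D (Ico 1 (1 + (n + 2) * ν)) (fra x) := by
        apply FF_anti
        intro i hi
        rw [mem_Ico] at hi
        rw [mem_range]
        omega
      have h2 : FF N D (Ico 1 (1 + (n + 2) * ν)) (fra x) ≤ (rho η ^ (R + 1)) ^ ν := by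
        rw [FF_blocks]
        refine (Finset.prod_le_prod (fun _ _ => FF_nonneg _ _ _ _) fun b hb => ?_).trans
          (le_of_eq (by rw [Finset.prod_const, card_range]))
        have hbν := mem_range.1 hb
        have h3 := FF_bad (N := N) (i := 1 + (n + 2) * b) (s := 1) (l := n + 2) hD le_rfl (by omega)
          (Ico (1 + (n + 2) * b) (1 + (n + 2) * (b + 1)))
          (by
            intro j hj
            rw [mem_Ico]
            have e : (n + 2) * (b + 1) = (n + 2) * b + (n + 2) := by ring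
            omega)
          (by
            intro j hj
            have h4 := hblk b hbν
            have e : (n + 2) * (b + 1) = (n + 2) * b + (n + 2) := by ring
            omega) hη0 (fra x)
        exact h3.trans (pow_le_pow_of_le_one hρ0.le hρ1.le (hex b hb))
      have h3 : (rho η ^ (R + 1)) ^ ν ≤ 1 / (Q : ℝ) ^ 2 := by
        have e1 : (rho η ^ (R + 1)) ^ ν = Real.exp (-(Λ * ((R + 1) * ν))) := by
          rw [← pow_mul, hΛ, ← Real.rpow_natCast, Real.rpow_def_of_pos hρ0]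
          congr 1
          push_cast
          ring
        have e2 : 1 / (Q : ℝ) ^ 2 = Real.exp (-(2 * Real.log Q)) := by
          rw [Real.exp_neg, mul_comm, Real.exp_mul, Real.exp_log hQ0, one_div]
          norm_num
        rw [e1, e2]
        apply Real.exp_le_exp.2
        rw [neg_le_neg_iff]
        have h4 : Real.log 10 ≤ ν * (ε * Λ) := by
          rwa [div_le_iff₀ (by positivity)] at hν
        have h5 := le_len hQ
        rw [← hn] at h5
        have h6 : (n : ℝ) ≤ ((n + 2 : ℕ) : ℝ) := by push_cast; linarith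
        calc 2 * Real.log Q ≤ Real.log 10 * n := h5
          _ ≤ (ν * (ε * Λ)) * ((n + 2 : ℕ) : ℝ) := by
              apply mul_le_mul h4 h6 (Nat.cast_nonneg _) (by positivity)
          _ = Λ * ((ε * ((n + 2 : ℕ) : ℝ)) * ν) := by ring
          _ ≤ Λ * ((R + 1) * ν) := by
              apply mul_le_mul_of_nonneg_left _ hΛ0.le
              exact mul_le_mul_of_nonneg_right hRlt.le (Nat.cast_nonneg _)
      have h4 : 0 ≤ ∑ b ∈ range ν,
          (if (bad N (1 + (n + 2) * b) 1 (n + 2) η (fra x)).card ≤ R then (1 : ℝ) else 0) :=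
        Finset.sum_nonneg fun b _ => by positivity
      linarith
  refine (Finset.sum_le_sum hpt).trans ?_
  rw [Finset.sum_add_distrib, Finset.sum_const, nsmul_eq_mul, Finset.sum_comm]
  have hexc : ∀ b ∈ range ν, ∑ x ∈ PQ Q,
      (if (bad N (1 + (n + 2) * b) 1 (n + 2) η (fra x)).card ≤ R then (1 : ℝ) else 0) ≤
      C1 * Real.exp 2 * (Q : ℝ) ^ (1 / 2 : ℝ) := by
    intro b hb
    have hbν := mem_range.1 hb
    rw [← Finset.sum_filter, Finset.sum_const, nsmul_eq_mul, mul_one]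
    have h1 := exc_card (N := N) (i := 1 + (n + 2) * b) (s := 1) (n := n) (Q := Q) (R := R)
      (by
        have h4 := hblk b hbν
        have e : (n + 2) * (b + 1) = (n + 2) * b + (n + 2) := by ring
        omega) (len_spec Q) hy0 hy1
    refine h1.trans ?_
    rw [mul_assoc C1]
    apply mul_le_mul_of_nonneg_left _ (by positivity)
    refine (hfew (n + 2) R hRle).trans ?_
    rw [Real.rpow_def_of_pos hQ0, ← Real.exp_add]
    apply Real.exp_le_exp.2
    have h2 := len_le hQ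
    rw [← hn] at h2
    push_cast
    linarith
  have h1 := Finset.sum_le_sum hexc
  rw [Finset.sum_const, card_range, nsmul_eq_mul] at h1
  have h2 : ((PQ Q).card : ℝ) * (1 / (Q : ℝ) ^ 2) ≤ 42 := by
    rw [mul_one_div, div_le_iff₀ (by positivity)]
    exact_mod_cast card_PQ Q
  have h3 : (1 : ℝ) ≤ (Q : ℝ) ^ (1 / 2 : ℝ) := Real.one_le_rpow hQ1 (by norm_num)
  calc _ ≤ (ν : ℝ) * (C1 * Real.exp 2 * (Q : ℝ) ^ (1 / 2 : ℝ)) + 42 := add_le_add h1 h2
    _ ≤ (ν : ℝ) * (C1 * Real.exp 2 * (Q : ℝ) ^ (1 / 2 : ℝ)) + 42 * (Q : ℝ) ^ (1 / 2 : ℝ) := by linarith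
    _ = _ := by ring

end Pool.Agent.L5helper11.PD
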