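import Pool.Agent.L5helper11.PD.BigA
import Pool.Agent.Helper112.Arith

/-!
# Palindromes with digits from prescribed digit sets: large denominators
-/

set_option autoImplicit false

namespace Pool.Agent.L5helper11.PD

open Finset

/-- a product of bounded factors can be cut -/
lemma cut (c : ℕ → ℕ) (S : Finset ℕ) (hc : ∀ i ∈ S, 1 ≤ c i ∧ c i ≤ 10) {Y : ℝ} (hY : 1 ≤ Y)
    (h : 10 * Y ^ 2 ≤ ((∏ i ∈ S, c i : ℕ) : ℝ)) :
    ∃ t : ℕ, Y ≤ ((∏ i ∈ S.filter (fun i => i < t), c i : ℕ) : ℝ) ∧
      Y ≤ ((∏ i ∈ S.filter (fun i => ¬ i < t), c i : ℕ) : ℝ) := by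
  classical
  have hex : ∃ t : ℕ, Y ≤ ((∏ i ∈ S.filter (fun i => i < t), c i : ℕ) : ℝ) := by
    refine ⟨S.sup id + 1, ?_⟩
    have e : S.filter (fun i => i < S.sup id + 1) = S := by
      apply Finset.filter_true_of_mem
      intro i hi
      exact Nat.lt_succ_of_le (Finset.le_sup (f := id) hi)
    rw [e]
    nlinarith
  refine ⟨Nat.find hex, Nat.find_spec hex, ?_⟩
  set t := Nat.find hex with ht
  have hprod : (∏ i ∈ S.filter (fun i => i < t), c i) * (∏ i ∈ S.filter (fun i => ¬ i < t), c i) =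
      ∏ i ∈ S, c i := Finset.prod_filter_mul_prod_filter_not S (fun i => i < t) c
  have hup : ((∏ i ∈ S.filter (fun i => i < t), c i : ℕ) : ℝ) ≤ 10 * Y := by
    rcases Nat.eq_zero_or_pos t with h0 | h0
    · rw [h0]
      simp
      linarith
    · have h1 : ¬ Y ≤ ((∏ i ∈ S.filter (fun i => i < t - 1), c i : ℕ) : ℝ) :=
        Nat.find_min hex (by omega)
      push Not at h1
      by_cases hmem : t - 1 ∈ S
      · have e : S.filter (fun i => i < t) = insert (t - 1) (S.filter (fun i => i < t - 1)) := by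
          ext i
          rw [mem_insert, mem_filter, mem_filter]
          constructor
          · rintro ⟨h2, h3⟩
            by_cases h4 : i = t - 1
            · exact Or.inl h4
            · exact Or.inr ⟨h2, by omega⟩
          · rintro (h2 | ⟨h2, h3⟩)
            · subst h2
              exact ⟨hmem, by omega⟩
            · exact ⟨h2, by omega⟩
        rw [e, Finset.prod_insert (by simp)]
        have h5 : (c (t - 1) : ℝ) ≤ 10 := by exact_mod_cast (hc _ hmem).2
        rw [Nat.cast_mul]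
        exact mul_le_mul h5 h1.le (Nat.cast_nonneg _) (by norm_num)
      · have e : S.filter (fun i => i < t) = S.filter (fun i => i < t - 1) := by
          ext i
          rw [mem_filter, mem_filter]
          constructor
          · rintro ⟨h2, h3⟩
            refine ⟨h2, ?_⟩
            have : i ≠ t - 1 := fun h => hmem (h ▸ h2)
            omega
          · rintro ⟨h2, h3⟩
            exact ⟨h2, by omega⟩
        rw [e]
        linarith
  have hpos : (0 : ℝ) < ((∏ i ∈ S.filter (fun i => i < t), c i : ℕ) : ℝ) := by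
    have : 0 < ∏ i ∈ S.filter (fun i => i < t), c i :=
      Finset.prod_pos fun i hi => (hc i (mem_filter.1 hi).1).1
    exact_mod_cast this
  by_contra hlt
  rw [not_le] at hlt
  have h2 : ((∏ i ∈ S, c i : ℕ) : ℝ) < 10 * Y ^ 2 := by
    rw [← hprod, Nat.cast_mul]
    calc ((∏ i ∈ S.filter (fun i => i < t), c i : ℕ) : ℝ) * ((∏ i ∈ S.filter (fun i => ¬ i < t), c i : ℕ) : ℝ)
        < ((∏ i ∈ S.filter (fun i => i < t), c i : ℕ) : ℝ) * Y := mul_lt_mul_of_pos_left hlt hpos
      _ ≤ 10 * Y * Y := mul_le_mul_of_nonneg_right hup (by linarith)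
      _ = 10 * Y ^ 2 := by ring
  linarith

/-- the number of palindromes -/
def XX (N : ℕ) (D : ℕ → Finset ℕ) : ℕ := ∏ i ∈ range (N + 1), (D i).card

/-- the indices `1, 1 + s, …, 1 + s (l - 1)` -/
def I3 (s l : ℕ) : Finset ℕ := (range l).image fun j => 1 + s * j

lemma card_I3 (s l : ℕ) : (I3 s l).card ≤ l := by
  unfold I3
  exact card_image_le.trans (by rw [card_range])

lemma card_D {N : ℕ} {D : ℕ → Finset ℕ} (hD : Good N D) {i : ℕ} (hi : i ≤ N) :
    1 ≤ (D i).card ∧ (D i).card ≤ 10 := by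
  refine ⟨card_pos.2 (hD.ne i hi), ?_⟩
  have := card_le_card (hD.sub i)
  rwa [card_range] at this

/-- the two halves -/
lemma halves {N s l : ℕ} {D : ℕ → Finset ℕ} (hD : Good N D) {Y : ℝ} (hY : 1 ≤ Y)
    (h : 10 * Y ^ 2 * 10 ^ (l + 2) ≤ (XX N D : ℝ)) :
    ∃ B1 B2 : Finset ℕ, B1 ⊆ range (N + 1) ∧ B2 ⊆ range (N + 1) ∧
      Y ≤ ((cf D B1).card : ℝ) ∧ Y ≤ ((cf D B2).card : ℝ) ∧
      ∀ θ, FF N D (Ico 1 N) θ ≤ FF N D (B1) θ * FF N D (B2) θ * FF N D (I3 s l ∩ Ico 1 N) θ := by
  classical
  set S := Ico 1 N \ I3 s l with hS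
  have hSN : ∀ i ∈ S, 1 ≤ i ∧ i < N := by
    intro i hi
    rw [hS, mem_sdiff, mem_Ico] at hi
    exact hi.1
  have hprod : (XX N D : ℝ) ≤ ((∏ i ∈ S, (D i).card : ℕ) : ℝ) * 10 ^ (l + 2) := by
    have h1 : XX N D ≤ (∏ i ∈ S, (D i).card) * 10 ^ (l + 2) := by
      unfold XX
      have e : range (N + 1) = S ∪ (range (N + 1) \ S) := by
        rw [Finset.union_sdiff_of_subset]
        intro i hi
        have := hSN i hi
        rw [mem_range]
        omega
      rw [e, Finset.prod_union disjoint_sdiff]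
      apply Nat.mul_le_mul_left
      calc ∏ i ∈ range (N + 1) \ S, (D i).card ≤ ∏ i ∈ range (N + 1) \ S, 10 := by
            refine Finset.prod_le_prod' fun i hi => ?_
            rw [mem_sdiff, mem_range] at hi
            exact (card_D hD (by omega)).2
        _ = 10 ^ (range (N + 1) \ S).card := by rw [Finset.prod_const]
        _ ≤ 10 ^ (l + 2) := by
            apply Nat.pow_le_pow_right (by norm_num)
            have h2 : range (N + 1) \ S ⊆ I3 s l ∪ {0, N} := by
              intro i hi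
              rw [hS, mem_sdiff, mem_sdiff, mem_range, mem_Ico] at hi
              rw [mem_union, mem_insert, mem_singleton]
              by_cases h3 : i ∈ I3 s l
              · exact Or.inl h3
              · right
                have := hi.2
                by_contra h4
                push Not at h4
                exact this ⟨by omega, h3⟩
            refine (card_le_card h2).trans ((card_union_le _ _).trans ?_)
            have h3 := card_I3 s l
            have h4 : ({0, N} : Finset ℕ).card ≤ 2 := Finset.card_le_two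
            omega
    exact_mod_cast h1
  have h2 : 10 * Y ^ 2 ≤ ((∏ i ∈ S, (D i).card : ℕ) : ℝ) := by
    have h3 : (0 : ℝ) < 10 ^ (l + 2) := by positivity
    exact le_of_mul_le_mul_right (h.trans hprod) h3
  obtain ⟨t, ht1, ht2⟩ := cut (fun i => (D i).card) S
    (fun i hi => card_D hD (by have := hSN i hi; omega)) hY h2
  refine ⟨S.filter (fun i => i < t), S.filter (fun i => ¬ i < t), ?_, ?_, ?_, ?_, ?_⟩
  · intro i hi
    have := hSN i (mem_filter.1 hi).1
    rw [mem_range]
    omega
  · intro i hi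
    have := hSN i (mem_filter.1 hi).1
    rw [mem_range]
    omega
  · rw [card_cf]
    exact ht1
  · rw [card_cf]
    exact ht2
  · intro θ
    have e1 : Ico 1 N = S ∪ (I3 s l ∩ Ico 1 N) := by
      rw [hS]
      ext i
      rw [mem_union, mem_sdiff, mem_inter]
      tauto
    have e2 : S = S.filter (fun i => i < t) ∪ S.filter (fun i => ¬ i < t) :=
      (Finset.filter_union_filter_not_eq _ _).symm
    have hd1 : Disjoint S (I3 s l ∩ Ico 1 N) := by
      rw [Finset.disjoint_left]
      intro i hi hi2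
      rw [hS, mem_sdiff] at hi
      exact hi.2 (mem_inter.1 hi2).1
    have hd2 : Disjoint (S.filter (fun i => i < t)) (S.filter (fun i => ¬ i < t)) :=
      Finset.disjoint_filter_filter_not _ _ _
    apply le_of_eq
    rw [e1, FF_union hd1]
    conv_lhs => rw [e2]
    rw [FF_union hd2]
    congr 2
    rw [← e1]

/-- the sum over a set of fractions, for large denominators: the part without few bad indices -/
lemma cs_part {α : Type*} (P : Finset α) (f : α → ℝ) (W : α → ℝ) (hW : ∀ x ∈ P, 0 ≤ W x)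
    (g1 g2 : α → ℝ) (hg1 : ∀ x ∈ P, 0 ≤ g1 x) (hg2 : ∀ x ∈ P, 0 ≤ g2 x) {c A : ℝ} (hc : 0 ≤ c)
    (hA : 0 ≤ A) (hf : ∀ x ∈ P, f x ≤ c * (g1 x * g2 x))
    (h1 : ∑ x ∈ P, W x * g1 x ^ 2 ≤ A) (h2 : ∑ x ∈ P, W x * g2 x ^ 2 ≤ A) :
    ∑ x ∈ P, W x * f x ≤ c * A := by
  have h3 : ∑ x ∈ P, W x * f x ≤ ∑ x ∈ P, c * (W x * (g1 x * g2 x)) := by
    refine Finset.sum_le_sum fun x hx => ?_
    have := mul_le_mul_of_nonneg_left (hf x hx) (hW x hx)
    linarith
  refine h3.trans ?_
  rw [← Finset.mul_sum]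
  apply mul_le_mul_of_nonneg_left _ hc
  have h4 : ∑ x ∈ P, W x * (g1 x * g2 x) ≤ ∑ x ∈ P, (W x * g1 x ^ 2 + W x * g2 x ^ 2) / 2 := by
    refine Finset.sum_le_sum fun x hx => ?_
    have h5 := hW x hx
    have h6 : g1 x * g2 x ≤ (g1 x ^ 2 + g2 x ^ 2) / 2 := by nlinarith [sq_nonneg (g1 x - g2 x)]
    have := mul_le_mul_of_nonneg_left h6 h5
    linarith
  refine h4.trans ?_
  rw [← Finset.sum_div, Finset.sum_add_distrib]
  linarith

end Pool.Agent.L5helper11.PD
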