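import Pool.Agent.L5helper11.PD.BigB

/-!
# Palindromes with digits from prescribed digit sets: large denominators, the estimates
-/

set_option autoImplicit false

namespace Pool.Agent.L5helper11.PD

open Finset Pool.Agent.Helper112

lemma ten_pow (x : ℝ) (k : ℕ) : (10 : ℝ) * ((10 : ℝ) ^ x) ^ 2 * 10 ^ k = (10 : ℝ) ^ (1 + x * 2 + (k : ℝ)) := by
  have e : ((10 : ℝ) ^ x) ^ 2 = (10 : ℝ) ^ (x * 2) := by
    rw [Real.rpow_mul (by norm_num), ← Real.rpow_natCast]
    norm_num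
  rw [Real.rpow_add (by norm_num), Real.rpow_add (by norm_num), Real.rpow_one, Real.rpow_natCast, e]

/-- the common part of the estimates for large denominators -/
theorem core {κ κX a : ℝ} (hκ : 0 < κ) (hκX : 2 * κ < κX) (hX1 : κX ≤ 1) (ha : 0 < a) :
    ∃ (s : ℕ) (y c5 C6 : ℝ) (N0 : ℕ), 1 ≤ s ∧ 0 < y ∧ y ≤ 1 ∧ 0 < c5 ∧ 0 < C6 ∧
      ∀ (N : ℕ) (D : ℕ → Finset ℕ), N0 ≤ N → Good N D → (10 : ℝ) ^ (κX * N) ≤ (XX N D : ℝ) →
      ∃ (n R : ℕ) (B1 B2 : Finset ℕ), 1 + s * (n + 1) < N ∧ B1 ⊆ range (N + 1) ∧ B2 ⊆ range (N + 1) ∧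
        (10 : ℝ) ^ (κ * N) ≤ ((cf D B1).card : ℝ) ∧ (10 : ℝ) ^ (κ * N) ≤ ((cf D B2).card : ℝ) ∧
        (∀ Q : ℕ, (Q : ℝ) ≤ (10 : ℝ) ^ (κ * N) → 4 * Q ^ 2 ≤ (10 ^ s) ^ n) ∧
        (1 + mm s * y) ^ (n + 2) / y ^ R ≤ Real.exp (a * N) ∧
        ∀ θ, FF N D (range (N + 1)) θ ≤ (if (bad N 1 s (n + 2) (1 / mm s) θ).card ≤ R then (1 : ℝ) else 0) +
          C6 * Real.exp (-(c5 * N)) * (FF N D B1 θ * FF N D B2 θ) := by
  classical
  set g : ℝ := κX - 2 * κ with hg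
  have hg0 : 0 < g := by rw [hg]; linarith
  obtain ⟨s, hs⟩ := exists_nat_ge (max 1 (2 / g))
  have hs1 : 1 ≤ s := by exact_mod_cast (le_max_left _ _).trans hs
  have hs0 : (0 : ℝ) < s := by exact_mod_cast hs1
  have hsg : 1 / (s : ℝ) ≤ g / 2 := by
    have h1 : 2 / g ≤ s := (le_max_right _ _).trans hs
    rw [div_le_iff₀ hg0] at h1
    rw [div_le_iff₀ hs0]
    linarith
  obtain ⟨y, ε, hy0, hy1, hε, hfew⟩ := few_bound (mm s) ha
  set η : ℝ := 1 / mm s with hη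
  have hmm : (1 : ℝ) ≤ (mm s : ℝ) := by exact_mod_cast mm_pos s
  have hη0 : 0 < η := by rw [hη]; positivity
  have hη1 : η ≤ 1 := by rw [hη, div_le_one (by linarith)]; exact hmm
  have hρ0 := rho_pos hη0 hη1
  have hρ1 := rho_lt_one hη0
  set Λ : ℝ := -Real.log (rho η) with hΛ
  have hΛ0 : 0 < Λ := by
    have := Real.log_neg hρ0 hρ1
    rw [hΛ]; linarith
  obtain ⟨N1, hN1⟩ := exists_nat_ge (8 / g + (2 + 2 * s) / (1 - 2 * κ) + (2 * s + 2))
  have h2κ : 0 < 1 - 2 * κ := by linarith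
  refine ⟨s, y, Λ * ε / s, Real.exp (Λ * ε / s), N1, hs1, hy0, hy1, by positivity, Real.exp_pos _,
    fun N D hN hD hX => ?_⟩
  have hNR : 8 / g + (2 + 2 * s) / (1 - 2 * κ) + (2 * s + 2) ≤ (N : ℝ) :=
    hN1.trans (by exact_mod_cast hN)
  have t1 : 0 ≤ 8 / g := by positivity
  have t2 : 0 ≤ (2 + 2 * (s : ℝ)) / (1 - 2 * κ) := by positivity
  have hNs : 2 * s + 2 ≤ N := by
    have : (2 * s + 2 : ℝ) ≤ N := by linarith
    exact_mod_cast this
  have hN8 : 4 ≤ g / 2 * N := by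
    have : 8 / g ≤ N := by linarith
    rw [div_le_iff₀ hg0] at this
    linarith
  have hNκ : 2 + 2 * (s : ℝ) ≤ (1 - 2 * κ) * N := by
    have : (2 + 2 * (s : ℝ)) / (1 - 2 * κ) ≤ N := by linarith
    rw [div_le_iff₀ h2κ] at this
    linarith
  have hN0 : (0 : ℝ) < N := by
    have : 0 < N := by omega
    exact_mod_cast this
  -- the number of indices
  set d := (N - 2) / s with hd
  have hd1 : s * d ≤ N - 2 := Nat.mul_div_le _ _
  have hd2 : N - 2 < s * d + s := by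
    have := Nat.lt_mul_div_succ (N - 2) (show 0 < s by omega)
    rw [← hd] at this
    linarith
  have hd3 : 2 ≤ d := by
    rw [hd, Nat.le_div_iff_mul_le (by omega)]
    omega
  obtain ⟨n, hn⟩ : ∃ n, d = n + 1 := ⟨d - 1, by omega⟩
  rw [hn] at hd1 hd2
  have hn1 : 1 + s * (n + 1) < N := by omega
  have hn2 : N ≤ s * n + 1 + 2 * s := by
    have e : s * (n + 1) = s * n + s := by ring
    omega
  have hn1R : (s : ℝ) * (n + 1) ≤ N := by
    have : s * (n + 1) ≤ N := by omega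
    exact_mod_cast this
  have hn2R : (N : ℝ) ≤ s * n + 1 + 2 * s := by exact_mod_cast hn2
  have hl1 : ((n : ℝ) + 2) ≤ 1 / s * N + 1 := by
    have : (n : ℝ) + 1 ≤ N / s := by
      rw [le_div_iff₀ hs0]; linarith
    have e : 1 / (s : ℝ) * N = N / s := by ring
    linarith
  have hlN : n + 2 ≤ N := by
    have : n + 1 ≤ s * (n + 1) := Nat.le_mul_of_pos_left _ (by omega)
    omega
  set R : ℕ := ⌊ε * ((n + 2 : ℕ) : ℝ)⌋₊ with hR
  have hRle : (R : ℝ) ≤ ε * ((n + 2 : ℕ) : ℝ) := Nat.floor_le (by positivity)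
  have hRlt : ε * ((n + 2 : ℕ) : ℝ) < R + 1 := Nat.lt_floor_add_one _
  have hY : (1 : ℝ) ≤ (10 : ℝ) ^ (κ * N) := Real.one_le_rpow (by norm_num) (by positivity)
  obtain ⟨B1, B2, hB1, hB2, hY1, hY2, hprod⟩ := halves (s := s) (l := n + 2) hD hY (by
    refine le_trans ?_ hX
    rw [ten_pow]
    apply Real.rpow_le_rpow_of_exponent_le (by norm_num)
    push_cast
    have : 1 / (s : ℝ) * N ≤ g / 2 * N := mul_le_mul_of_nonneg_right hsg hN0.le
    have e : κX * N = 2 * κ * N + g / 2 * N + g / 2 * N := by rw [hg]; ring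
    linarith)
  refine ⟨n, R, B1, B2, hn1, hB1, hB2, hY1, hY2, fun Q hQ => ?_, ?_, fun θ => ?_⟩
  · have h1 : 4 * (Q : ℝ) ^ 2 * 10 ^ (1 + 2 * s) ≤ (10 : ℝ) ^ (s * n) * 10 ^ (1 + 2 * s) := by
      have h2 : (Q : ℝ) ^ 2 ≤ ((10 : ℝ) ^ (κ * N)) ^ 2 := pow_le_pow_left₀ (Nat.cast_nonneg _) hQ 2
      calc 4 * (Q : ℝ) ^ 2 * 10 ^ (1 + 2 * s) ≤ 10 * ((10 : ℝ) ^ (κ * N)) ^ 2 * 10 ^ (1 + 2 * s) := by
            apply mul_le_mul_of_nonneg_right _ (by positivity)
            have : (0 : ℝ) ≤ ((10 : ℝ) ^ (κ * N)) ^ 2 := by positivity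
            linarith
        _ = (10 : ℝ) ^ (1 + κ * N * 2 + ((1 + 2 * s : ℕ) : ℝ)) := ten_pow _ _
        _ ≤ (10 : ℝ) ^ ((N : ℕ) : ℝ) := by
            apply Real.rpow_le_rpow_of_exponent_le (by norm_num)
            push_cast
            linarith
        _ = (10 : ℝ) ^ N := Real.rpow_natCast _ _
        _ ≤ (10 : ℝ) ^ (s * n + (1 + 2 * s)) := pow_le_pow_right₀ (by norm_num) (by omega)
        _ = _ := by rw [pow_add]
    have h3 : 4 * (Q : ℝ) ^ 2 ≤ (10 : ℝ) ^ (s * n) := le_of_mul_le_mul_right h1 (by positivity)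
    rw [← pow_mul]
    exact_mod_cast h3
  · refine (hfew (n + 2) R hRle).trans (Real.exp_le_exp.2 ?_)
    apply mul_le_mul_of_nonneg_left _ ha.le
    exact_mod_cast hlN
  · by_cases hbad : (bad N 1 s (n + 2) η θ).card ≤ R
    · rw [if_pos hbad]
      have h1 := FF_le_one N D (range (N + 1)) θ
      have h2 : 0 ≤ Real.exp (Λ * ε / s) * Real.exp (-(Λ * ε / s * N)) * (FF N D B1 θ * FF N D B2 θ) := by
        have := FF_nonneg N D B1 θ
        have := FF_nonneg N D B2 θ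
        positivity
      linarith
    · rw [if_neg hbad, zero_add]
      rw [not_le] at hbad
      have h1 : FF N D (range (N + 1)) θ ≤ FF N D (Ico 1 N) θ := by
        apply FF_anti
        intro i hi
        rw [mem_Ico] at hi
        rw [mem_range]
        omega
      have hall : ∀ j < n + 2, 1 + s * j < N := by
        intro j hj
        have : s * j ≤ s * (n + 1) := Nat.mul_le_mul_left _ (by omega)
        omega
      have h2 : FF N D (I3 s (n + 2) ∩ Ico 1 N) θ ≤ rho η ^ (R + 1) := by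
        refine (FF_bad (N := N) (i := 1) (s := s) (l := n + 2) hD hs1 le_rfl _ (fun j hj => ?_) hall hη0 θ).trans
          (pow_le_pow_of_le_one hρ0.le hρ1.le hbad)
        rw [mem_inter, mem_Ico]
        refine ⟨?_, by omega, hall j hj⟩
        unfold I3
        exact mem_image.2 ⟨j, mem_range.2 hj, rfl⟩
      have h3 : rho η ^ (R + 1) ≤ Real.exp (Λ * ε / s) * Real.exp (-(Λ * ε / s * N)) := by
        have e1 : rho η ^ (R + 1) = Real.exp (-(Λ * (R + 1))) := by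
          rw [hΛ, ← Real.rpow_natCast, Real.rpow_def_of_pos hρ0]
          congr 1
          push_cast
          ring
        rw [e1, ← Real.exp_add]
        apply Real.exp_le_exp.2
        have h4 : (N : ℝ) / s - 1 / s ≤ n + 2 := by
          rw [← sub_div, div_le_iff₀ hs0]
          linarith
        have h5 : ε * (N / s - 1 / s) ≤ R + 1 := by
          refine le_trans (mul_le_mul_of_nonneg_left h4 hε.le) ?_
          push_cast at hRlt
          exact hRlt.le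
        have h6 := mul_le_mul_of_nonneg_left h5 hΛ0.le
        have e2 : Λ * (ε * (N / s - 1 / s)) = Λ * ε / s * N - Λ * ε / s := by
          field_simp
        linarith
      refine h1.trans ((hprod θ).trans ?_)
      have h4 := FF_nonneg N D B1 θ
      have h5 := FF_nonneg N D B2 θ
      have h6 : FF N D B1 θ * FF N D B2 θ * FF N D (I3 s (n + 2) ∩ Ico 1 N) θ ≤
          FF N D B1 θ * FF N D B2 θ * (Real.exp (Λ * ε / s) * Real.exp (-(Λ * ε / s * N))) :=
        mul_le_mul_of_nonneg_left (h2.trans h3) (mul_nonneg h4 h5)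
      refine h6.trans (le_of_eq ?_)
      ring

/-- the divisor bound in the form used here -/
lemma div_T {c : ℝ} (hc : 0 < c) : ∃ C : ℝ, 0 < C ∧ ∀ N n : ℕ, 1 ≤ n → n ≤ 10 ^ (2 * N + 1) →
    (n.divisors.card : ℝ) ≤ C * Real.exp (c * N) := by
  have hL := log_ten
  obtain ⟨C, hC, h⟩ := divisor_bound (c / (2 * Real.log 10)) (by positivity)
  refine ⟨C * Real.exp (c / 2), by positivity, fun N n hn1 hn => ?_⟩
  have hn0 : (0 : ℝ) < n := by exact_mod_cast hn1
  refine (h n hn1).trans ?_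
  rw [mul_assoc, ← Real.exp_add]
  apply mul_le_mul_of_nonneg_left _ hC.le
  rw [Real.rpow_def_of_pos hn0]
  apply Real.exp_le_exp.2
  have h1 : Real.log n ≤ (2 * N + 1) * Real.log 10 := by
    have h2 : (n : ℝ) ≤ (10 : ℝ) ^ (2 * N + 1) := by exact_mod_cast hn
    have h3 := Real.log_le_log hn0 h2
    rw [Real.log_pow] at h3
    push_cast at h3
    exact h3
  calc Real.log n * (c / (2 * Real.log 10)) ≤ (2 * N + 1) * Real.log 10 * (c / (2 * Real.log 10)) :=
        mul_le_mul_of_nonneg_right h1 (by positivity)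
    _ = c / 2 + c * N := by field_simp; ring

/-- large denominators -/
theorem regC {κ κX ε4 : ℝ} (hκ : 0 < κ) (hκX : 2 * κ < κX) (hX1 : κX ≤ 1) (hε4 : 0 < ε4) :
    ∃ (C δ : ℝ) (N0 : ℕ), 0 < C ∧ 0 < δ ∧ δ ≤ 1 / 2 ∧ ∀ (N : ℕ) (D : ℕ → Finset ℕ), N0 ≤ N → Good N D →
      (10 : ℝ) ^ (κX * N) ≤ (XX N D : ℝ) → ∀ Q : ℕ, 1 ≤ Q → Real.exp (ε4 * N) ≤ Q →
      (Q : ℝ) ≤ (10 : ℝ) ^ (κ * N) →
      ∑ x ∈ PQ Q, FF N D (range (N + 1)) (fra x) ≤ C * (Q : ℝ) ^ (1 - δ) := by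
  classical
  obtain ⟨s, y, c5, C6, N0, hs1, hy0, hy1, hc5, hC6, hcore⟩ := core hκ hκX hX1 (a := ε4 / 2) (by positivity)
  obtain ⟨T0, hT0, hT⟩ := div_T (c := c5 / 2) (by positivity)
  set C1 : ℝ := ((42 * (120 * (10 ^ (2 * s) - 1)) + 1 : ℕ) : ℝ) with hC1
  have hL := log_ten
  have hL3 := log_ten_lt
  refine ⟨C1 + C6 * 42 * (1 + T0), min (1 / 2) (c5 / 6), N0, by positivity, by positivity,
    min_le_left _ _, fun N D hN hD hX Q hQ hQ1 hQ2 => ?_⟩
  obtain ⟨n, R, B1, B2, hn, hB1, hB2, hY1, hY2, hQn, hpat, hpt⟩ := hcore N D hN hD hX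
  set δ : ℝ := min (1 / 2) (c5 / 6) with hδ
  have hδ1 : δ ≤ 1 / 2 := min_le_left _ _
  have hδ2 : δ ≤ c5 / 6 := min_le_right _ _
  have hQ0 : (0 : ℝ) < Q := by exact_mod_cast hQ
  have hQ1' : (1 : ℝ) ≤ Q := by exact_mod_cast hQ
  have hN0 : (0 : ℝ) ≤ N := Nat.cast_nonneg _
  -- exceptional part
  have h1 := exc_card (N := N) (i := 1) (s := s) (n := n) (Q := Q) (R := R) hn (hQn Q hQ2) hy0 hy1
  have h2 : (((PQ Q).filter fun x => (bad N 1 s (n + 2) (1 / mm s) (fra x)).card ≤ R).card : ℝ) ≤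
      C1 * (Q : ℝ) ^ (1 - δ) := by
    refine h1.trans (mul_le_mul_of_nonneg_left (hpat.trans ?_) (by positivity))
    have h3 : Real.exp (ε4 / 2 * N) = (Real.exp (ε4 * N)) ^ (1 / 2 : ℝ) := by
      rw [← Real.exp_mul]
      congr 1
      ring
    rw [h3]
    calc (Real.exp (ε4 * N)) ^ (1 / 2 : ℝ) ≤ (Q : ℝ) ^ (1 / 2 : ℝ) :=
          Real.rpow_le_rpow (Real.exp_pos _).le hQ1 (by norm_num)
      _ ≤ (Q : ℝ) ^ (1 - δ) := Real.rpow_le_rpow_of_exponent_le hQ1' (by linarith)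
  -- the main part
  set T : ℝ := T0 * Real.exp (c5 / 2 * N) with hTd
  have hT' : ∀ n : ℕ, 1 ≤ n → n ≤ 10 ^ (2 * N + 1) → (n.divisors.card : ℝ) ≤ T := fun n => hT N n
  have hTpos : 0 < T := by positivity
  have hYpos : (0 : ℝ) < (10 : ℝ) ^ (κ * N) := by positivity
  have hL2 : ∀ B : Finset ℕ, B ⊆ range (N + 1) → (10 : ℝ) ^ (κ * N) ≤ ((cf D B).card : ℝ) →
      ∑ x ∈ PQ Q, 1 * FF N D B (fra x) ^ 2 ≤ 42 * Q * (1 + T) := by
    intro B hB hY
    simp only [one_mul]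
    have hpos : 0 < (cf D B).card := by
      have : (0 : ℝ) < ((cf D B).card : ℝ) := by linarith
      exact_mod_cast this
    refine (L2_PQ hD.sub hB hpos Q hQ hT').trans ?_
    apply mul_le_mul_of_nonneg_left _ (by positivity)
    have : (Q : ℝ) / ((cf D B).card : ℝ) ≤ 1 := by
      rw [div_le_one (by linarith)]
      exact hQ2.trans hY
    linarith
  have h3 : ∑ x ∈ PQ Q, 1 * (FF N D B1 (fra x) * FF N D B2 (fra x)) ≤ 1 * (42 * Q * (1 + T)) := by
    refine cs_part (PQ Q) (fun x => FF N D B1 (fra x) * FF N D B2 (fra x)) (fun _ => 1)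
      (fun _ _ => zero_le_one) (fun x => FF N D B1 (fra x)) (fun x => FF N D B2 (fra x))
      (fun _ _ => FF_nonneg _ _ _ _) (fun _ _ => FF_nonneg _ _ _ _) zero_le_one (by positivity)
      (fun x _ => by rw [one_mul]) (hL2 B1 hB1 hY1) (hL2 B2 hB2 hY2)
  simp only [one_mul] at h3
  have h4 : ∑ x ∈ PQ Q, FF N D (range (N + 1)) (fra x) ≤
      (((PQ Q).filter fun x => (bad N 1 s (n + 2) (1 / mm s) (fra x)).card ≤ R).card : ℝ) +
      C6 * Real.exp (-(c5 * N)) * (42 * Q * (1 + T)) := by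
    refine (Finset.sum_le_sum fun x _ => hpt (fra x)).trans ?_
    rw [Finset.sum_add_distrib, ← Finset.mul_sum, ← Finset.sum_filter, Finset.sum_const, nsmul_eq_mul, mul_one]
    have := mul_le_mul_of_nonneg_left h3 (show 0 ≤ C6 * Real.exp (-(c5 * N)) by positivity)
    linarith
  have h5 : Real.exp (-(c5 * N)) * (Q * (1 + T)) ≤ (1 + T0) * (Q : ℝ) ^ (1 - δ) := by
    have e1 : 1 + T ≤ (1 + T0) * Real.exp (c5 / 2 * N) := by
      have : 1 ≤ Real.exp (c5 / 2 * N) := Real.one_le_exp (by positivity)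
      rw [hTd]
      nlinarith
    have e2 : Real.exp (-(c5 / 2 * N)) ≤ (Q : ℝ) ^ (-δ) := by
      have h6 : (Q : ℝ) ^ δ ≤ Real.exp (c5 / 2 * N) := by
        have h7 : Real.log Q ≤ 3 * N := by
          have h8 := Real.log_le_log hQ0 hQ2
          rw [Real.log_rpow (by norm_num)] at h8
          have h9 : κ * N ≤ 1 * N := mul_le_mul_of_nonneg_right (by linarith) hN0
          nlinarith
        rw [Real.rpow_def_of_pos hQ0]
        apply Real.exp_le_exp.2
        have hlQ : 0 ≤ Real.log Q := Real.log_natCast_nonneg Q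
        calc Real.log Q * δ ≤ (3 * N) * (c5 / 6) := mul_le_mul h7 hδ2 (by positivity) (by positivity)
          _ = c5 / 2 * N := by ring
      rw [Real.exp_neg, Real.rpow_neg hQ0.le]
      exact inv_anti₀ (by positivity) h6
    calc Real.exp (-(c5 * N)) * (Q * (1 + T))
        ≤ Real.exp (-(c5 * N)) * (Q * ((1 + T0) * Real.exp (c5 / 2 * N))) := by gcongr
      _ = (1 + T0) * (Q * Real.exp (-(c5 / 2 * N))) := by
          have e3 : Real.exp (-(c5 * N)) * Real.exp (c5 / 2 * N) = Real.exp (-(c5 / 2 * N)) := by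
            rw [← Real.exp_add]; congr 1; ring
          rw [← e3]; ring
      _ ≤ (1 + T0) * (Q * (Q : ℝ) ^ (-δ)) := by gcongr
      _ = (1 + T0) * (Q : ℝ) ^ (1 - δ) := by
          congr 1
          rw [sub_eq_add_neg, Real.rpow_add hQ0, Real.rpow_one]
  refine h4.trans ?_
  calc _ ≤ C1 * (Q : ℝ) ^ (1 - δ) + C6 * 42 * ((1 + T0) * (Q : ℝ) ^ (1 - δ)) := by
        apply add_le_add h2
        have := mul_le_mul_of_nonneg_left h5 (show 0 ≤ C6 * 42 by positivity)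
        calc _ = C6 * 42 * (Real.exp (-(c5 * N)) * (Q * (1 + T))) := by ring
          _ ≤ _ := this
    _ = _ := by ring

end Pool.Agent.L5helper11.PD
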