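import Pool.Agent.L5helper11.PD.Rig

/-!
# Palindromes with digits from prescribed digit sets: few fractions have few bad indices
-/

set_option autoImplicit false

namespace Pool.Agent.L5helper11.PD

open Finset

/-- the number of cells -/
def mm (s : ℕ) : ℕ := 4 * (10 ^ s + 1) ^ 2

lemma mm_pos (s : ℕ) : 0 < mm s := by unfold mm; positivity

/-- the difference of two numbers with the same pattern -/
lemma pat_rigid {N i s n : ℕ} (hN : i + s * (n + 1) < N) {θ θ' : ℝ}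
    (h : pat N i s (n + 2) (mm s) θ = pat N i s (n + 2) (mm s) θ') :
    ((10 ^ s : ℕ) : ℝ) ^ n * dn ((((10 ^ (2 * s) - 1 : ℕ) : ℝ) * 10 ^ i) * (2520 * (θ - θ'))) < 1 := by
  have hS : (1 : ℝ) ≤ ((10 ^ s : ℕ) : ℝ) := by exact_mod_cast Nat.one_le_pow _ _ (by norm_num)
  set S : ℝ := ((10 ^ s : ℕ) : ℝ) with hSd
  have hm : ((mm s : ℕ) : ℝ) = 4 * (S + 1) ^ 2 := by
    unfold mm
    push_cast [hSd]
    ring
  have h1 : (S + 1) * (2 / ((mm s : ℕ) : ℝ)) = 1 / (2 * (S + 1)) := by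
    rw [hm]
    field_simp
    ring
  have h2 := rigid (N := N) (i := i) (s := s) (n := n) hN (ε := 2 / ((mm s : ℕ) : ℝ)) (2520 * (θ - θ'))
    (by
      rw [← hSd, h1, mul_one_div, div_lt_div_iff₀ (by positivity) (by norm_num)]
      linarith)
    (fun j hj => pat_close (mm_pos s) h ⟨j, by omega⟩)
  rw [← hSd, h1] at h2
  refine lt_of_le_of_lt h2 ?_
  rw [div_lt_one (by positivity)]
  linarith

/-- the pairs `(q, h)` with `Q ≤ q < 2 Q`, `q` prime to `210`, `h < 21 q` prime to `q` -/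
def PQ (Q : ℕ) : Finset (ℕ × ℕ) := ((Ico Q (2 * Q)) ×ˢ range (42 * Q)).filter
  (fun x => x.1.Coprime 210 ∧ x.2 < 21 * x.1 ∧ x.2.Coprime x.1)

/-- the fraction `h / (21 q)` -/
noncomputable def fra (x : ℕ × ℕ) : ℝ := (x.2 : ℝ) / (21 * x.1)

lemma mem_PQ {Q : ℕ} {x : ℕ × ℕ} : x ∈ PQ Q ↔
    (Q ≤ x.1 ∧ x.1 < 2 * Q) ∧ x.1.Coprime 210 ∧ x.2 < 21 * x.1 ∧ x.2.Coprime x.1 := by
  unfold PQ
  rw [mem_filter, mem_product, mem_Ico, mem_range]
  constructor
  · rintro ⟨⟨h1, h2⟩, h3⟩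
    exact ⟨h1, h3⟩
  · rintro ⟨h1, h3⟩
    refine ⟨⟨h1, ?_⟩, h3⟩
    have := h3.2.1
    omega

lemma card_PQ (Q : ℕ) : (PQ Q).card ≤ 42 * Q ^ 2 := by
  unfold PQ
  refine (card_filter_le _ _).trans ?_
  rw [card_product, Nat.card_Ico, card_range]
  have : 2 * Q - Q = Q := by omega
  rw [this]
  apply le_of_eq
  ring

/-- reduced fractions are determined by their value -/
lemma frac_inj {h q h' q' : ℕ} (hq : 0 < q) (hq' : 0 < q') (hc : h.Coprime q) (hc' : h'.Coprime q')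
    (e : h * q' = h' * q) : q = q' ∧ h = h' := by
  have h1 : q ∣ q' := by
    have : q ∣ h * q' := ⟨h', by rw [e]; ring⟩
    exact (Nat.Coprime.dvd_of_dvd_mul_left hc.symm this)
  have h2 : q' ∣ q := by
    have : q' ∣ h' * q := ⟨h, by rw [← e]; ring⟩
    exact (Nat.Coprime.dvd_of_dvd_mul_left hc'.symm this)
  have h3 := Nat.dvd_antisymm h1 h2
  subst h3
  exact ⟨rfl, Nat.eq_of_mul_eq_mul_right hq e⟩

lemma coprime_ten {q : ℕ} (h : q.Coprime 210) : q.Coprime 10 :=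
  Nat.Coprime.coprime_dvd_right ⟨21, by norm_num⟩ h

/-- pairs with the same pattern -/
lemma class_card {N i s n Q : ℕ} (hN : i + s * (n + 1) < N) (hQ : 4 * Q ^ 2 ≤ (10 ^ s) ^ n)
    (p : Fin (n + 2) → Fin (mm s + 1)) :
    ((PQ Q).filter fun x => pat N i s (n + 2) (mm s) (fra x) = p).card ≤
      42 * (120 * (10 ^ (2 * s) - 1)) + 1 := by
  classical
  set G : ℕ := 120 * (10 ^ (2 * s) - 1) with hG
  rcases Finset.eq_empty_or_nonempty ((PQ Q).filter fun x => pat N i s (n + 2) (mm s) (fra x) = p) with h0 | h0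
  · rw [h0]; simp
  obtain ⟨x0, hx0⟩ := h0
  rw [mem_filter, mem_PQ] at hx0
  obtain ⟨⟨⟨ha1, ha2⟩, ha3, ha4, ha5⟩, ha6⟩ := hx0
  have hx0pos : 0 < x0.1 := by omega
  -- divisibility
  have key : ∀ x ∈ (PQ Q).filter (fun x => pat N i s (n + 2) (mm s) (fra x) = p), 0 < x.1 ∧
      x.2.Coprime x.1 ∧ x.2 < 21 * x.1 ∧
      ((x.1 * x0.1 : ℕ) : ℤ) ∣ (G : ℤ) * ((x.2 : ℤ) * x0.1 - x0.2 * x.1) := by
    intro x hx
    rw [mem_filter, mem_PQ] at hx
    obtain ⟨⟨⟨hb1, hb2⟩, hb3, hb4, hb5⟩, hb6⟩ := hx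
    have hxpos : 0 < x.1 := by omega
    refine ⟨hxpos, hb5, hb4, ?_⟩
    have h1 := pat_rigid hN (hb6.trans ha6.symm)
    have hprod : (x.1 : ℝ) * x0.1 ≤ ((10 ^ s : ℕ) : ℝ) ^ n := by
      have h2 : x.1 * x0.1 ≤ 4 * Q ^ 2 := by
        calc x.1 * x0.1 ≤ (2 * Q) * (2 * Q) := Nat.mul_le_mul hb2.le ha2.le
          _ = 4 * Q ^ 2 := by ring
      exact_mod_cast h2.trans hQ
    have hp0 : 0 < x.1 * x0.1 := by positivity
    have hp0R : (0 : ℝ) < ((x.1 * x0.1 : ℕ) : ℝ) := by exact_mod_cast hp0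
    have e1 : (((10 ^ (2 * s) - 1 : ℕ) : ℝ) * 10 ^ i) * (2520 * (fra x - fra x0)) =
        (((10 ^ i : ℕ) : ℤ) * ((G : ℤ) * ((x.2 : ℤ) * x0.1 - x0.2 * x.1)) : ℤ) / ((x.1 * x0.1 : ℕ) : ℝ) := by
      have hx1 : (x.1 : ℝ) ≠ 0 := by exact_mod_cast hxpos.ne'
      have hx2 : (x0.1 : ℝ) ≠ 0 := by exact_mod_cast hx0pos.ne'
      unfold fra
      rw [hG]
      push_cast
      field_simp
      ring
    rw [e1] at h1
    have h2 := dvd_of_dn_lt hp0 (c := ((10 ^ i : ℕ) : ℤ) * ((G : ℤ) * ((x.2 : ℤ) * x0.1 - x0.2 * x.1))) (by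
      rw [lt_div_iff₀ hp0R, mul_comm]
      refine lt_of_le_of_lt ?_ h1
      apply mul_le_mul_of_nonneg_right _ (dn_nonneg _)
      push_cast
      push_cast at hprod
      exact hprod)
    have h3 : (x.1 * x0.1).Coprime (10 ^ i) := by
      apply Nat.Coprime.pow_right
      exact Nat.Coprime.mul_left (coprime_ten hb3) (coprime_ten ha3)
    have h4 : IsCoprime (((x.1 * x0.1 : ℕ) : ℤ)) (((10 ^ i : ℕ) : ℤ)) := Nat.isCoprime_iff_coprime.2 h3
    exact h4.dvd_of_dvd_mul_left h2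
  -- the injection
  have hcard := Finset.card_le_card_of_injOn
    (s := (PQ Q).filter (fun x => pat N i s (n + 2) (mm s) (fra x) = p))
    (t := Icc (-(21 * (G : ℤ))) (21 * (G : ℤ)))
    (fun x => (G : ℤ) * ((x.2 : ℤ) * x0.1 - x0.2 * x.1) / ((x.1 * x0.1 : ℕ) : ℤ)) ?_ ?_
  · refine hcard.trans (le_of_eq ?_)
    rw [Int.card_Icc]
    have : (21 * (G : ℤ) + 1 - -(21 * (G : ℤ))) = ((42 * G + 1 : ℕ) : ℤ) := by push_cast; ring
    rw [this, Int.toNat_natCast]
  · intro x hx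
    obtain ⟨k1, k2, k3, k, hk⟩ := key x hx
    have hp0 : (0 : ℤ) < ((x.1 * x0.1 : ℕ) : ℤ) := by
      have : 0 < x.1 * x0.1 := by positivity
      exact_mod_cast this
    simp only [coe_Icc, Set.mem_Icc]
    rw [hk, Int.mul_ediv_cancel_left _ hp0.ne']
    have hG0 : (0 : ℤ) ≤ G := Int.natCast_nonneg _
    have e1 : (x.2 : ℤ) * x0.1 ≤ 21 * ((x.1 * x0.1 : ℕ) : ℤ) := by
      push_cast
      have : (x.2 : ℤ) ≤ 21 * x.1 := by exact_mod_cast k3.le
      nlinarith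
    have e2 : (x0.2 : ℤ) * x.1 ≤ 21 * ((x.1 * x0.1 : ℕ) : ℤ) := by
      push_cast
      have : (x0.2 : ℤ) ≤ 21 * x0.1 := by exact_mod_cast ha4.le
      nlinarith
    have e3 : (0 : ℤ) ≤ (x.2 : ℤ) * x0.1 := by positivity
    have e4 : (0 : ℤ) ≤ (x0.2 : ℤ) * x.1 := by positivity
    constructor
    · have : -(21 * (G : ℤ)) * ((x.1 * x0.1 : ℕ) : ℤ) ≤ k * ((x.1 * x0.1 : ℕ) : ℤ) := by
        rw [mul_comm k, ← hk]
        nlinarith
      exact le_of_mul_le_mul_right this hp0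
    · have : k * ((x.1 * x0.1 : ℕ) : ℤ) ≤ 21 * (G : ℤ) * ((x.1 * x0.1 : ℕ) : ℤ) := by
        rw [mul_comm k, ← hk]
        nlinarith
      exact le_of_mul_le_mul_right this hp0
  · intro x hx y hy hxy
    obtain ⟨k1, k2, k3, k, hk⟩ := key x hx
    obtain ⟨l1, l2, l3, l, hl⟩ := key y hy
    have hp0 : (0 : ℤ) < ((x.1 * x0.1 : ℕ) : ℤ) := by
      have : 0 < x.1 * x0.1 := by positivity
      exact_mod_cast this
    have hp1 : (0 : ℤ) < ((y.1 * x0.1 : ℕ) : ℤ) := by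
      have : 0 < y.1 * x0.1 := by positivity
      exact_mod_cast this
    simp only at hxy
    rw [hk, hl, Int.mul_ediv_cancel_left _ hp0.ne', Int.mul_ediv_cancel_left _ hp1.ne'] at hxy
    subst hxy
    have hGpos : (0 : ℤ) < G := by
      rcases Nat.eq_zero_or_pos s with hs | hs
      · -- `s = 0`: the hypothesis gives `Q = 0`
        exfalso
        subst hs
        simp at hQ
        have : Q = 0 := by
          by_contra h
          have : 1 ≤ Q ^ 2 := Nat.one_le_pow _ _ (Nat.pos_of_ne_zero h)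
          omega
        omega
      · have h1 : 10 ≤ 10 ^ (2 * s) := by
          calc 10 = 10 ^ 1 := by norm_num
            _ ≤ 10 ^ (2 * s) := Nat.pow_le_pow_right (by norm_num) (by omega)
        have : 0 < G := by rw [hG]; omega
        exact_mod_cast this
    have hx0Z : (0 : ℤ) < (x0.1 : ℤ) := by exact_mod_cast hx0pos
    have hcross : (x.2 : ℤ) * y.1 = y.2 * x.1 := by
      have e1 : (G : ℤ) * ((x.2 : ℤ) * x0.1 - x0.2 * x.1) * (y.1 * x0.1) =
          (G : ℤ) * ((y.2 : ℤ) * x0.1 - x0.2 * y.1) * (x.1 * x0.1) := by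
        rw [hk, hl]
        push_cast
        ring
      have e2 : ((G : ℤ) * x0.1 * x0.1) * ((x.2 : ℤ) * y.1) = ((G : ℤ) * x0.1 * x0.1) * (y.2 * x.1) := by
        linear_combination e1
      exact mul_left_cancel₀ (by positivity) e2
    have hcross' : x.2 * y.1 = y.2 * x.1 := by exact_mod_cast hcross
    obtain ⟨h1, h2⟩ := frac_inj k1 l1 k2 l2 hcross'
    exact Prod.ext h1 h2

/-- few fractions have few bad indices -/
theorem exc_card {N i s n Q R : ℕ} (hN : i + s * (n + 1) < N) (hQ : 4 * Q ^ 2 ≤ (10 ^ s) ^ n)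
    {y : ℝ} (hy0 : 0 < y) (hy1 : y ≤ 1) :
    (((PQ Q).filter fun x => (bad N i s (n + 2) (1 / mm s) (fra x)).card ≤ R).card : ℝ) ≤
      (42 * (120 * (10 ^ (2 * s) - 1)) + 1 : ℕ) * ((1 + mm s * y) ^ (n + 2) / y ^ R) := by
  classical
  have h1 : ((PQ Q).filter fun x => (bad N i s (n + 2) (1 / mm s) (fra x)).card ≤ R).card ≤
      (42 * (120 * (10 ^ (2 * s) - 1)) + 1) * ((univ : Finset (Fin (n + 2) → Fin (mm s + 1))).filter
      fun p => (univ.filter fun j => p j ≠ 0).card ≤ R).card := by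
    refine Finset.card_le_mul_card_image_of_maps_to (f := fun x => pat N i s (n + 2) (mm s) (fra x)) ?_ _ ?_
    · intro x hx
      rw [mem_filter] at hx ⊢
      refine ⟨mem_univ _, ?_⟩
      rw [pat_ne_zero (mm_pos s)]
      exact hx.2
    · intro p _
      refine le_trans (Finset.card_le_card ?_) (class_card hN hQ p)
      intro x hx
      rw [mem_filter, mem_filter] at hx
      rw [mem_filter]
      exact ⟨hx.1.1, hx.2⟩
  have h2 := card_few (n + 2) (mm s) R hy0 hy1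
  calc (((PQ Q).filter fun x => (bad N i s (n + 2) (1 / mm s) (fra x)).card ≤ R).card : ℝ)
      ≤ ((42 * (120 * (10 ^ (2 * s) - 1)) + 1 : ℕ) : ℝ) *
        (((univ : Finset (Fin (n + 2) → Fin (mm s + 1))).filter
      fun p => (univ.filter fun j => p j ≠ 0).card ≤ R).card : ℝ) := by exact_mod_cast h1
    _ ≤ _ := mul_le_mul_of_nonneg_left h2 (Nat.cast_nonneg _)

/-- fractions with the same denominator and the same pattern -/
lemma class_card_sq {N i s n M : ℕ} (hs : 1 ≤ s) (hN : i + s * (n + 1) < N) (hM0 : 0 < M)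
    (hM : M ≤ (10 ^ s) ^ n) (hc : M.Coprime 10) (p : Fin (n + 2) → Fin (mm s + 1)) :
    ((range M).filter fun a : ℕ => pat N i s (n + 2) (mm s) ((a : ℝ) / M) = p).card ≤
      2 * (2520 * (10 ^ (2 * s) - 1)) + 1 := by
  classical
  set G : ℕ := 2520 * (10 ^ (2 * s) - 1) with hG
  have hGpos : (0 : ℤ) < G := by
    have h1 : 10 ≤ 10 ^ (2 * s) := by
      calc 10 = 10 ^ 1 := by norm_num
        _ ≤ 10 ^ (2 * s) := Nat.pow_le_pow_right (by norm_num) (by omega)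
    have : 0 < G := by rw [hG]; omega
    exact_mod_cast this
  have hMZ : (0 : ℤ) < (M : ℤ) := by exact_mod_cast hM0
  rcases Finset.eq_empty_or_nonempty
    ((range M).filter fun a : ℕ => pat N i s (n + 2) (mm s) ((a : ℝ) / M) = p) with h0 | h0
  · rw [h0]; simp
  obtain ⟨a0, ha0⟩ := h0
  rw [mem_filter, mem_range] at ha0
  have key : ∀ a ∈ (range M).filter (fun a : ℕ => pat N i s (n + 2) (mm s) ((a : ℝ) / M) = p),
      a < M ∧ (M : ℤ) ∣ (G : ℤ) * ((a : ℤ) - a0) := by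
    intro a ha
    rw [mem_filter, mem_range] at ha
    refine ⟨ha.1, ?_⟩
    have h1 := pat_rigid hN (ha.2.trans ha0.2.symm)
    have hMR : (0 : ℝ) < M := by exact_mod_cast hM0
    have e1 : (((10 ^ (2 * s) - 1 : ℕ) : ℝ) * 10 ^ i) * (2520 * ((a : ℝ) / M - (a0 : ℝ) / M)) =
        (((10 ^ i : ℕ) : ℤ) * ((G : ℤ) * ((a : ℤ) - a0)) : ℤ) / (M : ℝ) := by
      rw [hG]
      push_cast
      field_simp
    rw [e1] at h1
    have h2 := dvd_of_dn_lt hM0 (c := ((10 ^ i : ℕ) : ℤ) * ((G : ℤ) * ((a : ℤ) - a0))) (by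
      rw [lt_div_iff₀ hMR, mul_comm]
      refine lt_of_le_of_lt ?_ h1
      apply mul_le_mul_of_nonneg_right _ (dn_nonneg _)
      exact_mod_cast hM)
    have h3 : M.Coprime (10 ^ i) := Nat.Coprime.pow_right _ hc
    have h4 : IsCoprime ((M : ℕ) : ℤ) (((10 ^ i : ℕ) : ℤ)) := Nat.isCoprime_iff_coprime.2 h3
    exact h4.dvd_of_dvd_mul_left h2
  have hcard := Finset.card_le_card_of_injOn
    (s := (range M).filter (fun a : ℕ => pat N i s (n + 2) (mm s) ((a : ℝ) / M) = p))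
    (t := Icc (-(G : ℤ)) (G : ℤ))
    (fun a => (G : ℤ) * ((a : ℤ) - a0) / (M : ℤ)) ?_ ?_
  · refine hcard.trans (le_of_eq ?_)
    rw [Int.card_Icc]
    have : ((G : ℤ) + 1 - -(G : ℤ)) = ((2 * G + 1 : ℕ) : ℤ) := by push_cast; ring
    rw [this, Int.toNat_natCast]
  · intro a ha
    obtain ⟨k1, k, hk⟩ := key a ha
    simp only [coe_Icc, Set.mem_Icc]
    rw [hk, Int.mul_ediv_cancel_left _ hMZ.ne']
    have e1 : (a : ℤ) < M := by exact_mod_cast k1
    have e2 : (a0 : ℤ) < M := by exact_mod_cast ha0.1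
    have e3 : (0 : ℤ) ≤ a := by positivity
    have e4 : (0 : ℤ) ≤ a0 := by positivity
    constructor
    · have : -(G : ℤ) * (M : ℤ) ≤ k * (M : ℤ) := by
        rw [mul_comm k, ← hk]
        nlinarith
      exact le_of_mul_le_mul_right this hMZ
    · have : k * (M : ℤ) ≤ (G : ℤ) * (M : ℤ) := by
        rw [mul_comm k, ← hk]
        nlinarith
      exact le_of_mul_le_mul_right this hMZ
  · intro a ha b hb hab
    obtain ⟨k1, k, hk⟩ := key a ha
    obtain ⟨l1, l, hl⟩ := key b hb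
    simp only at hab
    rw [hk, hl, Int.mul_ediv_cancel_left _ hMZ.ne', Int.mul_ediv_cancel_left _ hMZ.ne'] at hab
    subst hab
    have e1 : (G : ℤ) * ((a : ℤ) - a0) = (G : ℤ) * ((b : ℤ) - a0) := by rw [hk, hl]
    have e2 := mul_left_cancel₀ hGpos.ne' e1
    omega

/-- few fractions with a given denominator have few bad indices -/
theorem exc_card_sq {N i s n M R : ℕ} (hs : 1 ≤ s) (hN : i + s * (n + 1) < N) (hM0 : 0 < M)
    (hM : M ≤ (10 ^ s) ^ n) (hc : M.Coprime 10) {y : ℝ} (hy0 : 0 < y) (hy1 : y ≤ 1) :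
    (((range M).filter fun a : ℕ => (bad N i s (n + 2) (1 / mm s) ((a : ℝ) / M)).card ≤ R).card : ℝ) ≤
      (2 * (2520 * (10 ^ (2 * s) - 1)) + 1 : ℕ) * ((1 + mm s * y) ^ (n + 2) / y ^ R) := by
  classical
  have h1 : ((range M).filter fun a : ℕ => (bad N i s (n + 2) (1 / mm s) ((a : ℝ) / M)).card ≤ R).card ≤
      (2 * (2520 * (10 ^ (2 * s) - 1)) + 1) * ((univ : Finset (Fin (n + 2) → Fin (mm s + 1))).filter
      fun p => (univ.filter fun j => p j ≠ 0).card ≤ R).card := by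
    refine Finset.card_le_mul_card_image_of_maps_to
      (f := fun a : ℕ => pat N i s (n + 2) (mm s) ((a : ℝ) / M)) ?_ _ ?_
    · intro x hx
      rw [mem_filter] at hx ⊢
      refine ⟨mem_univ _, ?_⟩
      rw [pat_ne_zero (mm_pos s)]
      exact hx.2
    · intro p _
      refine le_trans (Finset.card_le_card ?_) (class_card_sq hs hN hM0 hM hc p)
      intro x hx
      rw [mem_filter, mem_filter] at hx
      rw [mem_filter]
      exact ⟨hx.1.1, hx.2⟩
  have h2 := card_few (n + 2) (mm s) R hy0 hy1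
  calc (((range M).filter fun a : ℕ => (bad N i s (n + 2) (1 / mm s) ((a : ℝ) / M)).card ≤ R).card : ℝ)
      ≤ ((2 * (2520 * (10 ^ (2 * s) - 1)) + 1 : ℕ) : ℝ) *
        (((univ : Finset (Fin (n + 2) → Fin (mm s + 1))).filter
      fun p => (univ.filter fun j => p j ≠ 0).card ≤ R).card : ℝ) := by exact_mod_cast h1
    _ ≤ _ := mul_le_mul_of_nonneg_left h2 (Nat.cast_nonneg _)

end Pool.Agent.L5helper11.PD
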