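import Mathlib
import Pool.Agent.Helper112.Arith
import Pool.Agent.H760R2.PalT7
import Pool.Agent.H885R3.PB_T7

/-!
# Dyadic summation (port of `Pool.Agent.W261.PWBV` to a general non-negative function)
-/

set_option autoImplicit false

namespace Pool.Agent.L5helper11.PD

open Finset Filter Topology Pool.Agent.Helper112
open Pool.Agent.H760R2.PalT7 (dec small)
open Pool.Agent.H885R3.PBT7 (cover)

/-- a dyadic block -/
lemma gblock (M : ℕ) {U : ℕ → ℝ} (hU : ∀ q, 0 ≤ U q) (Q : ℕ) (hQ : 1 ≤ Q) (d C : ℝ) (hd : 0 ≤ d) (hC : 0 ≤ C)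
    (hτ : ∀ n : ℕ, 1 ≤ n → (n.divisors.card : ℝ) ^ 2 ≤ C * (n : ℝ) ^ d) :
    ∑ q ∈ (Ico Q (2 * Q)).filter (fun q => q.Coprime M), (q.divisors.card : ℝ) ^ 2 * U q / q ≤
      C * (2 * Q : ℝ) ^ d / Q * ∑ q ∈ (Ico Q (2 * Q)).filter (fun q => q.Coprime M), U q := by
  rw [mul_sum]
  apply sum_le_sum
  intro q hq
  rw [mem_filter, mem_Ico] at hq
  obtain ⟨⟨h1, h2⟩, h3⟩ := hq
  have hQ0 : (0 : ℝ) < Q := by exact_mod_cast hQ
  have hq0 : (0 : ℝ) < q := by exact_mod_cast (show 0 < q by omega)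
  have e1 : (q.divisors.card : ℝ) ^ 2 ≤ C * (2 * Q : ℝ) ^ d := by
    refine (hτ q (by omega)).trans (mul_le_mul_of_nonneg_left ?_ hC)
    apply Real.rpow_le_rpow hq0.le _ hd
    exact_mod_cast h2.le
  have e2 : (1 : ℝ) / q ≤ 1 / Q := by
    apply one_div_le_one_div_of_le hQ0
    exact_mod_cast h1
  have hUq := hU q
  calc (q.divisors.card : ℝ) ^ 2 * U q / q
      = (q.divisors.card : ℝ) ^ 2 * U q * (1 / q) := by ring
    _ ≤ (C * (2 * Q : ℝ) ^ d) * U q * (1 / Q) := by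
        apply mul_le_mul (mul_le_mul_of_nonneg_right e1 hUq) e2 (by positivity)
        have : 0 ≤ C * (2 * Q : ℝ) ^ d := by positivity
        exact mul_nonneg this hUq
    _ = C * (2 * Q : ℝ) ^ d / Q * U q := by ring

/-- the small range: a dyadic block -/
lemma gblock_small (M : ℕ) {U : ℕ → ℝ} (K : ℝ) (hK : 0 ≤ K) {E : ℝ} (hE0 : 0 ≤ E) (j : ℕ)
    (h : ∀ q : ℕ, 2 ^ j ≤ q → q < 2 * 2 ^ j → q.Coprime M → U q ≤ K * q * E) :
    ∑ q ∈ (Ico (2 ^ j) (2 * 2 ^ j)).filter (fun q => q.Coprime M),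
      (q.divisors.card : ℝ) ^ 2 * U q / q ≤ K * ((2 : ℝ) ^ (3 * j + 2) * E) := by
  have hterm : ∀ q ∈ (Ico (2 ^ j) (2 * 2 ^ j)).filter (fun q => q.Coprime M),
      (q.divisors.card : ℝ) ^ 2 * U q / q ≤ (2 * 2 ^ j) ^ 2 * (K * E) := by
    intro q hq
    rw [mem_filter, mem_Ico] at hq
    obtain ⟨⟨h2, h3⟩, h4⟩ := hq
    have h2j : 1 ≤ 2 ^ j := Nat.one_le_two_pow
    have hq0 : (0 : ℝ) < q := by exact_mod_cast (show 0 < q by omega)
    have hU := h q h2 h3 h4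
    have hτ : (q.divisors.card : ℝ) ≤ 2 * 2 ^ j := by
      have e1 : q.divisors.card ≤ q := Nat.card_divisors_le_self q
      have e2 : q.divisors.card ≤ 2 * 2 ^ j := by omega
      exact_mod_cast e2
    rw [div_le_iff₀ hq0]
    calc (q.divisors.card : ℝ) ^ 2 * U q ≤ (q.divisors.card : ℝ) ^ 2 * (K * q * E) :=
          mul_le_mul_of_nonneg_left hU (by positivity)
      _ ≤ (2 * 2 ^ j) ^ 2 * (K * q * E) := by
          apply mul_le_mul_of_nonneg_right _ (by positivity)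
          exact pow_le_pow_left₀ (by positivity) hτ 2
      _ = (2 * 2 ^ j) ^ 2 * (K * E) * q := by ring
  calc _ ≤ ∑ q ∈ (Ico (2 ^ j) (2 * 2 ^ j)).filter (fun q => q.Coprime M),
        ((2 * 2 ^ j) ^ 2 * (K * E) : ℝ) := sum_le_sum hterm
    _ = (((Ico (2 ^ j) (2 * 2 ^ j)).filter (fun q => q.Coprime M)).card : ℝ)
        * ((2 * 2 ^ j) ^ 2 * (K * E)) := by rw [sum_const, nsmul_eq_mul]
    _ ≤ 2 ^ j * ((2 * 2 ^ j) ^ 2 * (K * E)) := by
        apply mul_le_mul_of_nonneg_right _ (by positivity)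
        have := card_filter_le (Ico (2 ^ j) (2 * 2 ^ j)) (fun q => q.Coprime M)
        rw [Nat.card_Ico] at this
        have e : 2 * 2 ^ j - 2 ^ j = 2 ^ j := by omega
        rw [e] at this
        exact_mod_cast this
    _ = K * ((2 : ℝ) ^ (3 * j + 2) * E) := by ring

/-- the large range -/
lemma glarge (M : ℕ) (κ c1 C1 C δ : ℝ) (hc1 : 0 < c1) (hC1 : 0 < C1) (hC : 0 < C) (hδ : 0 < δ) (A : ℕ)
    (hτ : ∀ n : ℕ, 1 ≤ n → (n.divisors.card : ℝ) ^ 2 ≤ C1 * (n : ℝ) ^ (δ / 2)) :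
    ∀ᶠ L : ℕ in atTop, ∀ U : ℕ → ℝ, (∀ q, 0 ≤ U q) →
      (∀ Q : ℕ, 1 ≤ Q → (Q : ℝ) ≤ (10 : ℝ) ^ (κ * L) →
        ∑ q ∈ (Ico Q (2 * Q)).filter (fun q => q.Coprime M), U q ≤ C * (Q : ℝ) ^ (1 - δ)) →
      ∀ j : ℕ, c1 * Real.sqrt L < j → (2 : ℝ) ^ j ≤ (10 : ℝ) ^ (κ * L) →
      ∑ q ∈ (Ico (2 ^ j) (2 * 2 ^ j)).filter (fun q => q.Coprime M),
        (q.divisors.card : ℝ) ^ 2 * U q / q ≤ 1 / (L : ℝ) ^ A := by
  have hl2 : 0 < Real.log 2 := Real.log_pos (by norm_num)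
  filter_upwards [dec (δ / 2 * Real.log 2 * c1) (C1 * 2 ^ (δ / 2) * C) (by positivity)
    (by positivity) A] with L hL U hU big j hcj hjD
  refine le_trans ?_ hL
  set Q : ℕ := 2 ^ j with hQ
  have hQ1 : 1 ≤ Q := Nat.one_le_two_pow
  have hQ0 : (0 : ℝ) < Q := by exact_mod_cast hQ1
  have hQr : (Q : ℝ) = 2 ^ j := by rw [hQ]; push_cast; ring
  have hpts := big Q hQ1 (by rw [hQr]; exact hjD)
  have hbl := gblock M hU Q hQ1 (δ / 2) C1 (by positivity) hC1.le hτ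
  refine hbl.trans ?_
  have hpos : 0 ≤ C1 * (2 * Q : ℝ) ^ (δ / 2) / Q := by positivity
  refine (mul_le_mul_of_nonneg_left hpts hpos).trans ?_
  have h1 : C1 * (2 * Q : ℝ) ^ (δ / 2) / Q * (C * (Q : ℝ) ^ (1 - δ)) =
      C1 * 2 ^ (δ / 2) * C * (Q : ℝ) ^ (-(δ / 2)) := by
    have h2 : (Q : ℝ) ^ (δ / 2) * (Q : ℝ) ^ (1 - δ) = (Q : ℝ) ^ (-(δ / 2)) * Q := by
      rw [← Real.rpow_add hQ0, ← Real.rpow_add_one hQ0.ne']
      congr 1
      ring
    rw [Real.mul_rpow (by norm_num) hQ0.le]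
    calc C1 * (2 ^ (δ / 2) * (Q : ℝ) ^ (δ / 2)) / Q * (C * (Q : ℝ) ^ (1 - δ))
        = C1 * 2 ^ (δ / 2) * C * ((Q : ℝ) ^ (δ / 2) * (Q : ℝ) ^ (1 - δ)) / Q := by ring
      _ = C1 * 2 ^ (δ / 2) * C * ((Q : ℝ) ^ (-(δ / 2)) * Q) / Q := by rw [h2]
      _ = _ := by field_simp
  rw [h1]
  apply mul_le_mul_of_nonneg_left _ (by positivity)
  have h3 : (Q : ℝ) ^ (-(δ / 2)) = Real.exp (-(δ / 2 * Real.log 2 * j)) := by
    rw [Real.rpow_def_of_pos hQ0, hQr, Real.log_pow]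
    congr 1
    ring
  rw [h3]
  apply Real.exp_le_exp.2
  have h4 : δ / 2 * Real.log 2 * (c1 * Real.sqrt L) ≤ δ / 2 * Real.log 2 * j :=
    mul_le_mul_of_nonneg_left hcj.le (by positivity)
  linarith

/-- the sum of the `U` -/
theorem gsum (M : ℕ) {κ C δ ρ K : ℝ} (h1 : κ ≤ 1) (hC : 0 < C) (hδ : 0 < δ) (hρ0 : 0 < ρ)
    (hρ1 : ρ < 1) (hK : 0 ≤ K) (A : ℕ) : ∀ᶠ L : ℕ in atTop, ∀ U : ℕ → ℝ, (∀ q, 0 ≤ U q) →
      (∀ Q : ℕ, 1 ≤ Q → (Q : ℝ) ≤ (10 : ℝ) ^ (κ * L) →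
        ∑ q ∈ (Ico Q (2 * Q)).filter (fun q => q.Coprime M), U q ≤ C * (Q : ℝ) ^ (1 - δ)) →
      (∀ j q : ℕ, 1 ≤ j → 2 ^ j ≤ q → q < 2 * 2 ^ j → q.Coprime M →
        U q ≤ K * q * ρ ^ ((L - 1) / (2 * j + 4))) →
    ∑ d ∈ (Icc 2 ⌊(10 : ℝ) ^ (κ * L)⌋₊).filter (fun q => q.Coprime M),
      (d.divisors.card : ℝ) ^ 2 * U d / d ≤ 1 / (L : ℝ) ^ A := by
  obtain ⟨c1, hc1, hsmall⟩ := small (1 - ρ) (by linarith) (by linarith) (A + 3)
  rw [sub_sub_cancel] at hsmall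
  obtain ⟨C1, hC1, hτ1⟩ := divisor_bound (δ / 4) (by positivity)
  have hτ1' : ∀ n : ℕ, 1 ≤ n → (n.divisors.card : ℝ) ^ 2 ≤ C1 ^ 2 * (n : ℝ) ^ (δ / 2) := by
    intro n hn
    have h1 := hτ1 n hn
    have h2 : ((n : ℝ) ^ (δ / 4)) ^ 2 = (n : ℝ) ^ (δ / 2) := by
      rw [← Real.rpow_natCast, ← Real.rpow_mul (by positivity)]
      congr 1
      push_cast
      ring
    calc (n.divisors.card : ℝ) ^ 2 ≤ (C1 * (n : ℝ) ^ (δ / 4)) ^ 2 :=
          pow_le_pow_left₀ (by positivity) h1 2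
      _ = _ := by rw [mul_pow, h2]
  have hlarge := glarge M κ c1 (C1 ^ 2) C δ hc1 (by positivity) hC hδ (A + 2) hτ1'
  have hBl : 0 < Real.log 10 := Real.log_pos (by norm_num)
  have hLB : ∀ᶠ L : ℕ in atTop, 2 * Real.log 10 ≤ (L : ℝ) :=
    tendsto_natCast_atTop_atTop.eventually_ge_atTop _
  have hLK : ∀ᶠ L : ℕ in atTop, K ≤ (L : ℝ) := tendsto_natCast_atTop_atTop.eventually_ge_atTop _
  filter_upwards [hsmall, hlarge, eventually_ge_atTop 2, hLB, hLK] with L h1' h2' hL2 hLB' hLK' U hU hbig hsm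
  set D : ℕ := ⌊(10 : ℝ) ^ (κ * L)⌋₊ with hD
  have hLp : (2 : ℝ) ≤ L := by exact_mod_cast hL2
  have hg : ∀ q : ℕ, 0 ≤ (q.divisors.card : ℝ) ^ 2 * U q / q := fun q =>
    div_nonneg (mul_nonneg (by positivity) (hU q)) (Nat.cast_nonneg q)
  refine (cover M D _ hg).trans ?_
  have hDr : (D : ℝ) ≤ (10 : ℝ) ^ (κ * L) := Nat.floor_le (by positivity)
  have hterm : ∀ j ∈ Icc 1 (Nat.log 2 D),
      ∑ q ∈ (Ico (2 ^ j) (2 * 2 ^ j)).filter (fun q => q.Coprime M),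
        (q.divisors.card : ℝ) ^ 2 * U q / q ≤ 1 / (L : ℝ) ^ (A + 2) := by
    intro j hj
    rw [mem_Icc] at hj
    have hD0 : D ≠ 0 := by
      intro h0
      rw [h0] at hj
      simp at hj
      omega
    have hjD : (2 : ℝ) ^ j ≤ (10 : ℝ) ^ (κ * L) := by
      have e1 : 2 ^ j ≤ D :=
        (Nat.pow_le_pow_right (by norm_num) hj.2).trans (Nat.pow_log_le_self 2 hD0)
      have e2 : (2 : ℝ) ^ j ≤ D := by exact_mod_cast e1
      exact e2.trans hDr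
    rcases le_or_gt (j : ℝ) (c1 * Real.sqrt L) with h | h
    · refine (gblock_small M K hK (by positivity) j (fun q => hsm j q hj.1)).trans ?_
      have h3 := h1' j h
      have h4 : 0 ≤ (2 : ℝ) ^ (3 * j + 2) * ρ ^ ((L - 1) / (2 * j + 4)) := by positivity
      calc K * ((2 : ℝ) ^ (3 * j + 2) * ρ ^ ((L - 1) / (2 * j + 4)))
          ≤ L * (1 / (L : ℝ) ^ (A + 3)) := mul_le_mul hLK' h3 h4 (by linarith)
        _ = 1 / (L : ℝ) ^ (A + 2) := by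
            have : (L : ℝ) ≠ 0 := by linarith
            rw [pow_succ]
            field_simp
    · exact h2' U hU hbig j h hjD
  refine (sum_le_sum hterm).trans ?_
  rw [sum_const, nsmul_eq_mul, Nat.card_Icc, Nat.add_sub_cancel]
  have hlog : (Nat.log 2 D : ℝ) ≤ L * (2 * Real.log 10) := by
    rcases Nat.eq_zero_or_pos D with h0 | h0
    · rw [h0]; simp; positivity
    have e1 : 2 ^ Nat.log 2 D ≤ D := Nat.pow_log_le_self 2 h0.ne'
    have e2 : (2 : ℝ) ^ Nat.log 2 D ≤ (10 : ℝ) ^ (κ * L) := by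
      have : (2 : ℝ) ^ Nat.log 2 D ≤ D := by exact_mod_cast e1
      exact this.trans hDr
    have e3 := Real.log_le_log (by positivity) e2
    rw [Real.log_pow, Real.log_rpow (by norm_num)] at e3
    have hl2 : 1 / 2 ≤ Real.log 2 := by
      have := Real.log_two_gt_d9
      linarith
    have e5 : κ * L * Real.log 10 ≤ 1 * L * Real.log 10 := by
      apply mul_le_mul_of_nonneg_right _ hBl.le
      apply mul_le_mul_of_nonneg_right h1 (by linarith)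
    have e6 : 1 * (L : ℝ) * Real.log 10 ≤ L * (2 * Real.log 10) * Real.log 2 := by
      have : 0 ≤ (L : ℝ) * Real.log 10 := by positivity
      nlinarith
    exact le_of_mul_le_mul_right (e3.trans (e5.trans e6)) (by linarith)
  calc (Nat.log 2 D : ℝ) * (1 / (L : ℝ) ^ (A + 2)) ≤ L * (2 * Real.log 10) * (1 / (L : ℝ) ^ (A + 2)) :=
        mul_le_mul_of_nonneg_right hlog (by positivity)
    _ ≤ 1 / (L : ℝ) ^ A := by
        rw [mul_one_div, div_le_div_iff₀ (by positivity) (by positivity), one_mul, pow_add]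
        have h0 : 0 < (L : ℝ) ^ A := by positivity
        have : (L : ℝ) * (2 * Real.log 10) ≤ L ^ 2 := by nlinarith
        nlinarith

end Pool.Agent.L5helper11.PD
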