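import Pool.Agent.L5helper11.PD.Big
import Pool.Agent.L5helper11.PD.Gen

/-!
# Palindromes with digits from prescribed digit sets: level of distribution
-/

set_option autoImplicit false

namespace Pool.Agent.L5helper11.PD

open Finset Filter Topology Pool.Agent.Helper112
open Pool.Agent.H623R3.PBT8 (orth group)

/-- the exponential sum, summed over the shifts by multiples of `1 / 21` -/
noncomputable def f21 (N : ℕ) (D : ℕ → Finset ℕ) (x : ℝ) : ℝ :=
  ∑ c ∈ range 21, FF N D (range (N + 1)) (x + (c : ℝ) / 21)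

lemma f21_nonneg (N : ℕ) (D : ℕ → Finset ℕ) (x : ℝ) : 0 ≤ f21 N D x :=
  Finset.sum_nonneg fun _ _ => FF_nonneg _ _ _ _

/-- the reduced part at denominator `q` -/
noncomputable def UU (N : ℕ) (D : ℕ → Finset ℕ) (q : ℕ) : ℝ :=
  ∑ a ∈ (range q).filter (fun a => a.Coprime q), f21 N D ((a : ℝ) / q)

lemma UU_nonneg (N : ℕ) (D : ℕ → Finset ℕ) (q : ℕ) : 0 ≤ UU N D q :=
  Finset.sum_nonneg fun _ _ => f21_nonneg _ _ _

/-- the fractions `a / q + c / 21` and the fractions `h / (21 q)` -/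
lemma UU_le {N : ℕ} {D : ℕ → Finset ℕ} {q : ℕ} (hq : 0 < q) (hc : q.Coprime 21) :
    UU N D q ≤ ∑ h ∈ (range (21 * q)).filter (fun h => h.Coprime q), FF N D (range (N + 1)) (fra (q, h)) := by
  classical
  have hqR : (0 : ℝ) < q := by exact_mod_cast hq
  set S := ((range q).filter (fun a => a.Coprime q)) ×ˢ range 21 with hS
  set φ : ℕ × ℕ → ℕ := fun x => (21 * x.1 + x.2 * q) % (21 * q) with hφ
  have h1 : UU N D q = ∑ x ∈ S, FF N D (range (N + 1)) (fra (q, φ x)) := by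
    unfold UU f21
    rw [hS, Finset.sum_product]
    refine sum_congr rfl fun a _ => sum_congr rfl fun c _ => ?_
    have e1 := Nat.div_add_mod (21 * a + c * q) (21 * q)
    have e2 : ((21 * q : ℕ) : ℝ) * (((21 * a + c * q) / (21 * q) : ℕ) : ℝ) + (((21 * a + c * q) % (21 * q) : ℕ) : ℝ) =
        ((21 * a + c * q : ℕ) : ℝ) := by exact_mod_cast e1
    have e3 : (a : ℝ) / q + (c : ℝ) / 21 = fra (q, (21 * a + c * q) % (21 * q)) +
        ((((21 * a + c * q) / (21 * q) : ℕ) : ℤ) : ℝ) := by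
      unfold fra
      simp only
      rw [Int.cast_natCast]
      generalize (((21 * a + c * q) / (21 * q) : ℕ) : ℝ) = d at e2
      generalize (((21 * a + c * q) % (21 * q) : ℕ) : ℝ) = r at e2
      push_cast at e2
      field_simp
      linarith
    rw [e3, FF_add_int]
  have hinj : Set.InjOn φ (S : Set (ℕ × ℕ)) := by
    rintro ⟨a, c⟩ hx ⟨a', c'⟩ hy hxy
    rw [hS, mem_coe, mem_product, mem_filter, mem_range, mem_range] at hx hy
    simp only [hφ] at hxy
    simp only at hx hy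
    have h2 : 21 * a + c * q ≡ 21 * a' + c' * q [MOD 21 * q] := hxy
    have h3 : 21 * a ≡ 21 * a' [MOD q] := by
      have h4 : 21 * a + c * q ≡ 21 * a' + c' * q [MOD q] := h2.of_dvd (Dvd.intro_left 21 rfl)
      have h5 : 21 * a + c * q ≡ 21 * a [MOD q] := by
        simp
      have h6 : 21 * a' + c' * q ≡ 21 * a' [MOD q] := by
        simp
      exact h5.symm.trans (h4.trans h6)
    have h4 : a ≡ a' [MOD q] := Nat.ModEq.cancel_left_of_coprime hc h3
    have h5 : a = a' := by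
      rwa [Nat.ModEq, Nat.mod_eq_of_lt hx.1.1, Nat.mod_eq_of_lt hy.1.1] at h4
    subst h5
    have h6 : c * q ≡ c' * q [MOD 21 * q] := Nat.ModEq.add_left_cancel' _ h2
    have h7 : c * q ≡ c' * q [MOD 21] := h6.of_dvd (Dvd.intro q rfl)
    have h8 : c ≡ c' [MOD 21] := Nat.ModEq.cancel_right_of_coprime (by rw [Nat.gcd_comm]; exact hc) h7
    have h9 : c = c' := by
      rwa [Nat.ModEq, Nat.mod_eq_of_lt hx.2, Nat.mod_eq_of_lt hy.2] at h8
    rw [h9]
  rw [h1, ← Finset.sum_image (f := fun h => FF N D (range (N + 1)) (fra (q, h))) hinj]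
  apply Finset.sum_le_sum_of_subset_of_nonneg
  · intro h hh
    rw [mem_image] at hh
    obtain ⟨⟨a, c⟩, hx, rfl⟩ := hh
    rw [hS, mem_product, mem_filter, mem_range, mem_range] at hx
    simp only at hx
    rw [mem_filter, mem_range]
    refine ⟨Nat.mod_lt _ (by omega), ?_⟩
    simp only [hφ]
    have h2 : ((21 * a + c * q) % (21 * q)) ≡ 21 * a [MOD q] := by
      have h3 : ((21 * a + c * q) % (21 * q)) ≡ 21 * a + c * q [MOD q] :=
        (Nat.mod_modEq _ (21 * q)).of_dvd (Dvd.intro_left 21 rfl)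
      have h5 : 21 * a + c * q ≡ 21 * a [MOD q] := by
        simp
      exact h3.trans h5
    have h3 : (21 * a).Coprime q := Nat.Coprime.mul_left hc.symm hx.1.2
    rw [Nat.Coprime, h2.gcd_eq]
    exact h3
  · intro _ _ _
    exact FF_nonneg _ _ _ _

/-- dyadic sums of `UU` -/
lemma UU_dyadic {N : ℕ} {D : ℕ → Finset ℕ} {Q : ℕ} (_hQ : 1 ≤ Q) :
    ∑ q ∈ (Ico Q (2 * Q)).filter (fun q => q.Coprime 210), UU N D q ≤
      ∑ x ∈ PQ Q, FF N D (range (N + 1)) (fra x) := by
  rw [Finset.sum_finset_product (PQ Q) ((Ico Q (2 * Q)).filter (fun q => q.Coprime 210))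
    (fun q => (range (21 * q)).filter (fun h => h.Coprime q)) (by
      rintro ⟨q, h⟩
      rw [mem_PQ, mem_filter, mem_Ico, mem_filter, mem_range]
      tauto)]
  refine sum_le_sum fun q hq => ?_
  rw [mem_filter, mem_Ico] at hq
  exact UU_le (by omega) (Nat.Coprime.coprime_dvd_right ⟨10, by norm_num⟩ hq.2)

/-- single `UU` -/
lemma UU_single {N q n : ℕ} {D : ℕ → Finset ℕ} (hD : Good N D) (hq : 1 < q) (hc : q.Coprime 210)
    (hqn : q ≤ 10 ^ n) : UU N D q ≤ 21 * q * rh ^ ((N - 1) / (n + 2)) := by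
  refine (UU_le (by omega) (Nat.Coprime.coprime_dvd_right ⟨10, by norm_num⟩ hc)).trans ?_
  refine (Finset.sum_le_sum fun h hh => single hD hq hc (mem_filter.1 hh).2 hqn).trans ?_
  rw [Finset.sum_const, nsmul_eq_mul]
  apply mul_le_mul_of_nonneg_right _ (pow_nonneg rh_pos.le _)
  have := card_filter_le (range (21 * q)) (fun h => h.Coprime q)
  rw [card_range] at this
  exact_mod_cast this

/-- the sum of the `UU` -/
theorem UU_sum {κ κX : ℝ} (hκ : 0 < κ) (hκX : 2 * κ < κX) (hX1 : κX ≤ 1) (A : ℕ) :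
    ∀ᶠ N : ℕ in atTop, ∀ D : ℕ → Finset ℕ, Good N D → (10 : ℝ) ^ (κX * N) ≤ (XX N D : ℝ) →
      ∑ d ∈ (Icc 2 ⌊(10 : ℝ) ^ (κ * N)⌋₊).filter (fun q => q.Coprime 210),
      (d.divisors.card : ℝ) ^ 2 * UU N D d / d ≤ 1 / (N : ℝ) ^ A := by
  obtain ⟨C, δ, hC, hδ, _, hbig⟩ := big hκ hκX hX1
  have h := gsum 210 (κ := κ) (C := C) (δ := δ) (ρ := rh) (K := 21) (by linarith) hC hδ rh_pos rh_lt_one
    (by norm_num) A
  filter_upwards [h] with N hN D hD hX
  refine hN (UU N D) (UU_nonneg N D) (fun Q hQ hQ2 => (UU_dyadic hQ).trans (hbig N D hD hX Q hQ hQ2)) ?_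
  intro j q hj h1 h2 h3
  have h2j : 2 ^ 1 ≤ 2 ^ j := Nat.pow_le_pow_right (by norm_num) hj
  have hqn : q ≤ 10 ^ (j + 1) := by
    calc q ≤ 2 * 2 ^ j := h2.le
      _ = 2 ^ (j + 1) := by ring
      _ ≤ 10 ^ (j + 1) := Nat.pow_le_pow_left (by norm_num) _
  refine (UU_single hD (by omega) h3 hqn).trans ?_
  apply mul_le_mul_of_nonneg_left _ (by positivity)
  apply pow_le_pow_of_le_one rh_pos.le rh_lt_one.le
  apply Nat.div_le_div_left (by omega) (by omega)

/-! ### the remainder -/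

/-- the index type -/
abbrev Ix (N : ℕ) : Type := (range (N + 1) : Finset ℕ) → ℕ

/-- the value -/
def vv (N : ℕ) (m : Ix N) : ℕ := vB N (range (N + 1)) m

/-- the choices of digits with value prime to `21` -/
def S21 (N : ℕ) (D : ℕ → Finset ℕ) : Finset (Ix N) :=
  (cf D (range (N + 1))).filter (fun m => (vv N m).Coprime 21)

/-- Fourier coefficients of the indicator function of the residues prime to `21` -/
noncomputable def gh (c : ℕ) : ℂ := (1 / 21 : ℂ) * ∑ u ∈ (range 21).filter (fun u => u.Coprime 21),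
  ee (-((c : ℝ) * (u : ℝ) / 21))

lemma norm_gh (c : ℕ) : ‖gh c‖ ≤ 1 := by
  unfold gh
  rw [norm_mul]
  have h1 : ‖∑ u ∈ (range 21).filter (fun u => u.Coprime 21), ee (-((c : ℝ) * (u : ℝ) / 21))‖ ≤ 21 := by
    refine (norm_sum_le _ _).trans ?_
    simp only [ls_norm_ee, sum_const, nsmul_eq_mul, mul_one]
    have : ((range 21).filter (fun u => u.Coprime 21)).card ≤ 21 := by
      refine (card_filter_le _ _).trans ?_
      rw [card_range]
    exact_mod_cast this
  have h2 : ‖(1 / 21 : ℂ)‖ = 1 / 21 := by simp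
  rw [h2]
  linarith

lemma ind21 (v : ℕ) : ∑ c ∈ range 21, gh c * ee ((c : ℝ) * (v : ℝ) / 21) =
    if v.Coprime 21 then 1 else 0 := by
  have h1 : ∑ c ∈ range 21, gh c * ee ((c : ℝ) * (v : ℝ) / 21) =
      (1 / 21 : ℂ) * ∑ u ∈ (range 21).filter (fun u => u.Coprime 21),
        ∑ c ∈ range 21, ee ((c : ℝ) * (((v : ℝ) - (u : ℝ)) / ((21 : ℕ) : ℝ))) := by
    rw [Finset.sum_comm, mul_sum]
    refine sum_congr rfl fun c _ => ?_
    unfold gh
    rw [mul_assoc, Finset.sum_mul]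
    congr 1
    refine sum_congr rfl fun u _ => ?_
    rw [← ls_ee_add]
    congr 1
    push_cast
    ring
  rw [h1]
  have h2 : ∀ u ∈ (range 21).filter (fun u => u.Coprime 21),
      ∑ c ∈ range 21, ee ((c : ℝ) * (((v : ℝ) - (u : ℝ)) / ((21 : ℕ) : ℝ))) =
      if u = v % 21 then (21 : ℂ) else 0 := by
    intro u hu
    rw [mem_filter, mem_range] at hu
    rw [orth (by norm_num) v u]
    have : v ≡ u [MOD 21] ↔ u = v % 21 := by
      rw [Nat.ModEq, Nat.mod_eq_of_lt hu.1]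
      exact eq_comm
    simp only [this]
    norm_num
  rw [sum_congr rfl h2, Finset.sum_ite_eq']
  have h3 : v % 21 ∈ (range 21).filter (fun u => u.Coprime 21) ↔ v.Coprime 21 := by
    rw [mem_filter, mem_range]
    have : (v % 21).Coprime 21 ↔ v.Coprime 21 := by
      rw [Nat.Coprime, (Nat.mod_modEq v 21).gcd_eq]
    rw [this]
    exact ⟨fun h => h.2, fun h => ⟨Nat.mod_lt _ (by norm_num), h⟩⟩
  simp only [h3]
  split_ifs
  · norm_num
  · simp

/-- counting by exponential sums -/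
theorem cnt_bound (N : ℕ) (D : ℕ → Finset ℕ) {q : ℕ} (hq0 : 0 < q) :
    |(((S21 N D).filter (fun m => q ∣ vv N m)).card : ℝ) - ((S21 N D).card : ℝ) / q| ≤
      (XX N D : ℝ) / q * ∑ d ∈ q.divisors.filter (fun d => 1 < d), UU N D d := by
  classical
  have hqr : (0 : ℝ) < q := by exact_mod_cast hq0
  have hqc : (q : ℂ) ≠ 0 := by exact_mod_cast hq0.ne'
  set T : ℕ → ℂ := fun a => ∑ m ∈ S21 N D, ee ((a : ℝ) * (((vv N m : ℕ) : ℝ) / q)) with hT
  have h1 : ((((S21 N D).filter (fun m => q ∣ vv N m)).card : ℝ) : ℂ) = (1 / (q : ℂ)) * ∑ a ∈ range q, T a := by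
    have h2 : ((((S21 N D).filter (fun m => q ∣ vv N m)).card : ℝ) : ℂ) = ∑ m ∈ S21 N D,
        (1 / (q : ℂ)) * ∑ a ∈ range q, ee ((a : ℝ) * ((((vv N m : ℕ) : ℝ) - ((0 : ℕ) : ℝ)) / q)) := by
      rw [Finset.card_filter]
      push_cast
      refine sum_congr rfl fun m _ => ?_
      have := orth hq0 (vv N m) 0
      push_cast at this
      rw [this]
      by_cases hm : q ∣ vv N m
      · rw [if_pos hm, if_pos (Nat.modEq_zero_iff_dvd.2 hm)]
        push_cast
        field_simp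
      · rw [if_neg hm, if_neg (fun h => hm (Nat.modEq_zero_iff_dvd.1 h))]
        simp
    rw [h2, ← mul_sum, sum_comm]
    congr 1
    refine sum_congr rfl fun a _ => ?_
    simp only [hT]
    refine sum_congr rfl fun m _ => ?_
    congr 1
    push_cast
    ring
  have hT0 : T 0 = ((S21 N D).card : ℂ) := by
    simp only [hT]
    simp [ls_ee_zero]
  have hTn : ∀ a, ‖T a‖ ≤ (XX N D : ℝ) * f21 N D ((a : ℝ) / q) := by
    intro a
    have e1 : T a = ∑ c ∈ range 21, gh c * ∑ m ∈ cf D (range (N + 1)),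
        ee (((a : ℝ) / q + (c : ℝ) / 21) * (vB N (range (N + 1)) m : ℝ)) := by
      simp only [hT]
      unfold S21
      rw [Finset.sum_filter]
      simp only [mul_sum]
      rw [Finset.sum_comm]
      refine sum_congr rfl fun m _ => ?_
      have e2 := ind21 (vv N m)
      have e3 : ∀ c ∈ range 21, gh c * ee (((a : ℝ) / q + (c : ℝ) / 21) * (vB N (range (N + 1)) m : ℝ)) =
          (gh c * ee ((c : ℝ) * (vv N m : ℝ) / 21)) * ee ((a : ℝ) * (((vv N m : ℕ) : ℝ) / q)) := by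
        intro c _
        rw [mul_assoc, ← ls_ee_add]
        congr 2
        unfold vv
        ring
      rw [sum_congr rfl e3, ← Finset.sum_mul, e2]
      split_ifs
      · rw [one_mul]
      · rw [zero_mul]
    rw [e1]
    refine (norm_sum_le _ _).trans ?_
    unfold f21
    rw [mul_sum]
    refine sum_le_sum fun c _ => ?_
    rw [norm_mul, norm_sum, card_cf]
    have h5 := norm_gh c
    have h6 : (0 : ℝ) ≤ ((∏ i ∈ range (N + 1), (D i).card : ℕ) : ℝ) *
        FF N D (range (N + 1)) ((a : ℝ) / q + (c : ℝ) / 21) :=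
      mul_nonneg (Nat.cast_nonneg _) (FF_nonneg _ _ _ _)
    calc ‖gh c‖ * _ ≤ 1 * _ := mul_le_mul_of_nonneg_right h5 h6
      _ = _ := by rw [one_mul]; rfl
  have h3 : ((((S21 N D).filter (fun m => q ∣ vv N m)).card : ℝ) : ℂ) - ((S21 N D).card : ℂ) / q =
      (1 / (q : ℂ)) * ∑ a ∈ (range q).erase 0, T a := by
    rw [h1, ← Finset.add_sum_erase _ _ (mem_range.2 hq0), hT0]
    ring
  have h4 : |(((S21 N D).filter (fun m => q ∣ vv N m)).card : ℝ) - ((S21 N D).card : ℝ) / q| ≤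
      (1 / (q : ℝ)) * ∑ a ∈ (range q).erase 0, (XX N D : ℝ) * f21 N D ((a : ℝ) / q) := by
    have h5 : |(((S21 N D).filter (fun m => q ∣ vv N m)).card : ℝ) - ((S21 N D).card : ℝ) / q| =
        ‖((((S21 N D).filter (fun m => q ∣ vv N m)).card : ℝ) : ℂ) - ((S21 N D).card : ℂ) / q‖ := by
      rw [← Real.norm_eq_abs, ← Complex.norm_real]
      push_cast
      rfl
    rw [h5, h3, norm_mul]
    have h6 : ‖(1 / (q : ℂ))‖ = 1 / (q : ℝ) := by simp
    rw [h6]
    refine mul_le_mul_of_nonneg_left ?_ (by positivity)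
    exact (norm_sum_le _ _).trans (sum_le_sum fun a _ => hTn a)
  refine h4.trans (le_of_eq ?_)
  rw [← mul_sum]
  have h7 : ∑ a ∈ (range q).erase 0, f21 N D ((a : ℝ) / q) =
      ∑ d ∈ q.divisors.filter (fun d => 1 < d), UU N D d := by
    have h8 := group hq0 (f21 N D)
    rw [← Finset.add_sum_erase _ _ (mem_range.2 hq0)] at h8
    have h9 : q.divisors.filter (fun d => 1 < d) = q.divisors.erase 1 := by
      ext d
      rw [mem_filter, mem_erase, Nat.mem_divisors]
      constructor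
      · rintro ⟨h1, h2⟩
        exact ⟨by omega, h1⟩
      · rintro ⟨h1, h2⟩
        refine ⟨h2, ?_⟩
        have := Nat.pos_of_dvd_of_pos h2.1 hq0
        omega
    have h10 : (1 : ℕ) ∈ q.divisors := Nat.one_mem_divisors.2 hq0.ne'
    rw [← Finset.add_sum_erase _ _ h10] at h8
    have h11 : ∑ a ∈ (range 1).filter (fun a => a.Coprime 1), f21 N D ((a : ℝ) / (1 : ℕ)) =
        f21 N D (((0 : ℕ) : ℝ) / q) := by
      simp
    rw [h11] at h8
    rw [h9]
    unfold UU
    linarith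
  rw [h7]
  ring

/-- the double sum over multiples -/
lemma gdouble (M : ℕ) {U : ℕ → ℝ} (hU : ∀ q, 0 ≤ U q) {P : ℝ} (hP0 : 0 ≤ P) (D : ℕ) :
    ∑ q ∈ (Icc 1 D).filter (fun q => q.Coprime M),
      (q.divisors.card : ℝ) ^ 2 * (P / q * ∑ d ∈ q.divisors.filter (fun d => 1 < d), U d) ≤
    P * ((∑ d ∈ (Icc 2 D).filter (fun q => q.Coprime M),
      (d.divisors.card : ℝ) ^ 2 * U d / d) *
        ∑ e ∈ Icc 1 D, (e.divisors.card : ℝ) ^ 2 / e) := by
  have h1 : ∀ q ∈ (Icc 1 D).filter (fun q => q.Coprime M),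
      (q.divisors.card : ℝ) ^ 2 * (P / q * ∑ d ∈ q.divisors.filter (fun d => 1 < d), U d) ≤
      ∑ d ∈ q.divisors.filter (fun d => 1 < d), P * (((d.divisors.card : ℝ) ^ 2 * U d / d) *
        (((q / d).divisors.card : ℝ) ^ 2 / ((q / d : ℕ) : ℝ))) := by
    intro q hq
    rw [mem_filter, mem_Icc] at hq
    have hq0 : 0 < q := hq.1.1
    rw [mul_sum, mul_sum]
    refine sum_le_sum fun d hd => ?_
    rw [mem_filter, Nat.mem_divisors] at hd
    obtain ⟨⟨⟨e, he⟩, _⟩, hd1⟩ := hd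
    have hd0 : 0 < d := by omega
    have he0 : 0 < e := by
      rcases Nat.eq_zero_or_pos e with h0 | h0
      · subst h0; simp at he; omega
      · exact h0
    have hqd : q / d = e := by rw [he, Nat.mul_div_cancel_left _ hd0]
    rw [hqd, he]
    have hd' : (0 : ℝ) < d := by exact_mod_cast hd0
    have he' : (0 : ℝ) < e := by exact_mod_cast he0
    have ht : ((d * e).divisors.card : ℝ) ≤ (d.divisors.card : ℝ) * e.divisors.card := by
      exact_mod_cast Pool.Agent.H316R2.tau_mul_le d e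
    have ht2 : ((d * e).divisors.card : ℝ) ^ 2 ≤
        ((d.divisors.card : ℝ) * e.divisors.card) ^ 2 := by gcongr
    have hU := hU d
    push_cast
    calc ((d * e).divisors.card : ℝ) ^ 2 * (P / (d * e) * U d)
        ≤ ((d.divisors.card : ℝ) * e.divisors.card) ^ 2 * (P / (d * e) * U d) := by
          gcongr
      _ = _ := by
          field_simp
  refine (sum_le_sum h1).trans ?_
  rw [sum_sigma', sum_mul_sum, mul_sum]
  simp_rw [mul_sum]
  rw [sum_sigma' (s := (Icc 2 D).filter (fun q => q.Coprime M)) (t := fun _ => Icc 1 D)]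
  -- injection `(q, d) ↦ (d, q / d)`
  set g : (_ : ℕ) × ℕ → (_ : ℕ) × ℕ := fun x => ⟨x.2, x.1 / x.2⟩ with hg
  set F : (_ : ℕ) × ℕ → ℝ := fun x => P * (((x.1.divisors.card : ℝ) ^ 2 * U x.1 / x.1) *
        ((x.2.divisors.card : ℝ) ^ 2 / (x.2 : ℝ))) with hF
  have hinj : Set.InjOn g (((Icc 1 D).filter (fun q => q.Coprime M)).sigma
      (fun q => q.divisors.filter (fun d => 1 < d)) : Finset ((_ : ℕ) × ℕ)) := by
    rintro ⟨q, d⟩ hx ⟨q', d'⟩ hx' hxx
    rw [Finset.mem_coe, mem_sigma, mem_filter, mem_filter, Nat.mem_divisors] at hx hx'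
    simp only [hg, Sigma.mk.injEq, heq_eq_eq] at hxx
    obtain ⟨h1, h2⟩ := hxx
    simp only at hx hx'
    subst h1
    have h3 : q = q' := by
      rw [← Nat.div_mul_cancel hx.2.1.1, h2, Nat.div_mul_cancel hx'.2.1.1]
    subst h3
    rfl
  have hsum : ∑ x ∈ ((Icc 1 D).filter (fun q => q.Coprime M)).sigma
      (fun q => q.divisors.filter (fun d => 1 < d)), F (g x) =
      ∑ y ∈ (((Icc 1 D).filter (fun q => q.Coprime M)).sigma
      (fun q => q.divisors.filter (fun d => 1 < d))).image g, F y := by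
    rw [sum_image hinj]
  have hgoal : ∑ x ∈ ((Icc 1 D).filter (fun q => q.Coprime M)).sigma
      (fun q => q.divisors.filter (fun d => 1 < d)), F (g x) ≤
      ∑ y ∈ ((Icc 2 D).filter (fun q => q.Coprime M)).sigma (fun _ => Icc 1 D), F y := by
    rw [hsum]
    refine sum_le_sum_of_subset_of_nonneg ?_ ?_
    · intro y hy
      rw [mem_image] at hy
      obtain ⟨⟨q, d⟩, hx, rfl⟩ := hy
      rw [mem_sigma, mem_filter, mem_filter, Nat.mem_divisors, mem_Icc] at hx
      simp only at hx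
      obtain ⟨⟨⟨hq1, hqD⟩, hqc⟩, ⟨hdq, _⟩, hd1⟩ := hx
      rw [mem_sigma, mem_filter, mem_Icc, mem_Icc]
      simp only [hg]
      have hle := Nat.le_of_dvd hq1 hdq
      refine ⟨⟨⟨hd1, hle.trans hqD⟩, Nat.Coprime.coprime_dvd_left hdq hqc⟩, ?_, ?_⟩
      · exact Nat.div_pos hle (by omega)
      · exact (Nat.div_le_self _ _).trans hqD
    · intro y _ _
      simp only [hF]
      have := hU y.1
      positivity
  exact hgoal

/-- the level of distribution -/
theorem level {κ κX : ℝ} (hκ : 0 < κ) (hκX : 2 * κ < κX) (hX1 : κX ≤ 1) (A : ℕ) :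
    ∀ᶠ N : ℕ in atTop, ∀ D : ℕ → Finset ℕ, Good N D → (10 : ℝ) ^ (κX * N) ≤ (XX N D : ℝ) →
      ∑ q ∈ (Icc 1 ⌊(10 : ℝ) ^ (κ * N)⌋₊).filter (fun q => q.Coprime 210),
      (q.divisors.card : ℝ) ^ 2 *
        |(((S21 N D).filter (fun m => q ∣ vv N m)).card : ℝ) - ((S21 N D).card : ℝ) / q| ≤
        (XX N D : ℝ) / (N : ℝ) ^ A := by
  filter_upwards [UU_sum hκ hκX hX1 (A + 5), eventually_ge_atTop (4 ^ 4)] with N hN hN4 D hD hX
  set E := ⌊(10 : ℝ) ^ (κ * N)⌋₊ with hE
  have hN4' : (4 : ℝ) ^ 4 ≤ N := by exact_mod_cast hN4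
  have hN1 : (1 : ℝ) ≤ N := by
    have : (1 : ℝ) ≤ (4 : ℝ) ^ 4 := by norm_num
    linarith
  have hN0 : (0 : ℝ) < N := by linarith
  have h1 : ∑ q ∈ (Icc 1 E).filter (fun q => q.Coprime 210),
      (q.divisors.card : ℝ) ^ 2 *
        |(((S21 N D).filter (fun m => q ∣ vv N m)).card : ℝ) - ((S21 N D).card : ℝ) / q| ≤
      ∑ q ∈ (Icc 1 E).filter (fun q => q.Coprime 210),
      (q.divisors.card : ℝ) ^ 2 *
        ((XX N D : ℝ) / q * ∑ d ∈ q.divisors.filter (fun d => 1 < d), UU N D d) := by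
    refine sum_le_sum fun q hq => ?_
    rw [mem_filter, mem_Icc] at hq
    exact mul_le_mul_of_nonneg_left (cnt_bound N D hq.1.1) (by positivity)
  have h2 := h1.trans (gdouble 210 (UU_nonneg N D) (P := (XX N D : ℝ)) (Nat.cast_nonneg _) E)
  have h3 := Pool.Agent.H316R2.tau_sq_sum_le E
  have hlog : 1 + Real.log E ≤ 4 * N := by
    rcases Nat.eq_zero_or_pos E with h0 | h0
    · rw [h0]
      simp only [Nat.cast_zero, Real.log_zero, add_zero]
      linarith
    · have hEle : (E : ℝ) ≤ (10 : ℝ) ^ (κ * N) := Nat.floor_le (by positivity)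
      have h4 := Real.log_le_log (by exact_mod_cast h0 : (0 : ℝ) < E) hEle
      rw [Real.log_rpow (by norm_num)] at h4
      have h5 := log_ten_lt
      have h6 := log_ten
      have h7 : κ * N ≤ 1 * N := mul_le_mul_of_nonneg_right (by linarith) hN0.le
      nlinarith
  have hlog0 : 0 ≤ 1 + Real.log E := by
    have := Real.log_natCast_nonneg E
    linarith
  have h4 : ∑ e ∈ Icc 1 E, (e.divisors.card : ℝ) ^ 2 / e ≤ (4 : ℝ) ^ 4 * (N : ℝ) ^ 4 := by
    refine h3.trans ?_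
    calc (1 + Real.log E) ^ 4 ≤ (4 * (N : ℝ)) ^ 4 := by gcongr
      _ = (4 : ℝ) ^ 4 * (N : ℝ) ^ 4 := by ring
  refine h2.trans ?_
  have hS0 : 0 ≤ ∑ e ∈ Icc 1 E, (e.divisors.card : ℝ) ^ 2 / e :=
    sum_nonneg fun _ _ => by positivity
  have hX0 : (0 : ℝ) ≤ (XX N D : ℝ) := Nat.cast_nonneg _
  have hNN := hN D hD hX
  calc (XX N D : ℝ) * ((∑ d ∈ (Icc 2 E).filter (fun q => q.Coprime 210),
      (d.divisors.card : ℝ) ^ 2 * UU N D d / d) *
        ∑ e ∈ Icc 1 E, (e.divisors.card : ℝ) ^ 2 / e)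
      ≤ (XX N D : ℝ) * ((1 / (N : ℝ) ^ (A + 5)) * ((4 : ℝ) ^ 4 * (N : ℝ) ^ 4)) :=
        mul_le_mul_of_nonneg_left (mul_le_mul hNN h4 hS0 (by positivity)) hX0
    _ ≤ (XX N D : ℝ) / (N : ℝ) ^ A := by
        generalize (4 : ℝ) ^ 4 = B at hN4'
        have h5 : (1 / (N : ℝ) ^ (A + 5)) * (B * (N : ℝ) ^ 4) = B / N * (1 / (N : ℝ) ^ A) := by
          have hy : ((N : ℝ) ^ A) ≠ 0 := by positivity
          have hx : (N : ℝ) ≠ 0 := hN0.ne'
          rw [pow_add]
          generalize (N : ℝ) ^ A = y at hy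
          generalize (N : ℝ) = x at hx
          field_simp
        rw [h5]
        have h6 : B / (N : ℝ) ≤ 1 := by rw [div_le_one hN0]; exact hN4'
        have h7 : (0 : ℝ) < 1 / (N : ℝ) ^ A := by positivity
        calc (XX N D : ℝ) * (B / N * (1 / (N : ℝ) ^ A))
            ≤ (XX N D : ℝ) * (1 * (1 / (N : ℝ) ^ A)) := by gcongr
          _ = _ := by ring

end Pool.Agent.L5helper11.PD
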