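import Pool.Agent.L5helper11.PD.Cnt
import Pool.Agent.H623R3.PBT8

/-!
# Palindromes with digits from prescribed digit sets: mean squares
-/

set_option autoImplicit false

namespace Pool.Agent.L5helper11.PD

open Finset Pool.Agent.Helper112
open Pool.Agent.H623R3.PBT8 (orth)

/-! ### the weights -/

lemma wt_sum_lt (N : ℕ) : 9 * ∑ i ∈ range (N + 1), wt N i + 1 = 10 ^ (2 * N + 1) := by
  have key : ∀ n ≤ N, 9 * ∑ i ∈ range n, wt N i + 1 + 10 ^ (2 * N + 1 - n) = 10 ^ n + 10 ^ (2 * N + 1) := by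
    intro n
    induction n with
    | zero => intro _; simp
    | succ n ih =>
      intro hn
      have h1 := ih (by omega)
      rw [sum_range_succ]
      have h2 : wt N n = 10 ^ n + 10 ^ (2 * N - n) := by
        unfold wt
        rw [if_pos (by omega)]
      have e1 : 10 ^ (2 * N + 1 - n) = 10 * 10 ^ (2 * N - n) := by
        rw [← pow_succ']
        congr 1
        omega
      have e2 : 2 * N + 1 - (n + 1) = 2 * N - n := by omega
      rw [e1] at h1
      rw [h2, e2, pow_succ]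
      omega
  have h1 := key N le_rfl
  rw [sum_range_succ]
  have h2 : wt N N = 10 ^ N := by
    unfold wt
    rw [if_neg (by omega)]
  have e1 : 2 * N + 1 - N = N + 1 := by omega
  rw [e1, pow_succ] at h1
  rw [h2]
  omega

/-- the digits are determined by the value -/
lemma wt_inj {N : ℕ} (g : ℕ → ℤ) (hg : ∀ j, |g j| < 10)
    (h : ∑ j ∈ range (N + 1), g j * (wt N j : ℤ) = 0) : ∀ j ≤ N, g j = 0 := by
  intro j
  induction j using Nat.strong_induction_on with
  | _ j ih =>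
    intro hj
    have hmem : j ∈ range (N + 1) := mem_range.2 (by omega)
    rw [← Finset.add_sum_erase _ _ hmem] at h
    have h1 : ((10 : ℤ) ^ (j + 1)) ∣ ∑ i ∈ (range (N + 1)).erase j, g i * (wt N i : ℤ) := by
      apply Finset.dvd_sum
      intro i hi
      rw [mem_erase, mem_range] at hi
      rcases lt_or_gt_of_ne hi.1 with h2 | h2
      · rw [ih i h2 (by omega), zero_mul]
        exact dvd_zero _
      · apply Dvd.dvd.mul_left
        have h3 : 10 ^ (j + 1) ∣ wt N i := by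
          unfold wt
          split_ifs with h4
          · exact dvd_add (pow_dvd_pow _ (by omega)) (pow_dvd_pow _ (by omega))
          · exact pow_dvd_pow _ (by omega)
        exact_mod_cast h3
    have h2 : ((10 : ℤ) ^ (j + 1)) ∣ g j * (wt N j : ℤ) := (Int.dvd_iff_dvd_of_dvd_add (by rw [h]; exact dvd_zero _)).2 h1
    obtain ⟨u, hu, hu1⟩ : ∃ u : ℕ, wt N j = 10 ^ j * u ∧ u.Coprime 10 := by
      unfold wt
      split_ifs with h4
      · refine ⟨1 + 10 ^ (2 * N - 2 * j), ?_, ?_⟩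
        · rw [mul_add, mul_one, ← pow_add]
          congr 2
          omega
        · obtain ⟨k, hk⟩ : ∃ k, 2 * N - 2 * j = k + 1 := ⟨2 * N - 2 * j - 1, by omega⟩
          rw [hk, pow_succ]
          have : (1 + 10 ^ k * 10).Coprime 10 := by
            rw [Nat.coprime_add_mul_right_left]
            norm_num
          exact this
      · have : j = N := by omega
        subst this
        exact ⟨1, by ring, by norm_num⟩
    rw [hu] at h2
    push_cast at h2
    have h3 : (10 : ℤ) ^ j * 10 ∣ (10 : ℤ) ^ j * (g j * u) := by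
      have e : (10 : ℤ) ^ j * (g j * u) = g j * (10 ^ j * u) := by ring
      rw [e, ← pow_succ]
      exact h2
    have h4 : (10 : ℤ) ∣ g j * u := (mul_dvd_mul_iff_left (by positivity)).1 h3
    have h5 : IsCoprime (10 : ℤ) (u : ℤ) := by
      have := Nat.isCoprime_iff_coprime.2 hu1.symm
      exact_mod_cast this
    have h6 : (10 : ℤ) ∣ g j := h5.dvd_of_dvd_mul_right h4
    exact Int.eq_zero_of_abs_lt_dvd h6 (hg j)

/-! ### configurations -/

/-- choices of the digits in `B` -/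
def cf (D : ℕ → Finset ℕ) (B : Finset ℕ) : Finset (B → ℕ) := Fintype.piFinset (fun i : B => D i)

/-- the value of a choice of digits -/
def vB (N : ℕ) (B : Finset ℕ) (m : B → ℕ) : ℕ := ∑ i : B, m i * wt N i

/-- the number of choices -/
lemma card_cf (D : ℕ → Finset ℕ) (B : Finset ℕ) : (cf D B).card = ∏ i ∈ B, (D i).card := by
  unfold cf
  rw [Fintype.card_piFinset]
  exact Finset.prod_coe_sort B (fun i => (D i).card)

lemma vB_inj {N : ℕ} {D : ℕ → Finset ℕ} (hD : ∀ i, D i ⊆ range 10) {B : Finset ℕ} (hB : B ⊆ range (N + 1))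
    {m m' : B → ℕ} (hm : m ∈ cf D B) (hm' : m' ∈ cf D B) (h : vB N B m = vB N B m') : m = m' := by
  unfold cf at hm hm'
  rw [Fintype.mem_piFinset] at hm hm'
  set g : ℕ → ℤ := fun j => if hj : j ∈ B then (m ⟨j, hj⟩ : ℤ) - m' ⟨j, hj⟩ else 0 with hg
  have h1 : ∀ j, |g j| < 10 := by
    intro j
    simp only [hg]
    split_ifs with hj
    · have e1 := mem_range.1 (hD j (hm ⟨j, hj⟩))
      have e2 := mem_range.1 (hD j (hm' ⟨j, hj⟩))
      rw [abs_lt]
      constructor <;> omega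
    · norm_num
  have h2 : ∑ j ∈ range (N + 1), g j * (wt N j : ℤ) = 0 := by
    have e1 : ∑ j ∈ range (N + 1), g j * (wt N j : ℤ) = ∑ j ∈ B, g j * (wt N j : ℤ) := by
      symm
      refine Finset.sum_subset hB fun j _ hj => ?_
      simp [hg, hj]
    rw [e1, ← Finset.sum_coe_sort B (fun j => g j * (wt N j : ℤ))]
    have e2 : ∀ i : B, g i * (wt N i : ℤ) = (m i : ℤ) * wt N i - (m' i : ℤ) * wt N i := by
      intro i
      simp only [hg, i.2, dif_pos]
      ring
    rw [Finset.sum_congr rfl fun i _ => e2 i, Finset.sum_sub_distrib, sub_eq_zero]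
    unfold vB at h
    exact_mod_cast h
  have h3 := wt_inj g h1 h2
  funext i
  have h4 := h3 i (by have := mem_range.1 (hB i.2); omega)
  simp only [hg, i.2, dif_pos] at h4
  have : (m i : ℤ) = m' i := by linarith
  exact_mod_cast this

lemma vB_lt {N : ℕ} {D : ℕ → Finset ℕ} (hD : ∀ i, D i ⊆ range 10) {B : Finset ℕ} (hB : B ⊆ range (N + 1))
    {m : B → ℕ} (hm : m ∈ cf D B) : vB N B m < 10 ^ (2 * N + 1) := by
  unfold cf at hm
  rw [Fintype.mem_piFinset] at hm
  have h1 : vB N B m ≤ ∑ i : B, 9 * wt N i := by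
    unfold vB
    refine Finset.sum_le_sum fun i _ => Nat.mul_le_mul_right _ ?_
    have := mem_range.1 (hD i (hm i))
    omega
  have h2 : ∑ i : B, 9 * wt N (i : ℕ) = ∑ i ∈ B, 9 * wt N i := Finset.sum_coe_sort B (fun i => 9 * wt N i)
  have h3 : ∑ i ∈ B, 9 * wt N i ≤ ∑ i ∈ range (N + 1), 9 * wt N i :=
    Finset.sum_le_sum_of_subset hB
  have h4 := wt_sum_lt N
  rw [← Finset.mul_sum (range (N + 1))] at h3
  omega

/-! ### exponential sums -/

/-- the normalised exponential sum over the digits in `B` -/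
noncomputable def FF (N : ℕ) (D : ℕ → Finset ℕ) (B : Finset ℕ) (α : ℝ) : ℝ :=
  ∏ i ∈ B, sd (D i) (wt N i * α)

lemma FF_nonneg (N : ℕ) (D : ℕ → Finset ℕ) (B : Finset ℕ) (α : ℝ) : 0 ≤ FF N D B α :=
  Finset.prod_nonneg fun _ _ => sd_nonneg _ _

lemma FF_le_one (N : ℕ) (D : ℕ → Finset ℕ) (B : Finset ℕ) (α : ℝ) : FF N D B α ≤ 1 :=
  Finset.prod_le_one (fun _ _ => sd_nonneg _ _) fun _ _ => sd_le_one _ _

lemma FF_anti {N : ℕ} {D : ℕ → Finset ℕ} {B C : Finset ℕ} (h : B ⊆ C) (α : ℝ) :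
    FF N D C α ≤ FF N D B α := by
  unfold FF
  rw [← Finset.prod_sdiff h]
  refine mul_le_of_le_one_left (Finset.prod_nonneg fun _ _ => sd_nonneg _ _) ?_
  exact Finset.prod_le_one (fun _ _ => sd_nonneg _ _) fun _ _ => sd_le_one _ _

lemma FF_union {N : ℕ} {D : ℕ → Finset ℕ} {B C : Finset ℕ} (h : Disjoint B C) (α : ℝ) :
    FF N D (B ∪ C) α = FF N D B α * FF N D C α := Finset.prod_union h

lemma FF_add_int (N : ℕ) (D : ℕ → Finset ℕ) (B : Finset ℕ) (α : ℝ) (k : ℤ) :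
    FF N D B (α + k) = FF N D B α := by
  unfold FF
  refine Finset.prod_congr rfl fun i _ => ?_
  have e : (wt N i : ℝ) * (α + k) = wt N i * α + ((wt N i * k : ℤ) : ℝ) := by push_cast; ring
  rw [e, sd_add_int]

lemma card_mul_sd (D : Finset ℕ) (x : ℝ) : (D.card : ℝ) * sd D x = ‖∑ m ∈ D, ee (m * x)‖ := by
  unfold sd
  rcases Nat.eq_zero_or_pos D.card with h | h
  · rw [h]
    have := card_eq_zero.1 h
    subst this
    simp
  · have : (D.card : ℝ) ≠ 0 := by exact_mod_cast h.ne'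
    rw [mul_div_cancel₀ _ this]

/-- the exponential sum is a product -/
lemma norm_sum (N : ℕ) (D : ℕ → Finset ℕ) (B : Finset ℕ) (α : ℝ) :
    ‖∑ m ∈ cf D B, ee (α * (vB N B m : ℝ))‖ = ((cf D B).card : ℝ) * FF N D B α := by
  have h1 : ∀ m : B → ℕ, ee (α * (vB N B m : ℝ)) = ∏ i : B, ee ((m i : ℝ) * (wt N i * α)) := by
    intro m
    have h2 : ∀ s : Finset B, ∏ i ∈ s, ee ((m i : ℝ) * (wt N i * α)) =
        ee (∑ i ∈ s, (m i : ℝ) * (wt N i * α)) := by
      intro s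
      induction s using Finset.induction_on with
      | empty => simp [ls_ee_zero]
      | insert a s ha ih => rw [prod_insert ha, sum_insert ha, ls_ee_add, ih]
    rw [h2]
    congr 1
    unfold vB
    push_cast
    rw [mul_sum]
    refine sum_congr rfl fun i _ => ?_
    ring
  rw [sum_congr rfl fun m _ => h1 m]
  unfold cf
  rw [← Finset.prod_univ_sum (fun i : B => D i) (fun i x => ee ((x : ℝ) * (wt N i * α))), norm_prod]
  have h3 : ∀ i : B, ‖∑ x ∈ D i, ee ((x : ℝ) * (wt N i * α))‖ = ((D i).card : ℝ) * sd (D i) (wt N i * α) :=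
    fun i => (card_mul_sd _ _).symm
  rw [prod_congr rfl fun i _ => h3 i, prod_mul_distrib]
  have h4 : ∏ i : B, ((D i).card : ℝ) = ((Fintype.piFinset (fun i : B => D i)).card : ℝ) := by
    rw [Fintype.card_piFinset]
    push_cast
    rfl
  rw [h4]
  congr 1
  exact Finset.prod_coe_sort B (fun i => sd (D i) (wt N i * α))

open Classical in
/-- pairs of choices with congruent values -/
noncomputable def prs (N : ℕ) (D : ℕ → Finset ℕ) (B : Finset ℕ) (M : ℕ) : Finset ((B → ℕ) × (B → ℕ)) :=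
  ((cf D B) ×ˢ (cf D B)).filter fun x => vB N B x.1 ≡ vB N B x.2 [MOD M]

/-- the mean square -/
lemma sum_sq (N : ℕ) (D : ℕ → Finset ℕ) (B : Finset ℕ) {M : ℕ} (hM : 0 < M) :
    ((cf D B).card : ℝ) ^ 2 * ∑ h ∈ range M, FF N D B ((h : ℝ) / M) ^ 2 = M * ((prs N D B M).card : ℝ) := by
  classical
  have h1 : ((((cf D B).card : ℝ) ^ 2 * ∑ h ∈ range M, FF N D B ((h : ℝ) / M) ^ 2 : ℝ) : ℂ) =
      ∑ h ∈ range M, ∑ x ∈ (cf D B) ×ˢ (cf D B),
        ee ((h : ℝ) * (((vB N B x.1 : ℝ) - (vB N B x.2 : ℝ)) / M)) := by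
    rw [mul_sum]
    push_cast
    refine sum_congr rfl fun h _ => ?_
    have h2 : ((cf D B).card : ℂ) ^ 2 * ((FF N D B ((h : ℝ) / M) : ℝ) : ℂ) ^ 2 =
        ((‖∑ m ∈ cf D B, ee ((h : ℝ) / M * (vB N B m : ℝ))‖ : ℝ) : ℂ) ^ 2 := by
      rw [norm_sum]
      push_cast
      ring
    rw [h2, ← Complex.mul_conj', map_sum, Finset.sum_mul_sum, ← Finset.sum_product']
    refine sum_congr rfl fun x _ => ?_
    rw [ls_conj_ee, ← ls_ee_add]
    congr 1
    ring
  have h2 : ((M * ((prs N D B M).card : ℝ) : ℝ) : ℂ) =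
      ∑ x ∈ (cf D B) ×ˢ (cf D B), if vB N B x.1 ≡ vB N B x.2 [MOD M] then (M : ℂ) else 0 := by
    unfold prs
    rw [← Finset.sum_filter, Finset.sum_const, nsmul_eq_mul]
    push_cast
    ring
  have h3 : ((((cf D B).card : ℝ) ^ 2 * ∑ h ∈ range M, FF N D B ((h : ℝ) / M) ^ 2 : ℝ) : ℂ) =
      ((M * ((prs N D B M).card : ℝ) : ℝ) : ℂ) := by
    rw [h1, h2, Finset.sum_comm]
    exact sum_congr rfl fun x _ => orth hM _ _
  exact_mod_cast h3

/-- the sum over the moduli -/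
lemma sum_prs {N : ℕ} {D : ℕ → Finset ℕ} (hD : ∀ i, D i ⊆ range 10) {B : Finset ℕ}
    (hB : B ⊆ range (N + 1)) (Q : ℕ) (hQ : 1 ≤ Q) {T : ℝ}
    (hT : ∀ n : ℕ, 1 ≤ n → n ≤ 10 ^ (2 * N + 1) → (n.divisors.card : ℝ) ≤ T) :
    ∑ q ∈ Ico Q (2 * Q), ((prs N D B q).card : ℝ) ≤
      (cf D B).card * Q + ((cf D B).card : ℝ) ^ 2 * T := by
  classical
  have hT0 : 0 ≤ T := by
    have := hT 1 le_rfl (Nat.one_le_pow _ _ (by norm_num))
    exact (Nat.cast_nonneg _).trans this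
  have h1 : ∀ q, ((prs N D B q).card : ℝ) = ∑ x ∈ (cf D B) ×ˢ (cf D B),
      if vB N B x.1 ≡ vB N B x.2 [MOD q] then (1 : ℝ) else 0 := by
    intro q
    unfold prs
    rw [← Finset.sum_filter, Finset.sum_const, nsmul_eq_mul, mul_one]
  simp only [h1]
  rw [Finset.sum_comm]
  have h2 : ∀ x ∈ (cf D B) ×ˢ (cf D B), ∑ q ∈ Ico Q (2 * Q),
      (if vB N B x.1 ≡ vB N B x.2 [MOD q] then (1 : ℝ) else 0) ≤ (if x.1 = x.2 then (Q : ℝ) else 0) + T := by
    intro x hx
    rw [mem_product] at hx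
    rw [← Finset.sum_filter, Finset.sum_const, nsmul_eq_mul, mul_one]
    split_ifs with h
    · have h3 : ((Ico Q (2 * Q)).filter fun q => vB N B x.1 ≡ vB N B x.2 [MOD q]).card ≤ Q := by
        refine (card_filter_le _ _).trans ?_
        rw [Nat.card_Ico]
        omega
      have : ((((Ico Q (2 * Q)).filter fun q => vB N B x.1 ≡ vB N B x.2 [MOD q]).card : ℕ) : ℝ) ≤ Q := by
        exact_mod_cast h3
      linarith
    · have hne : vB N B x.1 ≠ vB N B x.2 := fun e => h (vB_inj hD hB hx.1 hx.2 e)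
      set n : ℕ := ((vB N B x.1 : ℤ) - vB N B x.2).natAbs with hn
      have hn1 : 1 ≤ n := by
        rw [hn, Nat.one_le_iff_ne_zero, Int.natAbs_ne_zero]
        intro h0
        apply hne
        omega
      have hn2 : n ≤ 10 ^ (2 * N + 1) := by
        have e1 := vB_lt hD hB hx.1
        have e2 := vB_lt hD hB hx.2
        omega
      have h3 : (Ico Q (2 * Q)).filter (fun q => vB N B x.1 ≡ vB N B x.2 [MOD q]) ⊆ n.divisors := by
        intro q hq
        rw [mem_filter] at hq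
        rw [Nat.mem_divisors]
        refine ⟨?_, by omega⟩
        have h4 := (Nat.modEq_iff_dvd.1 hq.2.symm)
        have h5 := Int.natAbs_dvd_natAbs.2 h4
        rwa [Int.natAbs_natCast] at h5
      have h4 := card_le_card h3
      have h5 : ((((Ico Q (2 * Q)).filter fun q => vB N B x.1 ≡ vB N B x.2 [MOD q]).card : ℕ) : ℝ) ≤
          (n.divisors.card : ℝ) := by exact_mod_cast h4
      linarith [hT n hn1 hn2]
  refine (sum_le_sum h2).trans ?_
  rw [sum_add_distrib, sum_const, nsmul_eq_mul, card_product]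
  have h3 : ∑ x ∈ (cf D B) ×ˢ (cf D B), (if x.1 = x.2 then (Q : ℝ) else 0) = (cf D B).card * Q := by
    rw [Finset.sum_product]
    simp only [Finset.sum_ite_eq]
    rw [Finset.sum_congr rfl (g := fun _ => (Q : ℝ)) (fun x hx => by rw [if_pos hx]), sum_const, nsmul_eq_mul]
  rw [h3]
  push_cast
  apply le_of_eq
  ring

lemma prs_mono {N : ℕ} {D : ℕ → Finset ℕ} {B : Finset ℕ} {q M : ℕ} (h : q ∣ M) :
    (prs N D B M).card ≤ (prs N D B q).card := by
  classical
  unfold prs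
  apply card_le_card
  intro x hx
  rw [mem_filter] at hx ⊢
  exact ⟨hx.1, hx.2.of_dvd h⟩

/-- mean squares over the fractions of `PQ Q` -/
theorem L2_PQ {N : ℕ} {D : ℕ → Finset ℕ} (hD : ∀ i, D i ⊆ range 10) {B : Finset ℕ}
    (hB : B ⊆ range (N + 1)) (hne : 0 < (cf D B).card) (Q : ℕ) (hQ : 1 ≤ Q) {T : ℝ}
    (hT : ∀ n : ℕ, 1 ≤ n → n ≤ 10 ^ (2 * N + 1) → (n.divisors.card : ℝ) ≤ T) :
    ∑ x ∈ PQ Q, FF N D B (fra x) ^ 2 ≤ 42 * Q * (Q / ((cf D B).card : ℝ) + T) := by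
  classical
  have hX : (0 : ℝ) < (cf D B).card := by exact_mod_cast hne
  have h1 : ∑ x ∈ PQ Q, FF N D B (fra x) ^ 2 ≤
      ∑ q ∈ Ico Q (2 * Q), ∑ h ∈ range (21 * q), FF N D B ((h : ℝ) / ((21 * q : ℕ) : ℝ)) ^ 2 := by
    rw [Finset.sum_sigma']
    refine (le_of_eq ?_).trans (Finset.sum_le_sum_of_subset_of_nonneg
      (s := (PQ Q).map ⟨fun x => (⟨x.1, x.2⟩ : (_ : ℕ) × ℕ), fun x y h => by
        simp only [Sigma.mk.injEq, heq_eq_eq] at h
        exact Prod.ext h.1 h.2⟩) ?_ fun x _ _ => by positivity)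
    · rw [Finset.sum_map]
      refine sum_congr rfl fun x _ => ?_
      change FF N D B (fra x) ^ 2 = FF N D B ((x.2 : ℝ) / ((21 * x.1 : ℕ) : ℝ)) ^ 2
      unfold fra
      push_cast
      rfl
    · intro x hx
      rw [mem_map] at hx
      obtain ⟨y, hy, rfl⟩ := hx
      rw [mem_PQ] at hy
      simp only [mem_sigma, mem_Ico, mem_range]
      exact ⟨hy.1, hy.2.2.1⟩
  refine h1.trans ?_
  have h2 : ∀ q ∈ Ico Q (2 * Q), ∑ h ∈ range (21 * q), FF N D B ((h : ℝ) / ((21 * q : ℕ) : ℝ)) ^ 2 ≤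
      42 * Q / ((cf D B).card : ℝ) ^ 2 * ((prs N D B q).card : ℝ) := by
    intro q hq
    rw [mem_Ico] at hq
    have h3 := sum_sq N D B (M := 21 * q) (by omega)
    have h4 : ∑ h ∈ range (21 * q), FF N D B ((h : ℝ) / ((21 * q : ℕ) : ℝ)) ^ 2 =
        ((21 * q : ℕ) : ℝ) * ((prs N D B (21 * q)).card : ℝ) / ((cf D B).card : ℝ) ^ 2 := by
      rw [eq_div_iff (by positivity), mul_comm, h3]
    rw [h4]
    have h5 : ((prs N D B (21 * q)).card : ℝ) ≤ ((prs N D B q).card : ℝ) := by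
      exact_mod_cast prs_mono (Dvd.intro_left 21 rfl)
    have h6 : ((21 * q : ℕ) : ℝ) ≤ 42 * Q := by
      have : 21 * q ≤ 42 * Q := by omega
      exact_mod_cast this
    rw [div_mul_eq_mul_div]
    apply div_le_div_of_nonneg_right _ (by positivity)
    exact mul_le_mul h6 h5 (by positivity) (by positivity)
  refine (sum_le_sum h2).trans ?_
  rw [← mul_sum]
  have h3 := sum_prs hD hB Q hQ hT
  refine (mul_le_mul_of_nonneg_left h3 (by positivity)).trans (le_of_eq ?_)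
  field_simp

/-- mean squares over the fractions with square denominators -/
theorem L2_sq {N : ℕ} {D : ℕ → Finset ℕ} (hD : ∀ i, D i ⊆ range 10) {B : Finset ℕ}
    (hB : B ⊆ range (N + 1)) (hne : 0 < (cf D B).card) (P : ℕ) (hP : 1 ≤ P) {T : ℝ}
    (hT : ∀ n : ℕ, 1 ≤ n → n ≤ 10 ^ (2 * N + 1) → (n.divisors.card : ℝ) ≤ T) :
    ∑ p ∈ Ico P (2 * P), (∑ a ∈ range (p ^ 2), FF N D B ((a : ℝ) / ((p ^ 2 : ℕ) : ℝ)) ^ 2) /
      ((p ^ 2 : ℕ) : ℝ) ≤ P / ((cf D B).card : ℝ) + T := by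
  classical
  have hX : (0 : ℝ) < (cf D B).card := by exact_mod_cast hne
  have h2 : ∀ p ∈ Ico P (2 * P), (∑ a ∈ range (p ^ 2), FF N D B ((a : ℝ) / ((p ^ 2 : ℕ) : ℝ)) ^ 2) /
      ((p ^ 2 : ℕ) : ℝ) ≤ 1 / ((cf D B).card : ℝ) ^ 2 * ((prs N D B p).card : ℝ) := by
    intro p hp
    rw [mem_Ico] at hp
    have hp0 : 0 < p ^ 2 := pow_pos (by omega) 2
    have hpR : (0 : ℝ) < ((p ^ 2 : ℕ) : ℝ) := by exact_mod_cast hp0
    have h3 := sum_sq N D B (M := p ^ 2) hp0
    have h4 : ∑ h ∈ range (p ^ 2), FF N D B ((h : ℝ) / ((p ^ 2 : ℕ) : ℝ)) ^ 2 =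
        ((p ^ 2 : ℕ) : ℝ) * ((prs N D B (p ^ 2)).card : ℝ) / ((cf D B).card : ℝ) ^ 2 := by
      rw [eq_div_iff (by positivity), mul_comm, h3]
    rw [h4]
    have h5 : ((prs N D B (p ^ 2)).card : ℝ) ≤ ((prs N D B p).card : ℝ) := by
      exact_mod_cast prs_mono (Dvd.intro p (by ring))
    have h6 : ((p ^ 2 : ℕ) : ℝ) * ((prs N D B (p ^ 2)).card : ℝ) / ((cf D B).card : ℝ) ^ 2 / ((p ^ 2 : ℕ) : ℝ) =
        1 / ((cf D B).card : ℝ) ^ 2 * ((prs N D B (p ^ 2)).card : ℝ) := by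
      field_simp
    rw [h6]
    exact mul_le_mul_of_nonneg_left h5 (by positivity)
  refine (sum_le_sum h2).trans ?_
  rw [← mul_sum]
  have h3 := sum_prs hD hB P hP hT
  refine (mul_le_mul_of_nonneg_left h3 (by positivity)).trans (le_of_eq ?_)
  field_simp

end Pool.Agent.L5helper11.PD
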