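import Pool.Agent.L5helper11.PD.Dist

/-!
# Palindromes with digits from prescribed digit sets: the residues modulo `21`
-/

set_option autoImplicit false

namespace Pool.Agent.L5helper11.PD

open Finset

/-- a value modulo `21` which is taken at all is taken often -/
theorem loc {ι : Type*} [Fintype ι] [DecidableEq ι] (D : ι → Finset ℕ) (hD : ∀ i, D i ⊆ range 10)
    (w : ι → ZMod 21) {m0 : ι → ℕ} (hm0 : m0 ∈ Fintype.piFinset D) :
    (Fintype.piFinset D).card ≤ 10 ^ 20 *
      ((Fintype.piFinset D).filter (fun m => ∑ i, (m i : ZMod 21) * w i = ∑ i, (m0 i : ZMod 21) * w i)).card := by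
  classical
  set C := Fintype.piFinset D with hC
  -- partial sums
  set sg : Finset ι → (ι → ℕ) → ZMod 21 := fun J m => ∑ i ∈ J, (m i : ZMod 21) * w i with hsg
  set S : Finset ι → Finset (ZMod 21) := fun J => C.image (sg J) with hS
  have hcard21 : ∀ J, (S J).card ≤ 21 := by
    intro J
    refine (card_le_univ _).trans ?_
    rw [ZMod.card]
  -- a maximal set
  set PJ : Finset (Finset ι) := (univ : Finset ι).powerset.filter (fun J => J.card + 1 ≤ (S J).card) with hPJ
  have hne : PJ.Nonempty := by
    refine ⟨∅, ?_⟩
    rw [hPJ, mem_filter]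
    refine ⟨Finset.empty_mem_powerset _, ?_⟩
    have : (0 : ZMod 21) ∈ S ∅ := by
      rw [hS]
      exact mem_image.2 ⟨m0, hm0, by simp [hsg]⟩
    rw [card_empty, zero_add]
    exact card_pos.2 ⟨0, this⟩
  obtain ⟨J, hJ, hJmax⟩ := Finset.exists_max_image PJ Finset.card hne
  have hJP : J.card + 1 ≤ (S J).card := by
    rw [hPJ, mem_filter] at hJ
    exact hJ.2
  have hJ20 : J.card ≤ 20 := by have := hcard21 J; omega
  -- translates
  have htrans : ∀ i, i ∉ J → ∀ d ∈ D i, (S J).image (fun x => x + (d : ZMod 21) * w i) = S (insert i J) := by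
    intro i hi d hd
    have h1 : (S J).image (fun x => x + (d : ZMod 21) * w i) ⊆ S (insert i J) := by
      intro x hx
      rw [mem_image] at hx
      obtain ⟨y, hy, rfl⟩ := hx
      rw [hS] at hy ⊢
      simp only at hy ⊢
      rw [mem_image] at hy ⊢
      obtain ⟨m, hm, rfl⟩ := hy
      refine ⟨Function.update m i d, ?_, ?_⟩
      · rw [hC, Fintype.mem_piFinset] at hm ⊢
        intro j
        by_cases hj : j = i
        · subst hj
          rw [Function.update_self]
          exact hd
        · rw [Function.update_of_ne hj]
          exact hm j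
      · simp only [hsg]
        rw [Finset.sum_insert hi, Function.update_self, add_comm]
        congr 1
        refine Finset.sum_congr rfl fun j hj => ?_
        have hji : j ≠ i := by
          rintro rfl
          exact hi hj
        rw [Function.update_of_ne hji]
    have h2 : (S (insert i J)).card ≤ (S J).card := by
      by_contra h3
      push Not at h3
      have h4 : insert i J ∈ PJ := by
        rw [hPJ, mem_filter]
        refine ⟨Finset.mem_powerset.2 (subset_univ _), ?_⟩
        rw [card_insert_of_notMem hi]
        omega
      have h5 := hJmax _ h4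
      rw [card_insert_of_notMem hi] at h5
      omega
    apply Finset.eq_of_subset_of_card_le h1
    rw [Finset.card_image_of_injective _ (fun x y h => add_right_cancel h)]
    exact h2
  -- the set of values does not depend on the outer digits
  have hout : ∀ T : Finset ι, Disjoint T J → ∀ m ∈ C, ∀ m' ∈ C,
      (S J).image (fun x => x + sg T m) = (S J).image (fun x => x + sg T m') := by
    intro T
    induction T using Finset.induction_on with
    | empty => intro _ m _ m' _; simp [hsg]
    | insert i T hiT ih =>
      intro hd m hm m' hm'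
      rw [Finset.disjoint_insert_left] at hd
      have h1 := ih hd.2 m hm m' hm'
      have hmi : m i ∈ D i := (Fintype.mem_piFinset.1 hm) i
      have hmi' : m' i ∈ D i := (Fintype.mem_piFinset.1 hm') i
      have h2 := (htrans i hd.1 (m i) hmi).trans (htrans i hd.1 (m' i) hmi').symm
      have e : ∀ (A : Finset (ZMod 21)) (m : ι → ℕ), A.image (fun x => x + sg (insert i T) m) =
          (A.image (fun x => x + (m i : ZMod 21) * w i)).image (fun x => x + sg T m) := by
        intro A m
        rw [Finset.image_image]
        refine Finset.image_congr fun x _ => ?_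
        simp only [hsg, Function.comp]
        rw [Finset.sum_insert hiT]
        ring
      have e' : ∀ (A : Finset (ZMod 21)) (m m' : ι → ℕ),
          (A.image (fun x => x + (m i : ZMod 21) * w i)).image (fun x => x + sg T m') =
          (A.image (fun x => x + sg T m')).image (fun x => x + (m i : ZMod 21) * w i) := by
        intro A m m'
        rw [Finset.image_image, Finset.image_image]
        refine Finset.image_congr fun x _ => ?_
        simp only [Function.comp]
        ring
      rw [e _ m, e _ m', h2, e' _ m' m, h1, ← e' _ m' m']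
  -- completion
  have hcomp : ∀ m ∈ C, ∃ m1 ∈ C, sg J m1 + sg Jᶜ m = sg univ m0 := by
    intro m hm
    have h1 := hout Jᶜ disjoint_compl_left m0 hm0 m hm
    have h2 : sg univ m0 ∈ (S J).image (fun x => x + sg Jᶜ m0) := by
      refine mem_image.2 ⟨sg J m0, mem_image.2 ⟨m0, hm0, rfl⟩, ?_⟩
      simp only [hsg]
      exact Finset.sum_add_sum_compl J _
    rw [h1] at h2
    obtain ⟨x, hx, hx2⟩ := mem_image.1 h2
    obtain ⟨m1, hm1, rfl⟩ := mem_image.1 hx
    exact ⟨m1, hm1, hx2⟩
  choose! c hcC hc using hcomp
  set F : (ι → ℕ) → (ι → ℕ) := fun m i => if i ∈ J then c m i else m i with hF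
  have hFJ : ∀ m ∈ C, sg univ (F m) = sg univ m0 := by
    intro m hm
    rw [← hc m hm]
    simp only [hsg]
    rw [← Finset.sum_add_sum_compl J]
    congr 1
    · refine Finset.sum_congr rfl fun i hi => ?_
      simp only [hF, if_pos hi]
    · refine Finset.sum_congr rfl fun i hi => ?_
      rw [mem_compl] at hi
      simp only [hF, if_neg hi]
  have hFC : ∀ m ∈ C, F m ∈ C := by
    intro m hm
    rw [hC, Fintype.mem_piFinset]
    intro i
    simp only [hF]
    split_ifs with hi
    · exact (Fintype.mem_piFinset.1 (hcC m hm)) i
    · exact (Fintype.mem_piFinset.1 hm) i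
  have hmain := Finset.card_le_mul_card_image_of_maps_to (f := F) (s := C)
    (t := C.filter (fun m => sg univ m = sg univ m0)) (fun m hm => mem_filter.2 ⟨hFC m hm, hFJ m hm⟩)
    (10 ^ 20) (by
      intro b _
      have h1 : (C.filter (fun m => F m = b)).card ≤
          (Fintype.piFinset (fun _ : J => range 10)).card := by
        refine Finset.card_le_card_of_injOn (fun m => fun i : J => m i) ?_ ?_
        · intro m hm
          rw [mem_coe, mem_filter] at hm
          rw [mem_coe, Fintype.mem_piFinset]
          intro i
          exact hD _ ((Fintype.mem_piFinset.1 hm.1) i)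
        · intro m hm m' hm' hmm
          rw [mem_coe, mem_filter] at hm hm'
          funext i
          by_cases hi : i ∈ J
          · exact congrFun hmm ⟨i, hi⟩
          · have h2 := congrFun (hm.2.trans hm'.2.symm) i
            simp only [hF, if_neg hi] at h2
            exact h2
      refine h1.trans ?_
      rw [Fintype.card_piFinset]
      simp only [card_range, prod_const, card_univ, Fintype.card_coe]
      exact Nat.pow_le_pow_right (by norm_num) hJ20)
  exact hmain

/-- the palindromes prime to `21` are a positive proportion, if there is one -/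
theorem S21_card {N : ℕ} {D : ℕ → Finset ℕ} (hD : ∀ i, D i ⊆ range 10) (hne : (S21 N D).Nonempty) :
    (XX N D : ℝ) ≤ 10 ^ 20 * ((S21 N D).card : ℝ) := by
  classical
  obtain ⟨m0, hm0⟩ := hne
  unfold S21 at hm0
  rw [mem_filter] at hm0
  have h1 := loc (fun i : (range (N + 1) : Finset ℕ) => D i) (fun i => hD i)
    (fun i => ((wt N i : ℕ) : ZMod 21)) hm0.1
  have h2 : ((Fintype.piFinset (fun i : (range (N + 1) : Finset ℕ) => D i)).filter (fun m : Ix N =>
      ∑ i : (range (N + 1) : Finset ℕ), (m i : ZMod 21) * ((wt N i : ℕ) : ZMod 21) =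
      ∑ i : (range (N + 1) : Finset ℕ), (m0 i : ZMod 21) * ((wt N i : ℕ) : ZMod 21))).card ≤
      (S21 N D).card := by
    apply card_le_card
    intro m hm
    rw [mem_filter] at hm
    unfold S21
    rw [mem_filter]
    refine ⟨hm.1, ?_⟩
    have h3 : ((vv N m : ℕ) : ZMod 21) = ((vv N m0 : ℕ) : ZMod 21) := by
      unfold vv vB
      push_cast
      exact hm.2
    have h4 := (ZMod.natCast_eq_natCast_iff _ _ _).1 h3
    rw [Nat.Coprime, h4.gcd_eq]
    exact hm0.2
  have h3 : XX N D ≤ 10 ^ 20 * (S21 N D).card := by
    have e : XX N D = (Fintype.piFinset (fun i : (range (N + 1) : Finset ℕ) => D i)).card := by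
      have := card_cf D (range (N + 1))
      unfold cf at this
      rw [this]
      rfl
    rw [e]
    exact h1.trans (Nat.mul_le_mul_left _ h2)
  exact_mod_cast h3

end Pool.Agent.L5helper11.PD
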