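import Pool.Agent.L5helper11.PD.Basic

/-!
# Palindromes with digits from prescribed digit sets: rigidity and patterns
-/

set_option autoImplicit false

namespace Pool.Agent.L5helper11.PD

open Finset

/-- weight of the digit number `i` of a palindrome with `2 N + 1` digits -/
def wt (N i : ℕ) : ℕ := if i < N then 10 ^ i + 10 ^ (2 * N - i) else 10 ^ N

lemma wt_pos (N i : ℕ) : 0 < wt N i := by
  unfold wt
  split_ifs <;> positivity

lemma wt_step {N i s : ℕ} (h : i + s < N) :
    10 ^ s * wt N (i + s) + 10 ^ i = wt N i + 10 ^ (2 * s) * 10 ^ i := by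
  unfold wt
  rw [if_pos h, if_pos (by omega), mul_add, ← pow_add, ← pow_add, ← pow_add]
  have e1 : s + (2 * N - (i + s)) = 2 * N - i := by omega
  have e2 : s + (i + s) = 2 * s + i := by ring
  rw [e1, e2]
  ring

/-- iterated multiplication by `β` -/
lemma run {β : ℕ} {c : ℝ} (hc : β * c < 1 / 2) (u : ℝ) (n : ℕ)
    (h : ∀ j ≤ n, dn ((β : ℝ) ^ j * u) ≤ c) : (β : ℝ) ^ n * dn u ≤ c := by
  have key : ∀ j ≤ n, dn ((β : ℝ) ^ j * u) = (β : ℝ) ^ j * dn u := by
    intro j
    induction j with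
    | zero => intro _; simp
    | succ j ih =>
      intro hj
      have h1 := ih (by omega)
      have h2 : (β : ℝ) * dn ((β : ℝ) ^ j * u) < 1 / 2 :=
        lt_of_le_of_lt (mul_le_mul_of_nonneg_left (h j (by omega)) (Nat.cast_nonneg _)) hc
      have h3 := dn_mul_eq β ((β : ℝ) ^ j * u) h2
      have e : (β : ℝ) ^ (j + 1) * u = β * ((β : ℝ) ^ j * u) := by rw [pow_succ]; ring
      rw [e, h3, h1, pow_succ]
      ring
  rw [← key n le_rfl]
  exact h n le_rfl

/-- rigidity -/
lemma rigid {N i s n : ℕ} (hN : i + s * (n + 1) < N) {ε : ℝ} (x : ℝ)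
    (hc : ((10 ^ s : ℕ) : ℝ) * (((10 ^ s : ℕ) + 1) * ε) < 1 / 2)
    (h : ∀ j ≤ n + 1, dn (wt N (i + s * j) * x) ≤ ε) :
    ((10 ^ s : ℕ) : ℝ) ^ n * dn ((((10 ^ (2 * s) - 1 : ℕ) : ℝ) * 10 ^ i) * x) ≤ ((10 ^ s : ℕ) + 1) * ε := by
  refine run hc _ n fun j hj => ?_
  have h1 := h j (by omega)
  have h2 := h (j + 1) (by omega)
  have hst := wt_step (N := N) (i := i + s * j) (s := s) (by
    have : s * (j + 1) ≤ s * (n + 1) := Nat.mul_le_mul_left _ (by omega)
    have e : s * (j + 1) = s * j + s := by ring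
    omega)
  have hge : 1 ≤ 10 ^ (2 * s) := Nat.one_le_pow _ _ (by norm_num)
  have hst' : ((10 ^ s : ℕ) : ℝ) * (wt N (i + s * (j + 1)) : ℝ) + 10 ^ (i + s * j) =
      wt N (i + s * j) + 10 ^ (2 * s) * 10 ^ (i + s * j) := by
    have e : i + s * (j + 1) = i + s * j + s := by ring
    rw [e]
    exact_mod_cast hst
  have e : ((10 ^ s : ℕ) : ℝ) ^ j * ((((10 ^ (2 * s) - 1 : ℕ) : ℝ) * 10 ^ i) * x) =
      ((10 ^ s : ℕ) : ℝ) * (wt N (i + s * (j + 1)) * x) - wt N (i + s * j) * x := by
    have e1 : ((10 ^ s : ℕ) : ℝ) ^ j * 10 ^ i = 10 ^ (i + s * j) := by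
      push_cast
      rw [← pow_mul, ← pow_add]
      congr 1
      ring
    have e2 : ((10 ^ (2 * s) - 1 : ℕ) : ℝ) = 10 ^ (2 * s) - 1 := by
      rw [Nat.cast_sub hge]; push_cast; ring
    have e3 : ((10 ^ s : ℕ) : ℝ) ^ j * ((((10 ^ (2 * s) - 1 : ℕ) : ℝ) * 10 ^ i) * x) =
        (((10 ^ (2 * s) - 1 : ℕ) : ℝ)) * (((10 ^ s : ℕ) : ℝ) ^ j * 10 ^ i) * x := by ring
    rw [e3, e1, e2]
    linear_combination -x * hst'
  rw [e]
  refine (dn_sub_le _ _).trans ?_
  have h3 := (dn_mul_le (10 ^ s) (wt N (i + s * (j + 1)) * x)).trans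
    (mul_le_mul_of_nonneg_left h2 (Nat.cast_nonneg _))
  linarith

/-- the phase of the digit number `i` -/
noncomputable def phs (N i : ℕ) (θ : ℝ) : ℝ := 2520 * (wt N i * θ)

/-- the bad indices in the progression `i, i + s, …, i + s (l - 1)` -/
noncomputable def bad (N i s l : ℕ) (η θ : ℝ) : Finset (Fin l) :=
  univ.filter fun j => η ≤ dn (phs N (i + s * (j : ℕ)) θ)

/-- the pattern of `θ` -/
noncomputable def pat (N i s l m : ℕ) (θ : ℝ) (j : Fin l) : Fin (m + 1) :=
  if dn (phs N (i + s * (j : ℕ)) θ) < 1 / m then 0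
  else Fin.ofNat (m + 1) (⌊m * Int.fract (phs N (i + s * (j : ℕ)) θ)⌋₊ + 1)

lemma pat_cell {m : ℕ} (hm : 0 < m) (x : ℝ) :
    (Fin.ofNat (m + 1) (⌊m * Int.fract x⌋₊ + 1) : Fin (m + 1)).val = ⌊m * Int.fract x⌋₊ + 1 := by
  rw [Fin.val_ofNat, Nat.mod_eq_of_lt]
  have h1 : ⌊(m : ℝ) * Int.fract x⌋₊ < m := by
    rw [Nat.floor_lt (mul_nonneg (Nat.cast_nonneg _) (Int.fract_nonneg _))]
    have hm0 : (0 : ℝ) < m := by exact_mod_cast hm
    have := Int.fract_lt_one x
    nlinarith
  omega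

lemma pat_ne_zero {N i s l m : ℕ} (hm : 0 < m) (θ : ℝ) :
    (univ.filter fun j : Fin l => pat N i s l m θ j ≠ 0) = bad N i s l (1 / m) θ := by
  unfold bad
  ext j
  rw [mem_filter, mem_filter]
  simp only [mem_univ, true_and]
  unfold pat
  split_ifs with h
  · simp only [ne_eq, not_true_eq_false, false_iff, not_le]
    exact h
  · simp only [not_lt] at h
    simp only [h, iff_true]
    intro h0
    have h1 := pat_cell hm (phs N (i + s * (j : ℕ)) θ)
    rw [h0] at h1
    simp at h1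

lemma pat_close {N i s l m : ℕ} (hm : 0 < m) {θ θ' : ℝ} (h : pat N i s l m θ = pat N i s l m θ')
    (j : Fin l) : dn (wt N (i + s * (j : ℕ)) * (2520 * (θ - θ'))) ≤ 2 / m := by
  have hm0 : (0 : ℝ) < m := by exact_mod_cast hm
  have e : wt N (i + s * (j : ℕ)) * (2520 * (θ - θ')) =
      phs N (i + s * (j : ℕ)) θ - phs N (i + s * (j : ℕ)) θ' := by unfold phs; ring
  rw [e]
  have hj := congrFun h j
  unfold pat at hj
  generalize phs N (i + s * (j : ℕ)) θ = a at hj
  generalize phs N (i + s * (j : ℕ)) θ' = b at hj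
  have h2 : (2 : ℝ) / m = 1 / m + 1 / m := by ring
  split_ifs at hj with ha hb hb
  · refine (dn_sub_le a b).trans ?_
    linarith
  · exfalso
    have h1 := pat_cell hm b
    rw [← hj] at h1
    simp at h1
  · exfalso
    have h1 := pat_cell hm a
    rw [hj] at h1
    simp at h1
  · have h1 := pat_cell hm a
    rw [hj, pat_cell hm b] at h1
    have h3 : ⌊(m : ℝ) * Int.fract b⌋₊ = ⌊(m : ℝ) * Int.fract a⌋₊ := by omega
    have ha0 : 0 ≤ (m : ℝ) * Int.fract a := mul_nonneg hm0.le (Int.fract_nonneg _)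
    have hb0 : 0 ≤ (m : ℝ) * Int.fract b := mul_nonneg hm0.le (Int.fract_nonneg _)
    have h4 := Nat.floor_le ha0
    have h5 := Nat.lt_floor_add_one ((m : ℝ) * Int.fract a)
    have h6 := Nat.floor_le hb0
    have h7 := Nat.lt_floor_add_one ((m : ℝ) * Int.fract b)
    rw [h3] at h6 h7
    have h8 : |Int.fract a - Int.fract b| ≤ 1 / m := by
      rw [abs_le]
      constructor
      · rw [neg_le_iff_add_nonneg, ← sub_nonneg]
        have : 0 ≤ ((m : ℝ) * Int.fract a - m * Int.fract b + 1) / m := by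
          apply div_nonneg _ hm0.le
          linarith
        have e : ((m : ℝ) * Int.fract a - m * Int.fract b + 1) / m = Int.fract a - Int.fract b + 1 / m := by
          field_simp
        linarith
      · rw [← sub_nonneg]
        have : 0 ≤ (1 - ((m : ℝ) * Int.fract a - m * Int.fract b)) / m := by
          apply div_nonneg _ hm0.le
          linarith
        have e : (1 - ((m : ℝ) * Int.fract a - m * Int.fract b)) / m = 1 / m - (Int.fract a - Int.fract b) := by
          field_simp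
        linarith
    have h9 : dn (a - b) ≤ |Int.fract a - Int.fract b| := by
      refine (dn_le (a - b) (⌊a⌋ - ⌊b⌋)).trans (le_of_eq ?_)
      unfold Int.fract
      congr 1
      push_cast
      ring
    have h10 : 0 ≤ 1 / (m : ℝ) := by positivity
    linarith

/-- there are few patterns with few non-zero entries -/
lemma card_few (l m R : ℕ) {y : ℝ} (hy0 : 0 < y) (hy1 : y ≤ 1) :
    (((univ : Finset (Fin l → Fin (m + 1))).filter
      fun p => (univ.filter fun j => p j ≠ 0).card ≤ R).card : ℝ) ≤ (1 + m * y) ^ l / y ^ R := by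
  rw [le_div_iff₀ (by positivity)]
  have h1 : ∑ p : Fin l → Fin (m + 1), ∏ j, (if p j = 0 then (1 : ℝ) else y) = (1 + m * y) ^ l := by
    have h2 := (Finset.prod_univ_sum (fun _ : Fin l => (univ : Finset (Fin (m + 1))))
      (fun _ x => if x = 0 then (1 : ℝ) else y)).symm
    rw [Fintype.piFinset_univ] at h2
    rw [h2]
    simp only [prod_const, card_univ, Fintype.card_fin]
    congr 1
    rw [Fin.sum_univ_succ]
    simp [Fin.succ_ne_zero]
  rw [← h1, ← nsmul_eq_mul, ← Finset.sum_const]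
  refine (Finset.sum_le_sum (g := fun p : Fin l → Fin (m + 1) =>
    ∏ j, (if p j = 0 then (1 : ℝ) else y)) ?_).trans
    (Finset.sum_le_sum_of_subset_of_nonneg (filter_subset _ _) fun p _ _ => ?_)
  · intro p hp
    rw [mem_filter] at hp
    have e : ∏ j, (if p j = 0 then (1 : ℝ) else y) = y ^ (univ.filter fun j => p j ≠ 0).card := by
      rw [Finset.prod_ite, prod_const_one, one_mul, prod_const]
    rw [e]
    exact pow_le_pow_of_le_one hy0.le hy1 hp.2
  · apply Finset.prod_nonneg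
    intro j _
    split_ifs
    · norm_num
    · exact hy0.le

end Pool.Agent.L5helper11.PD
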