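import Pool.Agent.L5helper11.PD.Sq
import Pool.Agent.L5helper11.PD.Loc
import Pool.Agent.W89.Sv.Weight
import Pool.Agent.H476R2.Pal.F1

/-!
# Palindromes with digits from prescribed digit sets: the sieve
(the sieve part is a modification of the starting file `R471/PalShort.lean`)
-/

set_option autoImplicit false

namespace Pool.Agent.L5helper11.PD

open Finset Filter Topology
open Pool.Agent.W89.Sv (PP PZ VZ rem En weighted_sieve V_lim cV cV_pos mem_PP dvd_PZ)
open Pool.Agent.H476R2.Pal (omega_bound count_pos)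

/-- a number of positive weight has at most `r` prime factors -/
theorem good_num {r n z : ℕ} {lam R Y E B : ℝ} (hz : 2 ≤ z) (h1 : 0 < n) (h2 : Real.log n ≤ B)
    (hc : n.Coprime 210) (hs : n.Coprime (PZ 210 z))
    (hzD : (z : ℝ) ^ (11 / 2 : ℝ) ≤ E) (hzη : Y < z)
    (hsq : ∀ p : ℕ, p.Coprime 210 → Y ≤ p → (p : ℝ) ≤ E → ¬ p ^ 2 ∣ n)
    (hl0 : 0 < lam) (hR : B ≤ R * (86 / 88 * Real.log ((z : ℝ) ^ (11 / 2 : ℝ))))
    (hrR : 1 / lam + R ≤ r + 1) (hw : 0 < Pool.Agent.W89.Sv.wt 210 z lam n) :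
    n.primeFactorsList.length ≤ r ∧ ∀ p ∈ n.primeFactorsList, Y < p := by
  have hzR : (2 : ℝ) ≤ z := by exact_mod_cast hz
  have hnd : ∀ p : ℕ, p.Prime → p ∣ n → ¬ p ∣ 210 := by
    intro p hp hpn hpb
    have h5 := Nat.dvd_gcd hpn hpb
    rw [hc] at h5
    exact hp.one_lt.ne' (Nat.dvd_one.1 h5)
  have hbig : ∀ p : ℕ, p.Prime → p ∣ n → z ≤ p := by
    intro p hp hpn
    by_contra hlt
    push Not at hlt
    have h4 := dvd_PZ hp hlt (hnd p hp hpn)
    have h5 := Nat.dvd_gcd hpn h4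
    rw [hs] at h5
    exact hp.one_lt.ne' (Nat.dvd_one.1 h5)
  have hbig' : ∀ p : ℕ, p.Prime → p ∣ n → Y < p := fun p hp hpn =>
    hzη.trans_le (by exact_mod_cast hbig p hp hpn)
  refine ⟨?_, fun p hp => hbig' p (Nat.prime_of_mem_primeFactorsList hp) (Nat.dvd_of_mem_primeFactorsList hp)⟩
  set D : ℝ := (z : ℝ) ^ (11 / 2 : ℝ) with hD
  have hD1 : 1 < D := Real.one_lt_rpow (by linarith) (by norm_num)
  have hD0 : 0 < D := by linarith
  have hlD0 : 0 < Real.log D := Real.log_pos hD1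
  set ly := 86 / 88 * Real.log D with hly
  have hly0 : 0 < ly := by positivity
  have hlogy : Real.log (D ^ (86 / 88 : ℝ)) = ly := by rw [Real.log_rpow hD0]
  have hiff : ∀ p : ℕ, p.Prime → (Real.log p < ly ↔ (p : ℝ) < D ^ (86 / 88 : ℝ)) := by
    intro p hp
    rw [← hlogy]
    exact Real.log_lt_log_iff (by exact_mod_cast hp.pos) (by positivity)
  have hyD : D ^ (86 / 88 : ℝ) ≤ D := by
    conv_rhs => rw [← Real.rpow_one D]
    exact Real.rpow_le_rpow_of_exponent_le hD1.le (by norm_num)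
  have hom := omega_bound h1 hly0 (by
    intro p hp hpn hlt
    apply hsq p
    · rw [Nat.Prime.coprime_iff_not_dvd hp]
      exact hnd p hp hpn
    · exact (hbig' p hp hpn).le
    · exact ((((hiff p hp).1 hlt).le).trans hyD).trans hzD)
  have hset : n.primeFactors.filter (fun p : ℕ => Real.log p < ly) =
      (En 210 z D 70).filter (fun p => p ∣ n) := by
    ext p
    unfold En
    have e1 : (((70 : ℕ) : ℝ) + 16) / 88 = 86 / 88 := by norm_num
    rw [e1]
    simp only [mem_filter, mem_PP, Nat.mem_primeFactors]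
    constructor
    · rintro ⟨⟨hp, hpn, _⟩, hlt⟩
      exact ⟨⟨⟨Nat.lt_ceil.2 ((hiff p hp).1 hlt), hp, hnd p hp hpn⟩, hbig p hp hpn⟩, hpn⟩
    · rintro ⟨⟨⟨hlt, hp, _⟩, _⟩, hpn⟩
      exact ⟨⟨hp, hpn, h1.ne'⟩, (hiff p hp).2 (Nat.lt_ceil.1 hlt)⟩
  rw [hset] at hom
  unfold Pool.Agent.W89.Sv.wt at hw
  rw [← hD, ← hly] at hw
  set Sg := ∑ p ∈ (En 210 z D 70).filter (fun p => p ∣ n), (1 - Real.log p / ly) with hSg
  have hS : Sg < 1 / lam := by
    rw [lt_div_iff₀ hl0]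
    linarith
  have hratio : Real.log n / ly ≤ R := by
    rw [div_le_iff₀ hly0]
    exact h2.trans hR
  have hlt : (n.primeFactorsList.length : ℝ) < r + 1 := by linarith
  have : n.primeFactorsList.length < r + 1 := by exact_mod_cast hlt
  omega

/-- the sifting limit -/
noncomputable def zz (κ : ℝ) (N : ℕ) : ℕ := ⌊(10 : ℝ) ^ (κ * N * (2 / 11))⌋₊

lemma zz_le (κ : ℝ) (N : ℕ) : (zz κ N : ℝ) ≤ (10 : ℝ) ^ (κ * N * (2 / 11)) :=
  Nat.floor_le (by positivity)

lemma zz_pow_le (κ : ℝ) (N : ℕ) : ((zz κ N : ℕ) : ℝ) ^ (11 / 2 : ℝ) ≤ (10 : ℝ) ^ (κ * N) := by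
  calc ((zz κ N : ℕ) : ℝ) ^ (11 / 2 : ℝ) ≤ ((10 : ℝ) ^ (κ * N * (2 / 11))) ^ (11 / 2 : ℝ) :=
        Real.rpow_le_rpow (Nat.cast_nonneg _) (zz_le κ N) (by norm_num)
    _ = (10 : ℝ) ^ (κ * N) := by
        rw [← Real.rpow_mul (by norm_num)]
        congr 1
        ring

lemma tendsto_bpow {a : ℝ} (ha : 0 < a) : Tendsto (fun N : ℕ => (10 : ℝ) ^ (a * N)) atTop atTop :=
  (tendsto_rpow_atTop_of_base_gt_one 10 (by norm_num)).comp
    ((tendsto_natCast_atTop_atTop (R := ℝ)).const_mul_atTop ha)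

lemma tendsto_zz {κ : ℝ} (hκ : 0 < κ) : Tendsto (zz κ) atTop atTop := by
  apply tendsto_nat_floor_atTop.comp
  refine (tendsto_bpow (a := κ * (2 / 11)) (by positivity)).congr fun N => ?_
  congr 1
  ring

/-- the value is prime to ten -/
lemma vv_coprime_ten {N : ℕ} (hN : 1 ≤ N) {D : ℕ → Finset ℕ} (h0 : D 0 ⊆ {1, 3, 7, 9}) {m : Ix N}
    (hm : m ∈ cf D (range (N + 1))) : (vv N m).Coprime 10 := by
  have hz : 0 ∈ range (N + 1) := mem_range.2 (by omega)
  unfold cf at hm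
  rw [Fintype.mem_piFinset] at hm
  have h1 : m ⟨0, hz⟩ ∈ ({1, 3, 7, 9} : Finset ℕ) := h0 (hm ⟨0, hz⟩)
  have h2 : vv N m ≡ m ⟨0, hz⟩ [MOD 10] := by
    unfold vv vB
    rw [← Finset.add_sum_erase _ _ (mem_univ (⟨0, hz⟩ : (range (N + 1) : Finset ℕ)))]
    have h3 : ∑ i ∈ univ.erase (⟨0, hz⟩ : (range (N + 1) : Finset ℕ)), m i * wt N i ≡ 0 [MOD 10] := by
      rw [Nat.modEq_zero_iff_dvd]
      apply Finset.dvd_sum
      intro i hi
      apply Dvd.dvd.mul_left
      have hi0 : (i : ℕ) ≠ 0 := by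
        intro h
        apply (mem_erase.1 hi).1
        exact Subtype.ext h
      have hiN := mem_range.1 i.2
      unfold wt
      split_ifs with h4
      · exact dvd_add (dvd_pow_self 10 hi0) (dvd_pow_self 10 (by omega))
      · exact dvd_pow_self 10 (by omega)
    have h4 : m ⟨0, hz⟩ * wt N 0 ≡ m ⟨0, hz⟩ * 1 [MOD 10] := by
      apply Nat.ModEq.mul_left
      unfold wt
      rw [if_pos (by omega), pow_zero]
      have : 10 ^ (2 * N - 0) ≡ 0 [MOD 10] := Nat.modEq_zero_iff_dvd.2 (dvd_pow_self 10 (by omega))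
      exact Nat.ModEq.add_left 1 this
    have h5 := h4.add h3
    rw [mul_one, add_zero] at h5
    exact h5
  rw [Nat.Coprime, h2.gcd_eq]
  simp only [mem_insert, mem_singleton] at h1
  rcases h1 with h | h | h | h <;> rw [h] <;> norm_num

/-- the general theorem -/
theorem sieve_main {r : ℕ} {κ κX lam : ℝ} (hκ0 : 0 < κ) (hκX : 2 * κ < κX) (hX1 : κX ≤ 1)
    (hl0 : 0 < lam) (hl1 : lam ≤ 1) (hlam : lam * (1174 / 1000) < 994 / 1000)
    (hr : 1 / lam + 88 / (43 * κ) < r + 1) :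
    ∃ c : ℝ, 0 < c ∧ ∀ᶠ N : ℕ in atTop, ∀ D : ℕ → Finset ℕ, Good N D →
      (10 : ℝ) ^ (κX * N) ≤ (XX N D : ℝ) → D 0 ⊆ {1, 3, 7, 9} → (S21 N D).Nonempty →
      ∃ G : Finset (Ix N), G ⊆ S21 N D ∧ c * (XX N D : ℝ) / N ≤ G.card ∧ ∀ m ∈ G,
        (vv N m).primeFactorsList.length ≤ r ∧ ∀ p ∈ (vv N m).primeFactorsList, (10 : ℝ) ^ (κ / 6 * N) < p := by
  classical
  have hκ1 : κ < 1 := by linarith
  have hBV := level hκ0 hκX hX1 3
  have hSq := squares hκ0 hκX hX1 (η := κ / 6) (by positivity) 3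
  obtain ⟨δ, hδ0, z0, hsieve⟩ := weighted_sieve 210 (by norm_num) ⟨105, by norm_num⟩ hl0.le hl1 hlam
  have hlb := log_ten
  have hlb3 := log_ten_lt
  have hlb0 : 0 < Real.log 10 := by linarith
  set K : ℝ := cV 210 with hK
  have hK0 : 0 < K := cV_pos _
  set R : ℝ := (r : ℝ) + 1 - 1 / lam with hRd
  have hRκ : 0 < R * (86 / 88) * κ - 2 := by
    have h1 : 88 / (43 * κ) < R := by rw [hRd]; linarith
    rw [div_lt_iff₀ (by positivity)] at h1
    linarith
  have hR0 : 0 < R := by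
    have h1 : 0 < R * (86 / 88) * κ := by linarith
    by_contra h
    push Not at h
    have : R * (86 / 88) * κ ≤ 0 := by
      have h2 : 0 ≤ (86 / 88 : ℝ) * κ := by positivity
      rw [mul_assoc]
      exact mul_nonpos_of_nonpos_of_nonneg h h2
    linarith
  set B21 : ℝ := (10 : ℝ) ^ (20 : ℕ) with hB21
  have hB0 : 0 < B21 := by positivity
  set c : ℝ := δ * K / (16 * Real.log 10 * B21) with hc
  have hc0 : 0 < c := by positivity
  refine ⟨c, hc0, ?_⟩
  have e1 : ∀ᶠ N : ℕ in atTop, K / 2 < VZ 210 (zz κ N) * Real.log (zz κ N : ℝ) :=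
    ((V_lim 210 (by norm_num)).comp (tendsto_zz hκ0)).eventually_const_lt (by linarith)
  have e2 : ∀ᶠ N : ℕ in atTop, max z0 2 ≤ zz κ N := (tendsto_zz hκ0).eventually_ge_atTop _
  have e5 : ∀ᶠ N : ℕ in atTop, 1 / c + 1 ≤ (N : ℝ) :=
    tendsto_natCast_atTop_atTop.eventually_ge_atTop _
  have e6 : ∀ᶠ N : ℕ in atTop, 2 ≤ (10 : ℝ) ^ (κ * (2 / 11 - 1 / 6) * (N : ℝ)) :=
    (tendsto_bpow (a := κ * (2 / 11 - 1 / 6)) (by positivity)).eventually_ge_atTop 2
  have e7 : ∀ᶠ N : ℕ in atTop, Real.log 10 + R * (86 / 88) * (11 / 2 * Real.log 2) ≤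
      (R * (86 / 88) * κ - 2) * Real.log 10 * (N : ℝ) :=
    ((tendsto_natCast_atTop_atTop (R := ℝ)).const_mul_atTop (by positivity)).eventually_ge_atTop _
  filter_upwards [e1, e2, hBV, hSq, e5, e6, e7, eventually_ge_atTop 1] with N h1 h2 h3' h4' h5 h6 h7 hN1 D hD hX hD0 hne
  have h3 := h3' D hD hX
  have hL1 : (1 : ℝ) ≤ N := by exact_mod_cast hN1
  have hL0 : (0 : ℝ) < N := by linarith
  set z := zz κ N with hz
  have hz0 : z0 ≤ z := (le_max_left _ _).trans h2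
  have hz2 : 2 ≤ z := (le_max_right _ _).trans h2
  have hzR : (2 : ℝ) ≤ z := by exact_mod_cast hz2
  have hzle : (z : ℝ) ≤ (10 : ℝ) ^ (κ * N * (2 / 11)) := zz_le κ N
  have hzge : (10 : ℝ) ^ (κ * N * (2 / 11)) / 2 ≤ z := by
    have h8 : (10 : ℝ) ^ (κ * N * (2 / 11)) < z + 1 := Nat.lt_floor_add_one _
    linarith
  have hzη : (10 : ℝ) ^ (κ / 6 * N) < z := by
    have e : (10 : ℝ) ^ (κ * N * (2 / 11)) = (10 : ℝ) ^ (κ / 6 * N) * (10 : ℝ) ^ (κ * (2 / 11 - 1 / 6) * (N : ℝ)) := by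
      rw [← Real.rpow_add (by norm_num)]
      congr 1
      ring
    have h8 : (10 : ℝ) ^ (κ * N * (2 / 11)) < z + 1 := Nat.lt_floor_add_one _
    have h9 : 1 < (10 : ℝ) ^ (κ / 6 * N) := Real.one_lt_rpow (by norm_num) (by positivity)
    have h10 : (10 : ℝ) ^ (κ / 6 * N) * 2 ≤ (10 : ℝ) ^ (κ * N * (2 / 11)) := by
      rw [e]
      exact mul_le_mul_of_nonneg_left h6 (by positivity)
    linarith
  have hzD : (z : ℝ) ^ (11 / 2 : ℝ) ≤ (10 : ℝ) ^ (κ * N) := zz_pow_le κ N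
  have hlogz : Real.log z ≤ N * Real.log 10 := by
    have h8 := Real.log_le_log (by linarith) hzle
    rw [Real.log_rpow (by norm_num)] at h8
    refine h8.trans ?_
    apply mul_le_mul_of_nonneg_right _ hlb0.le
    have : κ * N * (2 / 11) ≤ 1 * N * 1 := by
      apply mul_le_mul _ (by norm_num) (by norm_num) (by positivity)
      exact mul_le_mul_of_nonneg_right hκ1.le hL0.le
    linarith
  have hR : (2 * (N : ℝ) + 1) * Real.log 10 ≤ R * (86 / 88 * Real.log ((z : ℝ) ^ (11 / 2 : ℝ))) := by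
    have h8 := Real.log_le_log (by positivity) hzge
    rw [Real.log_div (by positivity) (by norm_num), Real.log_rpow (by norm_num)] at h8
    rw [Real.log_rpow (by linarith)]
    have h9 : R * (86 / 88) * (11 / 2) * (κ * N * (2 / 11) * Real.log 10 - Real.log 2) ≤
        R * (86 / 88) * (11 / 2) * Real.log z := mul_le_mul_of_nonneg_left h8 (by positivity)
    have h10 : R * (86 / 88) * (11 / 2) * (κ * N * (2 / 11) * Real.log 10 - Real.log 2) =
        (R * (86 / 88) * κ - 2) * Real.log 10 * N + 2 * N * Real.log 10 - R * (86 / 88) * (11 / 2 * Real.log 2) := by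
      ring
    rw [h10] at h9
    nlinarith
  have hVpos : 0 < VZ 210 z := Pool.Agent.W89.Sv.VZ_pos _ _
  have hVL : K / (2 * (N * Real.log 10)) ≤ VZ 210 z := by
    rw [div_le_iff₀ (by positivity)]
    have h8 := mul_le_mul_of_nonneg_left hlogz hVpos.le
    linarith
  set X : ℝ := (XX N D : ℝ) with hXd
  have hX0 : 0 < X := by
    have : (0 : ℝ) < (10 : ℝ) ^ (κX * N) := by positivity
    linarith
  set X1 : ℝ := ((S21 N D).card : ℝ) with hX1d
  have hX1X : X ≤ B21 * X1 := S21_card hD.sub hne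
  have hX10 : 0 < X1 := by
    by_contra h
    push Not at h
    have : B21 * X1 ≤ 0 := mul_nonpos_of_nonneg_of_nonpos hB0.le h
    linarith
  have hS := hsieve z hz0 (Ix N) (S21 N D) (vv N) X1 hX10.le
  have hRem : ∑ q ∈ (Icc 1 ⌊(z : ℝ) ^ (11 / 2 : ℝ)⌋₊).filter (fun q => q.Coprime 210),
      (q.divisors.card : ℝ) ^ 2 * |rem (S21 N D) (vv N) X1 q| ≤ X / (N : ℝ) ^ 3 := by
    refine le_trans ?_ h3
    have hsub : (Icc 1 ⌊(z : ℝ) ^ (11 / 2 : ℝ)⌋₊).filter (fun q => q.Coprime 210) ⊆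
        (Icc 1 ⌊(10 : ℝ) ^ (κ * N)⌋₊).filter (fun q => q.Coprime 210) := by
      intro q hq
      rw [mem_filter, mem_Icc] at hq ⊢
      exact ⟨⟨hq.1.1, hq.1.2.trans (Nat.floor_le_floor hzD)⟩, hq.2⟩
    exact sum_le_sum_of_subset_of_nonneg hsub fun _ _ _ => by positivity
  set w : Ix N → ℝ := fun m => Pool.Agent.W89.Sv.wt 210 z lam (vv N m) with hw
  set T := (S21 N D).filter (fun m => (vv N m).Coprime (PZ 210 z)) with hT
  set B := (S21 N D).filter (fun m => ∃ p : ℕ, p.Coprime 210 ∧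
      (10 : ℝ) ^ (κ / 6 * N) ≤ p ∧ (p : ℝ) ≤ (10 : ℝ) ^ (κ * N) ∧ p ^ 2 ∣ vv N m) with hB
  have hD1 : 1 < (z : ℝ) ^ (11 / 2 : ℝ) := Real.one_lt_rpow (by linarith) (by norm_num)
  have hcp := count_pos T B w (by
    intro m _
    simp only [hw]
    unfold Pool.Agent.W89.Sv.wt
    have h8 : 0 ≤ ∑ p ∈ (En 210 z ((z : ℝ) ^ (11 / 2 : ℝ)) 70).filter (fun p => p ∣ vv N m),
        (1 - Real.log p / (86 / 88 * Real.log ((z : ℝ) ^ (11 / 2 : ℝ)))) := by
      apply sum_nonneg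
      intro p hp
      have hp' := (mem_filter.1 hp).1
      unfold En at hp'
      rw [mem_filter, mem_PP, Nat.lt_ceil] at hp'
      have e : (((70 : ℕ) : ℝ) + 16) / 88 = 86 / 88 := by norm_num
      rw [e] at hp'
      have hlD := Real.log_pos hD1
      have h9 : Real.log p ≤ 86 / 88 * Real.log ((z : ℝ) ^ (11 / 2 : ℝ)) := by
        rw [← Real.log_rpow (by linarith : 0 < (z : ℝ) ^ (11 / 2 : ℝ))]
        exact Real.log_le_log (by exact_mod_cast hp'.1.2.1.pos) hp'.1.1.le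
      rw [sub_nonneg, div_le_one (by positivity)]
      exact h9
    have h10 := mul_nonneg hl0.le h8
    linarith)
  have hsumT : δ * (X1 * VZ 210 z) - X / (N : ℝ) ^ 3 ≤ ∑ m ∈ T, w m := by
    refine le_trans ?_ hS
    linarith
  have hScf : S21 N D ⊆ cf D (range (N + 1)) := filter_subset _ _
  have hBc : (B.card : ℝ) ≤ X / (N : ℝ) ^ 3 :=
    h4' D hD hX B ((filter_subset _ _).trans hScf) fun m hm => (mem_filter.1 hm).2
  -- lower bound for the number of good `m`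
  have hnum : c * X / N ≤ (((T.filter (fun i => 0 < w i)) \ B).card : ℝ) := by
    refine le_trans ?_ hcp
    have h8 : δ * (X1 * (K / (2 * (N * Real.log 10)))) ≤ δ * (X1 * VZ 210 z) := by gcongr
    have h9 : 8 * (c * X / N) ≤ δ * (X1 * (K / (2 * (N * Real.log 10)))) := by
      have e : δ * (X1 * (K / (2 * (N * Real.log 10)))) = 8 * (c * (B21 * X1) / N) := by
        rw [hc]; field_simp; ring
      rw [e]
      apply mul_le_mul_of_nonneg_left _ (by norm_num)
      apply div_le_div_of_nonneg_right _ hL0.le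
      exact mul_le_mul_of_nonneg_left hX1X hc0.le
    have h10 : X / (N : ℝ) ^ 3 ≤ c * X / N := by
      rw [div_le_div_iff₀ (by positivity) hL0]
      have h11 : 1 / c ≤ N := by linarith
      rw [div_le_iff₀ hc0] at h11
      have h13 : 1 ≤ c * N ^ 2 := by
        have : c * N ≤ c * N ^ 2 := by
          apply mul_le_mul_of_nonneg_left _ hc0.le
          exact le_self_pow₀ hL1 (by norm_num)
        linarith
      calc X * N = X * N * 1 := by ring
        _ ≤ X * N * (c * N ^ 2) := by gcongr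
        _ = _ := by ring
    have h14 : 0 ≤ c * X / N := by positivity
    linarith
  refine ⟨(T.filter (fun i => 0 < w i)) \ B, ?_, hnum, ?_⟩
  · intro m hm
    rw [Finset.mem_sdiff, mem_filter, hT, mem_filter] at hm
    exact hm.1.1.1
  · intro m hm
    rw [Finset.mem_sdiff, mem_filter, hT, mem_filter] at hm
    obtain ⟨⟨⟨hmS, hs'⟩, hwm⟩, hmB⟩ := hm
    have hmc := hScf hmS
    have hc10 := vv_coprime_ten hN1 hD0 hmc
    have hc21 : (vv N m).Coprime 21 := (mem_filter.1 hmS).2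
    have hc210 : (vv N m).Coprime 210 := by
      have e : 210 = 10 * 21 := by norm_num
      rw [e]
      exact Nat.Coprime.mul_right hc10 hc21
    have hpos : 0 < vv N m := by
      rcases Nat.eq_zero_or_pos (vv N m) with h0 | h0
      · rw [h0] at hc10
        norm_num at hc10
      · exact h0
    have hlt : vv N m < 10 ^ (2 * N + 1) := vB_lt hD.sub (subset_refl _) hmc
    have hlog : Real.log (vv N m) ≤ (2 * (N : ℝ) + 1) * Real.log 10 := by
      have h8 : ((vv N m : ℕ) : ℝ) ≤ (10 : ℝ) ^ (2 * N + 1) := by exact_mod_cast hlt.le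
      have h9 := Real.log_le_log (by exact_mod_cast hpos) h8
      rw [Real.log_pow] at h9
      push_cast at h9
      exact h9
    exact good_num (r := r) hz2 hpos hlog hc210 hs' hzD hzη (by
      intro p hp1 hp2 hp3 hp4
      apply hmB
      rw [hB, mem_filter]
      exact ⟨hmS, p, hp1, hp2, hp3, hp4⟩) hl0 hR (by rw [hRd]; linarith) hwm

end Pool.Agent.L5helper11.PD
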