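import Pool.Agent.L5helper11.PD.Dist

/-!
# Palindromes with digits from prescribed digit sets: squares
-/

set_option autoImplicit false

namespace Pool.Agent.L5helper11.PD

open Finset Filter Topology Pool.Agent.Helper112
open Pool.Agent.H623R3.PBT8 (orth group)

/-- counting by exponential sums, upper bound -/
lemma cnt_le (N : ℕ) (D : ℕ → Finset ℕ) {M : ℕ} (hM : 0 < M) :
    (((cf D (range (N + 1))).filter (fun m => M ∣ vv N m)).card : ℝ) ≤
      (XX N D : ℝ) * ((∑ a ∈ range M, FF N D (range (N + 1)) ((a : ℝ) / M)) / M) := by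
  classical
  have hM1 : (0 : ℝ) < M := by exact_mod_cast hM
  have h1 : ((M * (((cf D (range (N + 1))).filter (fun m => M ∣ vv N m)).card : ℝ) : ℝ) : ℂ) =
      ∑ a ∈ range M, ∑ m ∈ cf D (range (N + 1)), ee ((a : ℝ) / M * (vB N (range (N + 1)) m : ℝ)) := by
    rw [Finset.sum_comm]
    have h2 : ∀ m ∈ cf D (range (N + 1)), ∑ a ∈ range M, ee ((a : ℝ) / M * (vB N (range (N + 1)) m : ℝ)) =
        if M ∣ vv N m then (M : ℂ) else 0 := by
      intro m _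
      have h3 := orth hM (vv N m) 0
      have h4 : vv N m ≡ 0 [MOD M] ↔ M ∣ vv N m := Nat.modEq_zero_iff_dvd
      simp only [h4] at h3
      rw [← h3]
      refine sum_congr rfl fun a _ => ?_
      congr 1
      unfold vv
      push_cast
      ring
    rw [sum_congr rfl h2, ← Finset.sum_filter, Finset.sum_const, nsmul_eq_mul]
    push_cast
    ring
  have h2 : (M : ℝ) * (((cf D (range (N + 1))).filter (fun m => M ∣ vv N m)).card : ℝ) ≤
      ∑ a ∈ range M, (XX N D : ℝ) * FF N D (range (N + 1)) ((a : ℝ) / M) := by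
    have h3 : (0 : ℝ) ≤ M * (((cf D (range (N + 1))).filter (fun m => M ∣ vv N m)).card : ℝ) := by
      positivity
    have h4 : ‖((M * (((cf D (range (N + 1))).filter (fun m => M ∣ vv N m)).card : ℝ) : ℝ) : ℂ)‖ =
        M * (((cf D (range (N + 1))).filter (fun m => M ∣ vv N m)).card : ℝ) := by
      rw [Complex.norm_real, Real.norm_of_nonneg h3]
    rw [← h4, h1]
    refine (norm_sum_le _ _).trans (le_of_eq ?_)
    refine Finset.sum_congr rfl fun a _ => ?_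
    rw [norm_sum, card_cf]
    rfl
  rw [← Finset.mul_sum] at h2
  rw [← mul_div_assoc, le_div_iff₀ hM1]
  linarith

/-- a dyadic block of square moduli -/
noncomputable def WW (N : ℕ) (D : ℕ → Finset ℕ) (P : ℕ) : ℝ :=
  ∑ p ∈ (Ico P (2 * P)).filter (fun p => p.Coprime 210),
    (∑ a ∈ range (p ^ 2), FF N D (range (N + 1)) ((a : ℝ) / ((p ^ 2 : ℕ) : ℝ))) / ((p ^ 2 : ℕ) : ℝ)

theorem WW_le {κ κX η : ℝ} (hκ : 0 < κ) (hκX : 2 * κ < κX) (hX1 : κX ≤ 1) (hη : 0 < η) :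
    ∃ (C c : ℝ) (N0 : ℕ), 0 < C ∧ 0 < c ∧ ∀ (N : ℕ) (D : ℕ → Finset ℕ), N0 ≤ N → Good N D →
      (10 : ℝ) ^ (κX * N) ≤ (XX N D : ℝ) → ∀ P : ℕ, 1 ≤ P → (10 : ℝ) ^ (η * N) ≤ 2 * P →
      (P : ℝ) ≤ (10 : ℝ) ^ (κ * N) → WW N D P ≤ C * Real.exp (-(c * N)) := by
  classical
  obtain ⟨s, y, c5, C6, N0, hs1, hy0, hy1, hc5, hC6, hcore⟩ := core hκ hκX hX1 (a := η) hη
  obtain ⟨T0, hT0, hT⟩ := div_T (c := c5 / 2) (by positivity)
  set C1 : ℝ := ((2 * (2520 * (10 ^ (2 * s) - 1)) + 1 : ℕ) : ℝ) with hC1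
  have hL := log_ten
  refine ⟨2 * C1 + C6 * (1 + T0), min η (c5 / 2), N0, by positivity, by positivity,
    fun N D hN hD hX P hP hP1 hP2 => ?_⟩
  obtain ⟨n, R, B1, B2, hn, hB1, hB2, hY1, hY2, hQn, hpat, hpt⟩ := hcore N D hN hD hX
  set c : ℝ := min η (c5 / 2) with hc
  have hc1 : c ≤ η := min_le_left _ _
  have hc2 : c ≤ c5 / 2 := min_le_right _ _
  have hP0 : (0 : ℝ) < P := by exact_mod_cast hP
  have hN0 : (0 : ℝ) ≤ N := Nat.cast_nonneg _
  set PP := (Ico P (2 * P)).filter (fun p => p.Coprime 210) with hPP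
  have hmem : ∀ p ∈ PP, P ≤ p ∧ p < 2 * P ∧ p.Coprime 210 := by
    intro p hp
    rw [hPP, mem_filter, mem_Ico] at hp
    exact ⟨hp.1.1, hp.1.2, hp.2⟩
  have hcardPP : (PP.card : ℝ) ≤ P := by
    have : PP.card ≤ P := by
      rw [hPP]
      refine (card_filter_le _ _).trans ?_
      rw [Nat.card_Ico]
      omega
    exact_mod_cast this
  -- exceptional part
  have hexc : ∀ p ∈ PP, (((range (p ^ 2)).filter fun a : ℕ =>
      (bad N 1 s (n + 2) (1 / mm s) ((a : ℝ) / ((p ^ 2 : ℕ) : ℝ))).card ≤ R).card : ℝ) ≤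
      C1 * Real.exp (η * N) := by
    intro p hp
    obtain ⟨h1, h2, h3⟩ := hmem p hp
    have hp2 : p ^ 2 ≤ (10 ^ s) ^ n := by
      have h4 := hQn P hP2
      calc p ^ 2 ≤ (2 * P) ^ 2 := Nat.pow_le_pow_left h2.le 2
        _ = 4 * P ^ 2 := by ring
        _ ≤ _ := h4
    have h5 := exc_card_sq (N := N) (i := 1) (s := s) (n := n) (M := p ^ 2) (R := R) hs1 hn
      (pow_pos (by omega) 2) hp2 ((coprime_ten h3).pow_left 2) hy0 hy1
    exact h5.trans (mul_le_mul_of_nonneg_left hpat (by positivity))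
  -- the main part
  set T : ℝ := T0 * Real.exp (c5 / 2 * N) with hTd
  have hT' : ∀ n : ℕ, 1 ≤ n → n ≤ 10 ^ (2 * N + 1) → (n.divisors.card : ℝ) ≤ T := fun n => hT N n
  have hTpos : 0 < T := by positivity
  set SS : Finset ((_ : ℕ) × ℕ) := PP.sigma (fun p => range (p ^ 2)) with hSS
  set θ : (_ : ℕ) × ℕ → ℝ := fun x => (x.2 : ℝ) / ((x.1 ^ 2 : ℕ) : ℝ) with hθ
  have hL2 : ∀ B : Finset ℕ, B ⊆ range (N + 1) → (10 : ℝ) ^ (κ * N) ≤ ((cf D B).card : ℝ) →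
      ∑ x ∈ SS, 1 / ((x.1 ^ 2 : ℕ) : ℝ) * FF N D B (θ x) ^ 2 ≤ 1 + T := by
    intro B hB hY
    have hYpos : (0 : ℝ) < (10 : ℝ) ^ (κ * N) := by positivity
    have hpos : 0 < (cf D B).card := by
      have : (0 : ℝ) < ((cf D B).card : ℝ) := by linarith
      exact_mod_cast this
    have h1 := L2_sq hD.sub hB hpos P hP hT'
    have h2 : ∑ x ∈ SS, 1 / ((x.1 ^ 2 : ℕ) : ℝ) * FF N D B (θ x) ^ 2 =
        ∑ p ∈ PP, (∑ a ∈ range (p ^ 2), FF N D B ((a : ℝ) / ((p ^ 2 : ℕ) : ℝ)) ^ 2) / ((p ^ 2 : ℕ) : ℝ) := by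
      rw [hSS, Finset.sum_sigma]
      refine sum_congr rfl fun p _ => ?_
      rw [Finset.sum_div]
      refine sum_congr rfl fun a _ => ?_
      simp only [hθ]
      ring
    rw [h2]
    refine (Finset.sum_le_sum_of_subset_of_nonneg (filter_subset _ _) fun p _ _ => ?_).trans (h1.trans ?_)
    · exact div_nonneg (Finset.sum_nonneg fun _ _ => by positivity) (Nat.cast_nonneg _)
    · have : (P : ℝ) / ((cf D B).card : ℝ) ≤ 1 := by
        rw [div_le_one (by linarith)]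
        exact hP2.trans hY
      linarith
  have h3 : ∑ x ∈ SS, 1 / ((x.1 ^ 2 : ℕ) : ℝ) * (FF N D B1 (θ x) * FF N D B2 (θ x)) ≤ 1 * (1 + T) := by
    refine cs_part SS (fun x => FF N D B1 (θ x) * FF N D B2 (θ x)) (fun x => 1 / ((x.1 ^ 2 : ℕ) : ℝ))
      (fun _ _ => by positivity) (fun x => FF N D B1 (θ x)) (fun x => FF N D B2 (θ x))
      (fun _ _ => FF_nonneg _ _ _ _) (fun _ _ => FF_nonneg _ _ _ _) zero_le_one (by positivity)
      (fun x _ => by rw [one_mul]) (hL2 B1 hB1 hY1) (hL2 B2 hB2 hY2)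
  rw [one_mul] at h3
  -- assembly
  have h4 : WW N D P ≤ ∑ p ∈ PP, (((range (p ^ 2)).filter fun a : ℕ =>
      (bad N 1 s (n + 2) (1 / mm s) ((a : ℝ) / ((p ^ 2 : ℕ) : ℝ))).card ≤ R).card : ℝ) / ((p ^ 2 : ℕ) : ℝ) +
      C6 * Real.exp (-(c5 * N)) * ∑ x ∈ SS, 1 / ((x.1 ^ 2 : ℕ) : ℝ) * (FF N D B1 (θ x) * FF N D B2 (θ x)) := by
    unfold WW
    rw [hSS, Finset.sum_sigma, Finset.mul_sum, ← Finset.sum_add_distrib]
    refine sum_le_sum fun p hp => ?_
    have e1 : ∑ a ∈ range (p ^ 2), 1 / (((⟨p, a⟩ : (_ : ℕ) × ℕ).1 ^ 2 : ℕ) : ℝ) *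
        (FF N D B1 (θ ⟨p, a⟩) * FF N D B2 (θ ⟨p, a⟩)) =
        (∑ a ∈ range (p ^ 2), (FF N D B1 ((a : ℝ) / ((p ^ 2 : ℕ) : ℝ)) *
          FF N D B2 ((a : ℝ) / ((p ^ 2 : ℕ) : ℝ)))) / ((p ^ 2 : ℕ) : ℝ) := by
      rw [Finset.sum_div]
      refine sum_congr rfl fun a _ => ?_
      simp only [hθ]
      ring
    rw [e1, ← mul_div_assoc, ← add_div]
    apply div_le_div_of_nonneg_right _ (Nat.cast_nonneg _)
    have hh : ∀ a ∈ range (p ^ 2), FF N D (range (N + 1)) ((a : ℝ) / ((p ^ 2 : ℕ) : ℝ)) ≤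
        (if (bad N 1 s (n + 2) (1 / mm s) ((a : ℝ) / ((p ^ 2 : ℕ) : ℝ))).card ≤ R then (1 : ℝ) else 0) +
          C6 * Real.exp (-(c5 * N)) * (FF N D B1 ((a : ℝ) / ((p ^ 2 : ℕ) : ℝ)) *
            FF N D B2 ((a : ℝ) / ((p ^ 2 : ℕ) : ℝ))) := fun a _ => hpt _
    refine (Finset.sum_le_sum hh).trans (le_of_eq ?_)
    rw [Finset.sum_add_distrib, ← Finset.mul_sum, ← Finset.sum_filter, Finset.sum_const, nsmul_eq_mul, mul_one]
  have h5 : ∑ p ∈ PP, (((range (p ^ 2)).filter fun a : ℕ =>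
      (bad N 1 s (n + 2) (1 / mm s) ((a : ℝ) / ((p ^ 2 : ℕ) : ℝ))).card ≤ R).card : ℝ) / ((p ^ 2 : ℕ) : ℝ) ≤
      2 * C1 * Real.exp (-(c * N)) := by
    have h6 : ∀ p ∈ PP, (((range (p ^ 2)).filter fun a : ℕ =>
      (bad N 1 s (n + 2) (1 / mm s) ((a : ℝ) / ((p ^ 2 : ℕ) : ℝ))).card ≤ R).card : ℝ) / ((p ^ 2 : ℕ) : ℝ) ≤
        C1 * Real.exp (η * N) / (P : ℝ) ^ 2 := by
      intro p hp
      obtain ⟨g1, g2, g3⟩ := hmem p hp
      have h7 : (P : ℝ) ^ 2 ≤ ((p ^ 2 : ℕ) : ℝ) := by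
        push_cast
        exact pow_le_pow_left₀ hP0.le (by exact_mod_cast g1) 2
      exact div_le_div₀ (by positivity) (hexc p hp) (by positivity) h7
    refine (sum_le_sum h6).trans ?_
    rw [Finset.sum_const, nsmul_eq_mul]
    have h8 : (PP.card : ℝ) * (C1 * Real.exp (η * N) / (P : ℝ) ^ 2) ≤ C1 * Real.exp (η * N) / P := by
      calc (PP.card : ℝ) * (C1 * Real.exp (η * N) / (P : ℝ) ^ 2)
          ≤ P * (C1 * Real.exp (η * N) / (P : ℝ) ^ 2) := mul_le_mul_of_nonneg_right hcardPP (by positivity)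
        _ = _ := by field_simp
    refine h8.trans ?_
    rw [div_le_iff₀ hP0]
    have h9 : Real.exp (2 * η * N) ≤ 2 * P := by
      refine le_trans ?_ hP1
      rw [Real.rpow_def_of_pos (by norm_num)]
      apply Real.exp_le_exp.2
      have : 0 ≤ η * N := by positivity
      nlinarith
    have h10 : Real.exp (η * N) ≤ Real.exp (-(c * N)) * Real.exp (2 * η * N) := by
      rw [← Real.exp_add]
      apply Real.exp_le_exp.2
      have : c * N ≤ η * N := mul_le_mul_of_nonneg_right hc1 hN0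
      linarith
    calc C1 * Real.exp (η * N) ≤ C1 * (Real.exp (-(c * N)) * Real.exp (2 * η * N)) := by gcongr
      _ ≤ C1 * (Real.exp (-(c * N)) * (2 * P)) := by gcongr
      _ = _ := by ring
  have h6 : C6 * Real.exp (-(c5 * N)) * (1 + T) ≤ C6 * (1 + T0) * Real.exp (-(c * N)) := by
    have e1 : 1 + T ≤ (1 + T0) * Real.exp (c5 / 2 * N) := by
      have : 1 ≤ Real.exp (c5 / 2 * N) := Real.one_le_exp (by positivity)
      rw [hTd]
      nlinarith
    have e2 : Real.exp (-(c5 * N)) * Real.exp (c5 / 2 * N) ≤ Real.exp (-(c * N)) := by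
      rw [← Real.exp_add]
      apply Real.exp_le_exp.2
      have : c * N ≤ c5 / 2 * N := mul_le_mul_of_nonneg_right hc2 hN0
      linarith
    calc C6 * Real.exp (-(c5 * N)) * (1 + T)
        ≤ C6 * Real.exp (-(c5 * N)) * ((1 + T0) * Real.exp (c5 / 2 * N)) := by gcongr
      _ = C6 * (1 + T0) * (Real.exp (-(c5 * N)) * Real.exp (c5 / 2 * N)) := by ring
      _ ≤ _ := by gcongr
  have h7 := mul_le_mul_of_nonneg_left h3 (show 0 ≤ C6 * Real.exp (-(c5 * N)) by positivity)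
  calc WW N D P ≤ _ := h4
    _ ≤ 2 * C1 * Real.exp (-(c * N)) + C6 * Real.exp (-(c5 * N)) * (1 + T) := add_le_add h5 h7
    _ ≤ 2 * C1 * Real.exp (-(c * N)) + C6 * (1 + T0) * Real.exp (-(c * N)) := by linarith
    _ = _ := by ring

/-- palindromes divisible by the square of a large integer are rare -/
theorem squares {κ κX η : ℝ} (hκ : 0 < κ) (hκX : 2 * κ < κX) (hX1 : κX ≤ 1) (hη : 0 < η) (A : ℕ) :
    ∀ᶠ N : ℕ in atTop, ∀ D : ℕ → Finset ℕ, Good N D → (10 : ℝ) ^ (κX * N) ≤ (XX N D : ℝ) →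
      ∀ S : Finset (Ix N), S ⊆ cf D (range (N + 1)) →
      (∀ m ∈ S, ∃ p : ℕ, p.Coprime 210 ∧ (10 : ℝ) ^ (η * N) ≤ p ∧ (p : ℝ) ≤ (10 : ℝ) ^ (κ * N) ∧
        p ^ 2 ∣ vv N m) → (S.card : ℝ) ≤ (XX N D : ℝ) / (N : ℝ) ^ A := by
  classical
  obtain ⟨C, c, N0, hC, hc, hW⟩ := WW_le hκ hκX hX1 hη
  have hlim : ∀ᶠ N : ℕ in atTop, ((4 * N + 1 : ℕ) : ℝ) * (C * Real.exp (-(c * N))) ≤ 1 / (N : ℝ) ^ A := by
    have h1 := (Real.tendsto_pow_mul_exp_neg_atTop_nhds_zero (A + 1)).comp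
      ((tendsto_natCast_atTop_atTop (R := ℝ)).const_mul_atTop hc)
    have hη' : 0 < c ^ (A + 1) / (5 * C) := by positivity
    filter_upwards [h1.eventually_lt_const hη', eventually_ge_atTop 1] with N hN hN1
    simp only [Function.comp] at hN
    have hNp : (0 : ℝ) < N := by exact_mod_cast hN1
    have hN1' : (1 : ℝ) ≤ N := by exact_mod_cast hN1
    rw [lt_div_iff₀ (by positivity), mul_pow] at hN
    rw [le_div_iff₀ (by positivity)]
    have h2 : ((4 * N + 1 : ℕ) : ℝ) ≤ 5 * N := by push_cast; linarith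
    have h3 : c ^ (A + 1) * ((5 * N) * (C * Real.exp (-(c * N))) * (N : ℝ) ^ A) < c ^ (A + 1) * 1 := by
      calc c ^ (A + 1) * ((5 * N) * (C * Real.exp (-(c * N))) * (N : ℝ) ^ A) =
          c ^ (A + 1) * (N : ℝ) ^ (A + 1) * Real.exp (-(c * N)) * (5 * C) := by rw [pow_succ (N : ℝ)]; ring
        _ < c ^ (A + 1) := hN
        _ = _ := by ring
    have h4 := lt_of_mul_lt_mul_left h3 (by positivity)
    have h5 : ((4 * N + 1 : ℕ) : ℝ) * (C * Real.exp (-(c * N))) * (N : ℝ) ^ A ≤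
        (5 * N) * (C * Real.exp (-(c * N))) * (N : ℝ) ^ A := by
      apply mul_le_mul_of_nonneg_right _ (by positivity)
      exact mul_le_mul_of_nonneg_right h2 (by positivity)
    linarith
  filter_upwards [hlim, eventually_ge_atTop (max N0 1)] with N hN hN1 D hD hX S hS hSq
  have hN0' : N0 ≤ N := (le_max_left _ _).trans hN1
  have hN1' : 1 ≤ N := (le_max_right _ _).trans hN1
  have hXX : (0 : ℝ) ≤ (XX N D : ℝ) := Nat.cast_nonneg _
  -- covering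
  set E : Finset ℕ := (range (4 * N + 1)).filter fun e =>
    (10 : ℝ) ^ (η * N) ≤ 2 * ((2 ^ e : ℕ) : ℝ) ∧ ((2 ^ e : ℕ) : ℝ) ≤ (10 : ℝ) ^ (κ * N) with hE
  have hsub : S ⊆ E.biUnion fun e => ((Ico (2 ^ e) (2 * 2 ^ e)).filter (fun p => p.Coprime 210)).biUnion
      fun p => (cf D (range (N + 1))).filter (fun m => p ^ 2 ∣ vv N m) := by
    intro m hm
    obtain ⟨p, hp1, hp2, hp3, hp4⟩ := hSq m hm
    have hp0 : p ≠ 0 := by
      rintro rfl
      norm_num at hp1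
    have e1 : 2 ^ Nat.log 2 p ≤ p := Nat.pow_log_le_self 2 hp0
    have e2 : p < 2 * 2 ^ Nat.log 2 p := by
      have := Nat.lt_pow_succ_log_self (b := 2) (by norm_num) p
      rwa [Nat.succ_eq_add_one, pow_succ, mul_comm] at this
    have e1R : ((2 ^ Nat.log 2 p : ℕ) : ℝ) ≤ p := by exact_mod_cast e1
    have e2R : (p : ℝ) ≤ 2 * ((2 ^ Nat.log 2 p : ℕ) : ℝ) := by exact_mod_cast e2.le
    rw [Finset.mem_biUnion]
    refine ⟨Nat.log 2 p, ?_, ?_⟩
    · rw [hE, mem_filter, mem_range]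
      refine ⟨?_, hp2.trans e2R, e1R.trans hp3⟩
      have h3 : (2 : ℝ) ^ Nat.log 2 p ≤ (10 : ℝ) ^ (κ * N) := by
        have := e1R.trans hp3
        push_cast at this
        exact this
      have h4 : (10 : ℝ) ^ (κ * N) ≤ (2 : ℝ) ^ (4 * N) := by
        calc (10 : ℝ) ^ (κ * N) ≤ (10 : ℝ) ^ ((N : ℕ) : ℝ) := by
              apply Real.rpow_le_rpow_of_exponent_le (by norm_num)
              have : (0 : ℝ) ≤ N := Nat.cast_nonneg _
              nlinarith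
          _ = (10 : ℝ) ^ N := Real.rpow_natCast _ _
          _ ≤ (16 : ℝ) ^ N := pow_le_pow_left₀ (by norm_num) (by norm_num) N
          _ = (2 : ℝ) ^ (4 * N) := by rw [pow_mul]; norm_num
      have h5 : (2 : ℝ) ^ Nat.log 2 p ≤ (2 : ℝ) ^ (4 * N) := h3.trans h4
      have h6 := (pow_le_pow_iff_right₀ (by norm_num : (1 : ℝ) < 2)).1 h5
      omega
    · rw [Finset.mem_biUnion]
      refine ⟨p, ?_, ?_⟩
      · rw [mem_filter, mem_Ico]
        exact ⟨⟨e1, e2⟩, hp1⟩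
      · rw [mem_filter]
        exact ⟨hS hm, hp4⟩
  have h1 : (S.card : ℝ) ≤ ∑ e ∈ E, ∑ p ∈ (Ico (2 ^ e) (2 * 2 ^ e)).filter (fun p => p.Coprime 210),
      (((cf D (range (N + 1))).filter (fun m => p ^ 2 ∣ vv N m)).card : ℝ) := by
    have h2 : S.card ≤ ∑ e ∈ E, ∑ p ∈ (Ico (2 ^ e) (2 * 2 ^ e)).filter (fun p => p.Coprime 210),
        ((cf D (range (N + 1))).filter (fun m => p ^ 2 ∣ vv N m)).card := by
      refine (Finset.card_le_card hsub).trans (Finset.card_biUnion_le.trans ?_)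
      exact Finset.sum_le_sum fun e _ => Finset.card_biUnion_le
    exact_mod_cast h2
  have h2 : ∀ e ∈ E, ∑ p ∈ (Ico (2 ^ e) (2 * 2 ^ e)).filter (fun p => p.Coprime 210),
      (((cf D (range (N + 1))).filter (fun m => p ^ 2 ∣ vv N m)).card : ℝ) ≤
      (XX N D : ℝ) * (C * Real.exp (-(c * N))) := by
    intro e he
    rw [hE, mem_filter] at he
    have hP1 : 1 ≤ 2 ^ e := Nat.one_le_two_pow
    have h3 := hW N D hN0' hD hX (2 ^ e) hP1 he.2.1 he.2.2
    refine le_trans ?_ (mul_le_mul_of_nonneg_left h3 hXX)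
    unfold WW
    rw [Finset.mul_sum]
    refine sum_le_sum fun p hp => ?_
    rw [mem_filter, mem_Ico] at hp
    exact cnt_le N D (pow_pos (by omega) 2)
  refine h1.trans ((sum_le_sum h2).trans ?_)
  rw [Finset.sum_const, nsmul_eq_mul]
  have h3 : (E.card : ℝ) ≤ ((4 * N + 1 : ℕ) : ℝ) := by
    have : E.card ≤ 4 * N + 1 := by
      rw [hE]
      refine (card_filter_le _ _).trans ?_
      rw [card_range]
    exact_mod_cast this
  calc (E.card : ℝ) * ((XX N D : ℝ) * (C * Real.exp (-(c * N))))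
      ≤ ((4 * N + 1 : ℕ) : ℝ) * ((XX N D : ℝ) * (C * Real.exp (-(c * N)))) :=
        mul_le_mul_of_nonneg_right h3 (by positivity)
    _ = (XX N D : ℝ) * (((4 * N + 1 : ℕ) : ℝ) * (C * Real.exp (-(c * N)))) := by ring
    _ ≤ (XX N D : ℝ) * (1 / (N : ℝ) ^ A) := mul_le_mul_of_nonneg_left hN hXX
    _ = _ := by ring

end Pool.Agent.L5helper11.PD
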